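import Pool.Agent.Lib.MP_181146_gt.HH.DefsH

/-!
# Project HH: the twisted group ring of power series

`TW c`: free module over `F⟦X⟧` on elements `u_g`, `g ∈ G`, with `u_g u_h = c(g, h) u_(gh)`, for a symmetric
normalized cocycle `c` with constant coefficients `1`.  `TW.phi : TW c → F[G]` is the reduction modulo `X`.
-/

set_option autoImplicit false

namespace HHx

open HEp HBx

/-- A symmetric normalized 2-cocycle of `G` with values in the power series with constant
coefficient `1`. -/
structure Cocy (F G : Type) [CommRing F] [CommGroup G] where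
  c : G → G → PowerSeries F
  comm : ∀ g h, c g h = c h g
  assoc : ∀ g h k, c g h * c (g * h) k = c h k * c g (h * k)
  one : ∀ g, c 1 g = 1
  cc : ∀ g h, PowerSeries.constantCoeff (c g h) = 1

section

variable {F G : Type} [CommRing F] [CommGroup G]

/-- The twisted group ring. -/
def TW (_c : Cocy F G) : Type := G →₀ PowerSeries F

variable (c : Cocy F G)

noncomputable instance : AddCommGroup (TW c) := inferInstanceAs (AddCommGroup (G →₀ PowerSeries F))

noncomputable instance : Module (PowerSeries F) (TW c) :=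
  inferInstanceAs (Module (PowerSeries F) (G →₀ PowerSeries F))

/-- The coefficients. -/
noncomputable def TW.coef : TW c ≃ₗ[PowerSeries F] (G →₀ PowerSeries F) := LinearEquiv.refl _ _

/-- The element `f u_g`. -/
noncomputable def TW.sg (g : G) (f : PowerSeries F) : TW c := (TW.coef c).symm (Finsupp.single g f)

lemma TW.coef_sg (g : G) (f : PowerSeries F) : TW.coef c (TW.sg c g f) = Finsupp.single g f :=
  (TW.coef c).apply_symm_apply _

/-- The linear map from `TW c` with given values on the basis. -/
noncomputable def TW.lc {N : Type} [AddCommGroup N] [Module (PowerSeries F) N] (v : G → N) :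
    TW c →ₗ[PowerSeries F] N :=
  Finsupp.linearCombination (PowerSeries F) v ∘ₗ (TW.coef c).toLinearMap

lemma TW.lc_sg {N : Type} [AddCommGroup N] [Module (PowerSeries F) N] (v : G → N) (g : G)
    (f : PowerSeries F) : TW.lc c v (TW.sg c g f) = f • v g := by
  rw [TW.lc, LinearMap.comp_apply, LinearEquiv.coe_coe, TW.coef_sg,
    Finsupp.linearCombination_single]

/-- Multiplication, as a bilinear map. -/
noncomputable def TW.mulB : TW c →ₗ[PowerSeries F] TW c →ₗ[PowerSeries F] TW c :=
  TW.lc c (fun g : G => TW.lc c (fun h : G => TW.sg c (g * h) (c.c g h)))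

lemma TW.smul_sg (a : PowerSeries F) (g : G) (f : PowerSeries F) :
    a • TW.sg c g f = TW.sg c g (a * f) := by
  rw [TW.sg, ← map_smul, Finsupp.smul_single, smul_eq_mul]
  rfl

lemma TW.mulB_sg (g h : G) (a b : PowerSeries F) :
    TW.mulB c (TW.sg c g a) (TW.sg c h b) = TW.sg c (g * h) (a * b * c.c g h) := by
  rw [TW.mulB, TW.lc_sg, LinearMap.smul_apply, TW.lc_sg, TW.smul_sg, TW.smul_sg, mul_assoc]

lemma TW.ind {p : TW c → Prop} (h0 : p 0) (ha : ∀ x y, p x → p y → p (x + y))
    (hs : ∀ g f, p (TW.sg c g f)) (x : TW c) : p x := by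
  have key : ∀ y : G →₀ PowerSeries F, p ((TW.coef c).symm y) := by
    intro y
    induction y using Finsupp.induction_linear with
    | zero => rw [map_zero]; exact h0
    | add a b h1 h2 => rw [map_add]; exact ha _ _ h1 h2
    | single g f => exact hs g f
  have := key (TW.coef c x)
  rwa [LinearEquiv.symm_apply_apply] at this

noncomputable instance : Mul (TW c) := ⟨fun x y => TW.mulB c x y⟩

noncomputable instance : One (TW c) := ⟨TW.sg c 1 1⟩

lemma TW.mul_def (x y : TW c) : x * y = TW.mulB c x y := rfl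

lemma TW.one_def : (1 : TW c) = TW.sg c 1 1 := rfl

lemma TW.sg_mul_sg (g h : G) (a b : PowerSeries F) :
    TW.sg c g a * TW.sg c h b = TW.sg c (g * h) (a * b * c.c g h) := TW.mulB_sg c g h a b

lemma TW.mul_comm' (x y : TW c) : x * y = y * x := by
  induction x using TW.ind c with
  | h0 => rw [TW.mul_def, TW.mul_def, map_zero, LinearMap.zero_apply, map_zero]
  | ha a b ha hb =>
    rw [TW.mul_def, TW.mul_def, map_add, LinearMap.add_apply, map_add, ← TW.mul_def,
      ← TW.mul_def, ← TW.mul_def, ← TW.mul_def, ha, hb]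
  | hs g f =>
    induction y using TW.ind c with
    | h0 => rw [TW.mul_def, TW.mul_def, map_zero, map_zero, LinearMap.zero_apply]
    | ha a b ha hb =>
      rw [TW.mul_def, TW.mul_def, map_add, map_add, LinearMap.add_apply, ← TW.mul_def,
        ← TW.mul_def, ← TW.mul_def, ← TW.mul_def, ha, hb]
    | hs h f' =>
      rw [TW.sg_mul_sg, TW.sg_mul_sg, mul_comm g h, mul_comm f f', c.comm g h]

lemma TW.add_mul' (x y z : TW c) : (x + y) * z = x * z + y * z := by
  rw [TW.mul_def, TW.mul_def, TW.mul_def, map_add, LinearMap.add_apply]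

lemma TW.mul_add' (x y z : TW c) : x * (y + z) = x * y + x * z := by
  rw [TW.mul_def, TW.mul_def, TW.mul_def, map_add]

lemma TW.zero_mul' (x : TW c) : 0 * x = 0 := by
  rw [TW.mul_def, map_zero, LinearMap.zero_apply]

lemma TW.mul_zero' (x : TW c) : x * 0 = 0 := by
  rw [TW.mul_def, map_zero]

lemma TW.smul_mul' (a : PowerSeries F) (x y : TW c) : (a • x) * y = a • (x * y) := by
  rw [TW.mul_def, TW.mul_def, map_smul, LinearMap.smul_apply]

lemma TW.mul_smul' (a : PowerSeries F) (x y : TW c) : x * (a • y) = a • (x * y) := by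
  rw [TW.mul_def, TW.mul_def, map_smul]

lemma TW.mul_assoc' (x y z : TW c) : x * y * z = x * (y * z) := by
  induction x using TW.ind c with
  | h0 => rw [TW.zero_mul', TW.zero_mul', TW.zero_mul']
  | ha a b ha hb => rw [TW.add_mul', TW.add_mul', TW.add_mul', ha, hb]
  | hs g f =>
    induction y using TW.ind c with
    | h0 => rw [TW.mul_zero', TW.zero_mul', TW.mul_zero']
    | ha a b ha hb => rw [TW.mul_add', TW.add_mul', TW.add_mul', TW.mul_add', ha, hb]
    | hs h f' =>
      induction z using TW.ind c with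
      | h0 => rw [TW.mul_zero', TW.mul_zero', TW.mul_zero']
      | ha a b ha hb => rw [TW.mul_add', TW.mul_add', TW.mul_add', ha, hb]
      | hs k f'' =>
        rw [TW.sg_mul_sg, TW.sg_mul_sg, TW.sg_mul_sg, TW.sg_mul_sg, mul_assoc g h k]
        congr 1
        calc f * f' * c.c g h * f'' * c.c (g * h) k = f * f' * f'' * (c.c g h * c.c (g * h) k) := by
              ring
          _ = f * f' * f'' * (c.c h k * c.c g (h * k)) := by rw [c.assoc]
          _ = f * (f' * f'' * c.c h k) * c.c g (h * k) := by ring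

lemma TW.one_mul' (x : TW c) : 1 * x = x := by
  induction x using TW.ind c with
  | h0 => rw [TW.mul_zero']
  | ha a b ha hb => rw [TW.mul_add', ha, hb]
  | hs g f => rw [TW.one_def, TW.sg_mul_sg, c.one, one_mul, one_mul, mul_one]

noncomputable instance : CommRing (TW c) where
  __ := (inferInstance : AddCommGroup (TW c))
  mul_assoc := TW.mul_assoc' c
  one_mul := TW.one_mul' c
  mul_one x := by rw [TW.mul_comm', TW.one_mul']
  left_distrib := TW.mul_add' c
  right_distrib := TW.add_mul' c
  zero_mul := TW.zero_mul' c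
  mul_zero := TW.mul_zero' c
  mul_comm := TW.mul_comm' c

noncomputable instance : Algebra (PowerSeries F) (TW c) :=
  Algebra.ofModule (TW.smul_mul' c) (TW.mul_smul' c)

/-- The basis element `u_g`. -/
noncomputable def TW.u (g : G) : TW c := TW.sg c g 1

lemma TW.u_one : TW.u c 1 = 1 := rfl

lemma TW.u_mul (g h : G) : TW.u c g * TW.u c h = c.c g h • TW.u c (g * h) := by
  rw [TW.u, TW.u, TW.sg_mul_sg, one_mul, one_mul, TW.u, TW.smul_sg, mul_one]

lemma TW.sg_eq (g : G) (f : PowerSeries F) : TW.sg c g f = f • TW.u c g := by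
  rw [TW.u, TW.smul_sg, mul_one]

/-- The element `X` of `TW c`. -/
noncomputable def TW.s : TW c := algebraMap (PowerSeries F) (TW c) PowerSeries.X

lemma TW.algebraMap_smul' (a : PowerSeries F) (x : TW c) :
    algebraMap (PowerSeries F) (TW c) a * x = a • x := (Algebra.smul_def a x).symm

/-- The reduction modulo `X`, as an additive map. -/
noncomputable def TW.phi0 : TW c →+ MonoidAlgebra F G :=
  (Finsupp.liftAddHom (fun g : G => (MonoidAlgebra.singleAddHom g).comp
    (PowerSeries.constantCoeff (R := F)).toAddMonoidHom)).comp (TW.coef c).toAddEquiv.toAddMonoidHom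

lemma TW.phi0_sg (g : G) (f : PowerSeries F) :
    TW.phi0 c (TW.sg c g f) = MonoidAlgebra.single g (PowerSeries.constantCoeff f) := by
  change Finsupp.liftAddHom _ (TW.coef c (TW.sg c g f)) = _
  rw [TW.coef_sg]
  exact Finsupp.liftAddHom_apply_single _ _ _

lemma TW.phi0_mul (x y : TW c) : TW.phi0 c (x * y) = TW.phi0 c x * TW.phi0 c y := by
  induction x using TW.ind c with
  | h0 => rw [zero_mul, map_zero, zero_mul]
  | ha a b ha hb => rw [add_mul, map_add, map_add, add_mul, ha, hb]
  | hs g f =>
    induction y using TW.ind c with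
    | h0 => rw [mul_zero, map_zero, mul_zero]
    | ha a b ha hb => rw [mul_add, map_add, map_add, mul_add, ha, hb]
    | hs h f' =>
      rw [TW.sg_mul_sg, TW.phi0_sg, TW.phi0_sg, TW.phi0_sg, MonoidAlgebra.single_mul_single,
        map_mul, map_mul, c.cc, mul_one]

/-- The reduction modulo `X`. -/
noncomputable def TW.phi : TW c →+* MonoidAlgebra F G where
  toFun := TW.phi0 c
  map_zero' := map_zero _
  map_add' := map_add _
  map_one' := by
    rw [TW.one_def, TW.phi0_sg, map_one]
    rfl
  map_mul' := TW.phi0_mul c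

lemma TW.phi_sg (g : G) (f : PowerSeries F) :
    TW.phi c (TW.sg c g f) = MonoidAlgebra.single g (PowerSeries.constantCoeff f) :=
  TW.phi0_sg c g f

lemma TW.phi_u (g : G) : TW.phi c (TW.u c g) = MonoidAlgebra.of F G g := by
  rw [TW.u, TW.phi_sg, map_one]
  rfl

lemma TW.phi_s : TW.phi c (TW.s c) = 0 := by
  have : TW.s c = TW.sg c 1 PowerSeries.X := by
    rw [TW.s, Algebra.algebraMap_eq_smul_one, TW.one_def, TW.smul_sg, mul_one]
  rw [this, TW.phi_sg, PowerSeries.constantCoeff_X, MonoidAlgebra.single_zero]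

/-! ## Modules over `TW c` from operators -/

section Mod

variable {V : Type} [AddCommGroup V] [Module (PowerSeries F) V]
  (v : G → Module.End (PowerSeries F) V)

/-- The linear map `∑ f_g u_g ↦ ∑ f_g v_g`. -/
noncomputable def TW.act0 : TW c →ₗ[PowerSeries F] Module.End (PowerSeries F) V := TW.lc c v

lemma TW.act0_sg (g : G) (f : PowerSeries F) : TW.act0 c v (TW.sg c g f) = f • v g :=
  TW.lc_sg c v g f

/-- Operators `v_g` with `v_g v_h = c(g, h) v_(gh)` define a ring homomorphism. -/
noncomputable def TW.act (h1 : v 1 = 1) (hm : ∀ g h, v g * v h = c.c g h • v (g * h)) :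
    TW c →+* Module.End (PowerSeries F) V where
  toFun := TW.act0 c v
  map_zero' := map_zero _
  map_add' := map_add _
  map_one' := by
    rw [TW.one_def, TW.act0_sg, one_smul, h1]
  map_mul' x y := by
    induction x using TW.ind c with
    | h0 => rw [zero_mul, map_zero, zero_mul]
    | ha a b ha hb => rw [add_mul, map_add, map_add, add_mul, ha, hb]
    | hs g f =>
      induction y using TW.ind c with
      | h0 => rw [mul_zero, map_zero, mul_zero]
      | ha a b ha hb => rw [mul_add, map_add, map_add, mul_add, ha, hb]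
      | hs h f' =>
        rw [TW.sg_mul_sg, TW.act0_sg, TW.act0_sg, TW.act0_sg, smul_mul_smul_comm, hm, smul_smul]

/-- The module structure over `TW c`. -/
@[reducible]
noncomputable def TW.mod (h1 : v 1 = 1) (hm : ∀ g h, v g * v h = c.c g h • v (g * h)) :
    Module (TW c) V :=
  Module.compHom V (TW.act c v h1 hm)

lemma TW.act_u (h1 : v 1 = 1) (hm : ∀ g h, v g * v h = c.c g h • v (g * h)) (g : G) :
    TW.act c v h1 hm (TW.u c g) = v g := by
  change TW.act0 c v (TW.sg c g 1) = v g
  rw [TW.act0_sg, one_smul]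

lemma TW.act_algebraMap (h1 : v 1 = 1) (hm : ∀ g h, v g * v h = c.c g h • v (g * h))
    (f : PowerSeries F) : TW.act c v h1 hm (algebraMap (PowerSeries F) (TW c) f) =
      f • (1 : Module.End (PowerSeries F) V) := by
  have : algebraMap (PowerSeries F) (TW c) f = TW.sg c 1 f := by
    rw [Algebra.algebraMap_eq_smul_one, TW.one_def, TW.smul_sg, mul_one]
  rw [this]
  change TW.act0 c v (TW.sg c 1 f) = _
  rw [TW.act0_sg, h1]

end Mod

end

/-! ## Cocycles from characters -/

section Carry

variable {F G : Type} [CommRing F] [CommGroup G] {ι : Type} [Fintype ι]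

/-- The carry `(ρ(g) + ρ(h) - ρ(gh)) / m`, where `ρ(g)` is the representative of `ψ(g)` in `[0, m)`. -/
def carry {m : ℕ} (ψ : G →* Multiplicative (ZMod m)) (g h : G) : ℕ :=
  ((ψ g).toAdd.val + (ψ h).toAdd.val) / m

lemma val_mul_carry {m : ℕ} [NeZero m] (ψ : G →* Multiplicative (ZMod m)) (g h : G) :
    (ψ g).toAdd.val + (ψ h).toAdd.val = (ψ (g * h)).toAdd.val + m * carry ψ g h := by
  unfold carry
  rw [map_mul, toAdd_mul, ZMod.val_add]
  exact (Nat.mod_add_div _ _).symm

/-- The cocycle `∏_i ζ_i ^ carry_i(g, h)`. -/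
noncomputable def carryCocy (m : ι → ℕ) [∀ i, NeZero (m i)]
    (ψ : ∀ i, G →* Multiplicative (ZMod (m i))) (ζ : ι → PowerSeries F)
    (hζ : ∀ i, PowerSeries.constantCoeff (ζ i) = 1) : Cocy F G where
  c g h := ∏ i, ζ i ^ carry (ψ i) g h
  comm g h := by
    refine Finset.prod_congr rfl fun i _ => ?_
    unfold carry
    rw [add_comm]
  assoc g h k := by
    rw [← Finset.prod_mul_distrib, ← Finset.prod_mul_distrib]
    refine Finset.prod_congr rfl fun i _ => ?_
    rw [← pow_add, ← pow_add]
    congr 1
    have hm : 0 < m i := Nat.pos_of_ne_zero (NeZero.ne (m i))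
    have e1 := val_mul_carry (ψ i) g h
    have e2 := val_mul_carry (ψ i) (g * h) k
    have e3 := val_mul_carry (ψ i) h k
    have e4 := val_mul_carry (ψ i) g (h * k)
    rw [← mul_assoc] at e4
    have : m i * (carry (ψ i) g h + carry (ψ i) (g * h) k) =
        m i * (carry (ψ i) h k + carry (ψ i) g (h * k)) := by
      rw [mul_add, mul_add]
      omega
    exact Nat.eq_of_mul_eq_mul_left hm this
  one g := by
    refine Finset.prod_eq_one fun i _ => ?_
    have hm : 0 < m i := Nat.pos_of_ne_zero (NeZero.ne (m i))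
    have e1 := val_mul_carry (ψ i) 1 g
    rw [one_mul, map_one, toAdd_one, ZMod.val_zero, zero_add] at e1
    have : m i * carry (ψ i) 1 g = 0 := by omega
    rcases Nat.mul_eq_zero.1 this with h | h
    · omega
    · rw [h, pow_zero]
  cc g h := by
    rw [map_prod]
    refine Finset.prod_eq_one fun i _ => ?_
    rw [map_pow, hζ, one_pow]

end Carry

/-- The augmentation `F[G] → F`. -/
noncomputable def augF (F G : Type) [CommRing F] [CommGroup G] : MonoidAlgebra F G →+* F :=
  (MonoidAlgebra.lift F F G (1 : G →* F)).toRingHom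

lemma augF_of (F G : Type) [CommRing F] [CommGroup G] (g : G) :
    augF F G (MonoidAlgebra.of F G g) = 1 :=
  MonoidAlgebra.lift_of _ _

/-! ## Complexes indexed by `ℤ` as complexes indexed by `ℕ` -/

section Shift

variable {R : Type} [CommRing R]

/-- The module of degree `i - 2 n` of the complex `U`. -/
def NP (U : ZCx R) (n i : ℕ) : Type := U.P ((i : ℤ) - 2 * n)

instance (U : ZCx R) (n i : ℕ) : AddCommGroup (NP U n i) :=
  inferInstanceAs (AddCommGroup (U.P ((i : ℤ) - 2 * n)))

instance (U : ZCx R) (n i : ℕ) : Module R (NP U n i) :=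
  inferInstanceAs (Module R (U.P ((i : ℤ) - 2 * n)))

instance (U : ZCx R) (n i : ℕ) : Module.Finite R (NP U n i) :=
  inferInstanceAs (Module.Finite R (U.P ((i : ℤ) - 2 * n)))

instance (U : ZCx R) (n i : ℕ) : Module.Projective R (NP U n i) :=
  inferInstanceAs (Module.Projective R (U.P ((i : ℤ) - 2 * n)))

/-- The differential. -/
def ND (U : ZCx R) (n i : ℕ) : NP U n (i + 1) →ₗ[R] NP U n i :=
  U.d (((i + 1 : ℕ) : ℤ) - 2 * n) ((i : ℤ) - 2 * n)

end Shift

end HHx
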