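import Pool.Agent.Lib.MP_181146_gt.HH.SpecH
import Pool.Agent.Lib.MP_181146_gt.HH.DefsT
import Pool.Agent.Lib.MP_181146_gt.HB.DefsY

/-!
# Project HH (Theorem H), second specification: the twisted group ring and complexes indexed by `ℤ`

Every statement is a separate task; the proof of each is in the docstring.
-/

set_option linter.unusedVariables false
set_option autoImplicit false

namespace HHx

open HEp HBx
open scoped TensorProduct

/-- **TRed.** `F[G]` is finite, torsion free and reduced.
Proof.  Finite and torsion free: `F[G]` is a free `F`-module of finite rank.  Reduced: let `x` be nilpotent, `q` a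
minimal prime of `F`; `F / q` has characteristic `0` (a minimal prime of the reduced ring `F` consists of zero
divisors: for `n ∈ q`, `n ≠ 0` there would be `t ∉ q` with `n t = 0`); `k = Frac (F / q)`, a field of characteristic
`0`; `k[G]` is semisimple (Maschke: `MonoidAlgebra` instance `IsSemisimpleRing` or
`MonoidAlgebra.Submodule.complementedLattice`) and commutative, so reduced (or directly: `x² = 0` in `k[G]`; the
trace form `(x, y) ↦` coefficient at `1` of `x y` is non degenerate and every nilpotent element `z` has trace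
`|G| z_1 = 0`; apply it to all `x y`).  So all coefficients of `x` are in `q`, for all `q`: they are nilpotent, `0`. -/
def S_TRed : Prop :=
  ∀ (F G : Type) [CommRing F] [Module.Finite ℤ F] [IsReduced F]
    (tf : ∀ (n : ℤ) (x : F), n ≠ 0 → n • x = 0 → x = 0) [CommGroup G] [Finite G],
    Module.Finite ℤ (MonoidAlgebra F G) ∧
    (∀ (n : ℤ) (x : MonoidAlgebra F G), n ≠ 0 → n • x = 0 → x = 0) ∧ IsReduced (MonoidAlgebra F G)

/-- **TGood** (from TRed).  The twisted group ring is good; the elements `u_g` are units.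
Proof.  `F` is noetherian (finite over `ℤ`), `F⟦X⟧` is noetherian (Mathlib), `TW c` is a free module of rank `|G|` over
it (`TW.coef`), so a noetherian ring.  `X x = 0` implies `x = 0` (coefficients).  `1 + s x` is a unit: `M = TW c` is a
finite module over `R0 = F⟦X⟧`, `X` is in the Jacobson radical of `R0` (`1 + X f` is a unit), `M = (1 + s x) M + X M`, so
`M = (1 + s x) M` by Nakayama (`Submodule.le_of_le_smul_of_le_jacobson_bot` or similar, the submodule
`range (multiplication by 1 + s x)`), `1 = (1 + s x) y`.  `φ` is onto (`TW.phi_sg`, constant power series).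
Kernel: `φ x = 0` means that all coefficients of `x` have constant coefficient `0` (the coefficient of `φ x` at `g` is
the constant coefficient of `coef x g`), `X ∣ coef x g` (`PowerSeries.X_dvd_iff`), so `x = X y`.
`u_g u_(g⁻¹) = c(g, g⁻¹)`, a unit of `F⟦X⟧`. -/
def S_TGood : Prop :=
  ∀ (F G : Type) [CommRing F] [Module.Finite ℤ F] [IsReduced F]
    (tf : ∀ (n : ℤ) (x : F), n ≠ 0 → n • x = 0 → x = 0) [CommGroup G] [Finite G] (c : Cocy F G),
    Good (TW.s c) (TW.phi c) ∧ (∀ g, IsUnit (TW.u c g)) ∧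
    Module.Finite (PowerSeries F) (TW c) ∧ Module.Free (PowerSeries F) (TW c)

/-- **ZShf.** The complex indexed by `ℕ`.
Proof: `U.shape`, `U.dd`, `U.bdd` (`n ≥ U.N + 1`; degree `i - 2n > U.N` for `i ≥ 4 n`, and `-2 n < -U.N`).
Cycles: for `i + 1`, `Zc` is the kernel of `U.d a b` with `b + 1 = a` as integers, and `U.Cyc a x` for all targets `j`
follows from `U.shape`.  For `i = 0` both sides are trivial (`NP U n 0` is trivial). -/
def S_ZShf : Prop :=
  ∀ (R : Type) [CommRing R] (U : ZCx R) (n : ℕ) (hn : U.N < n),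
    (∀ i, 2 * (2 * n) ≤ i → Subsingleton (NP U n i)) ∧ Subsingleton (NP U n 0) ∧
    (∀ i x, ND U n i (ND U n (i + 1) x) = 0) ∧
    (∀ (i : ℕ) (x : NP U n i), x ∈ Zc (ND U n) i ↔ U.Cyc ((i : ℤ) - 2 * n) x) ∧
    (∀ (i : ℕ) (x : NP U n i), (∃ y, ND U n i y = x) ↔ U.Bdy ((i : ℤ) - 2 * n) x)

/-- **ZHc** (from ZShf).  The homology modules agree.
Proof: both are quotients of the submodule of cycles by the boundaries (`Submodule.Quotient.equiv` or by
hand, `GC.Z`, `GC.B` as in DefsB: `x ∈ GC.Z ↔ U.Cyc`, `GC.B` = boundaries, by `U.shape`). -/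
def S_ZHc : Prop :=
  ∀ (R : Type) [CommRing R] (U : ZCx R) (n : ℕ) (hn : U.N < n) (i : ℕ),
    Nonempty (Hc (ND U n) i ≃ₗ[R] (gc U).H ((i : ℤ) - 2 * n))

/-- **ZEC** (from ZShf).  The Euler class.
Proof: the products are `∑_j cl` (`HEp.KPi` in HE/SpecG or induction, `cl_prod`); `U.EC` is the sum over
`Icc (-U.N) U.N`, all other classes with `|i| > U.N` are zero (`cl_subsingleton`); reindex `i = a - 2 n`,
`a ∈ range (4 n)`, the sign is `(-1)^a`. -/
def S_ZEC : Prop :=
  ∀ (R : Type) [CommRing R] (U : ZCx R) (n : ℕ) (hn : U.N < n),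
    U.EC = cl R (∀ j : Fin (2 * n), NP U n (2 * (j : ℕ))) -
      cl R (∀ j : Fin (2 * n), NP U n (2 * (j : ℕ) + 1))

/-- **ZLen** (from ALoc, LzE).  Lengths of localized homology modules.
Proof.  `A = Lq φ q`, a discrete valuation ring with maximal ideal `(s)`, residue field `L = A / (s)` (ALoc:
characteristic `0` as integers `≠ 0` are units in `A`).
First case: some `u g - 1` is not in `𝔭`: it is a unit of `A` and kills `H`, so `H_𝔭 = 0`.
Second case: all `φ (u g) - 1 = of g - 1` are in `q`.  `S → A → L` kills `𝔭 ⊇ ker φ`, so it induces `ε' : F[G] → L`, with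
`ε' (of g) = 1`, so `ε' = e ∘ augF` for `e = ε' ∘ (F → F[G])` (`MonoidAlgebra` induction).  `H_𝔭 = A ⊗_S H` is killed by
`s`, so it is an `L`-vector space (`Module.length` over `A` = over `L`, as the submodules are the same) and
`L ⊗_S H ≃ L ⊗_A H_𝔭 ≃ H_𝔭`; `length = finrank` for f.g. vector spaces (`Module.length_eq_finrank` or similar). -/
def S_ZLen : Prop :=
  ∀ (F G S : Type) [CommRing F] [CommGroup G] [CommRing S] (s : S)
    (φ : S →+* MonoidAlgebra F G) (hg : Good s φ) (u : G → S)
    (hu : ∀ g, φ (u g) = MonoidAlgebra.of F G g) (q : Ideal (MonoidAlgebra F G)) [q.IsPrime]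
    (hq : q ∈ minimalPrimes (MonoidAlgebra F G)),
    (∀ (H : Type) [AddCommGroup H] [Module S H], (∀ g, ∀ x : H, u g • x = x) →
      Subsingleton (Mq φ q H)) ∨
    ∃ (L : Type) (_ : Field L) (_ : CharZero L) (e : F →+* L),
      ∀ (H : Type) [AddCommGroup H] [Module S H] [Module.Finite S H], (∀ x : H, s • x = 0) →
        Module.length (Lq φ q) (Mq φ q H) = (hrk (e.comp ((augF F G).comp φ)) H : ℕ)

/-- **ZMain** (from GMain, ZShf, ZHc, ZEC, ZLen, LzE).  THEOREM H in the form used by part A.
Proof.  `n = max U.N Ub.N + 1`, `K = 2 n`.  GMain for `NP U n`, `NP Ub n`, `b i = (r.c (i - 2n), ..)`, `D = ND U n`.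
`hs`: ZShf.  `hχ`: for `q` take `hh i = length (Hc D i)_𝔭 = length ((gc U).H (i - 2n))_𝔭` (ZHc, LzE); all homology modules
are killed by `s` and `u g - 1`.  ZLen: in the first case `hh = 0`.  In the second case `hh i = hrk ε H_(i - 2n)`,
`ε = e ∘ augF ∘ φ`; `EZ ε` gives `N'` with `∑_(|i| ≤ N') (-1)^i hrk H_i = 0`, and `hrk H_i = 0` for `|i| > N'` and for
`|i| > U.N`; so `∑_(a < 4 n) (-1)^a hh a = 0` (reindex), which is the condition.  Conclusion by ZEC for `Ub`. -/
def S_ZMain : Prop :=
  ∀ (F G S : Type) [CommRing F] [CommGroup G] [CommRing S] (s : S)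
    (φ : S →+* MonoidAlgebra F G) (hg : Good s φ) (u : G → S)
    (hu : ∀ g, φ (u g) = MonoidAlgebra.of F G g) (U : ZCx S) (Ub : ZCx (MonoidAlgebra F G))
    (r : HBy.RedZ φ s U Ub) (hs : ∀ i x, U.Cyc i x → U.Bdy i (s • x))
    (hug : ∀ g i x, U.Cyc i x → U.Bdy i (u g • x - x))
    (hE : ∀ (L : Type) [Field L] [CharZero L] (e : F →+* L),
      (gc U).EZ (e.comp ((augF F G).comp φ))),
    Ub.EC = 0

end HHx
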