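import Pool.Agent.Lib.MP_181146_gt.HH.SpecH

/-!
# Project HH (Theorem H): divisibility by powers of `s` is local (ADvd)
-/

set_option autoImplicit false

namespace HHx

open HEp HBx
open scoped TensorProduct

private theorem ADvd_one (hALoc : S_ALoc) (S B : Type) [CommRing S] [CommRing B] (s : S)
    (φ : S →+* B) (hg : Good s φ) :
    ∀ (ρ : ℕ) (x : S), (∀ (q : Ideal B) [q.IsPrime], q ∈ minimalPrimes B →
      algebraMap S (Lq φ q) s ^ ρ ∣ algebraMap S (Lq φ q) x) → s ^ ρ ∣ x := by
  have hs0 : φ s = 0 := (hg.ker s).2 ⟨1, by rw [mul_one]⟩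
  have hred : IsReduced B := hg.red
  intro ρ
  induction ρ with
  | zero =>
    intro x _
    rw [pow_zero]
    exact one_dvd x
  | succ ρ ih =>
    intro x hx
    have h1 : φ x = 0 := by
      have h2 : φ x ∈ sInf ((⊥ : Ideal B).minimalPrimes) := by
        rw [Ideal.mem_sInf]
        intro q hq
        have hqp : q.IsPrime := hq.1.1
        have h3 := hx q hq
        obtain ⟨z, hz⟩ := (dvd_pow_self (algebraMap S (Lq φ q) s) (Nat.succ_ne_zero ρ)).trans h3
        obtain ⟨⟨y, u⟩, hyu⟩ := IsLocalization.surj (q.comap φ).primeCompl z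
        have h4 : algebraMap S (Lq φ q) (u * x) = algebraMap S (Lq φ q) (s * y) := by
          rw [map_mul, map_mul, hz, ← hyu]
          ring
        obtain ⟨c, hc⟩ := (IsLocalization.eq_iff_exists (q.comap φ).primeCompl (Lq φ q)).1 h4
        have h5 := congrArg φ hc
        rw [map_mul, map_mul, map_mul, map_mul, hs0, zero_mul, mul_zero] at h5
        have h6 : φ c * (φ u * φ x) ∈ q := by
          rw [h5]
          exact q.zero_mem
        have hc' : φ c ∉ q := c.2
        have hu' : φ u ∉ q := u.2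
        exact (hqp.mem_or_mem ((hqp.mem_or_mem h6).resolve_left hc')).resolve_left hu'
      rw [Ideal.sInf_minimalPrimes] at h2
      exact (mem_nilradical.1 h2).eq_zero
    obtain ⟨y, rfl⟩ := (hg.ker x).1 h1
    have h7 : s ^ ρ ∣ y := by
      refine ih y fun q hq hqm => ?_
      obtain ⟨⟨hdom, -⟩, hirr, -⟩ := hALoc S B s φ hg q hqm
      have h8 := hx q hqm
      rw [map_mul, pow_succ'] at h8
      exact (mul_dvd_mul_iff_left hirr.ne_zero).1 h8
    rw [pow_succ']
    exact mul_dvd_mul_left s h7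

theorem sADvd (hALoc : S_ALoc) : S_ADvd := by
  intro S B _ _ s φ hg
  have h1 := ADvd_one hALoc S B s φ hg
  refine ⟨fun x ρ => h1 ρ x, fun x hx => ?_⟩
  have hN : IsNoetherianRing S := hg.noeth
  have h2 : Ideal.span {s} ≤ Ideal.jacobson (⊥ : Ideal S) := by
    rw [Ideal.span_le, Set.singleton_subset_iff, SetLike.mem_coe, Ideal.mem_jacobson_bot]
    intro y
    rw [add_comm]
    exact hg.jac y
  have h3 := Ideal.iInf_pow_smul_eq_bot_of_le_jacobson (M := S) (Ideal.span {s}) h2
  have h4 : x ∈ (⨅ i : ℕ, Ideal.span {s} ^ i • (⊤ : Submodule S S)) := by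
    rw [Submodule.mem_iInf]
    intro i
    have h5 : s ^ i ∣ x := h1 i x fun q hq hqm => by
      rw [hx q hqm]
      exact dvd_zero _
    obtain ⟨y, rfl⟩ := h5
    have h6 : s ^ i ∈ Ideal.span {s} ^ i :=
      Ideal.pow_mem_pow (Ideal.mem_span_singleton_self s) i
    exact Submodule.smul_mem_smul h6 (Submodule.mem_top (x := y))
  rw [h3] at h4
  exact (Submodule.mem_bot S).1 h4

end HHx
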