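import Pool.Agent.Lib.MP_181146_gt.HH.SpecH

set_option autoImplicit false

/-!
# Project HH, module AMin: minimal primes do not contain non zero divisors
-/

namespace HHx

open HEp HBx
open scoped TensorProduct

theorem sAMin : S_AMin := by
  intro S _ s hs p hp
  obtain ⟨p0, hp0, hle⟩ := Ideal.exists_minimalPrimes_le (I := (⊥ : Ideal S)) (J := p) bot_le
  refine ⟨p0, hp0.1.1, hle, ?_⟩
  intro hmem
  have hnzd : s ∈ nonZeroDivisors S := by
    rw [mem_nonZeroDivisors_iff_right]
    intro x hx
    exact hs x (by rw [mul_comm]; exact hx)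
  have hdis := Ideal.disjoint_nonZeroDivisors_of_mem_minimalPrimes hp0
  exact Set.disjoint_left.1 hdis hmem hnzd

end HHx
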