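import Pool.Agent.Lib.MP_181146_gt.HH.SpecH

set_option autoImplicit false

/-!
# Project HH, module BCmp: two maps with the same partner have cokernels of the same length
-/

namespace HHx

open HEp HBx
open scoped TensorProduct

private theorem BCmp_len {A : Type} [CommRing A] {r : ℕ} {P Q : Type} [AddCommGroup P] [Module A P]
    [AddCommGroup Q] [Module A Q] (eP : P ≃ₗ[A] (Fin r → A)) (eQ : Q ≃ₗ[A] (Fin r → A))
    (X : P →ₗ[A] Q) :
    Module.length A (Q ⧸ LinearMap.range X) =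
      Module.length A ((Fin r → A) ⧸ LinearMap.range
        ((eQ : Q →ₗ[A] (Fin r → A)) ∘ₗ X ∘ₗ (eP.symm : (Fin r → A) →ₗ[A] P))) := by
  refine LinearEquiv.length_eq (Submodule.Quotient.equiv _ _ eQ ?_)
  rw [LinearMap.range_comp, LinearMap.range_comp_of_range_eq_top X (LinearEquiv.range eP.symm)]

private theorem BCmp_det {A : Type} [CommRing A] {r : ℕ} {P Q : Type} [AddCommGroup P]
    [Module A P] [AddCommGroup Q] [Module A Q] (eP : P ≃ₗ[A] (Fin r → A))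
    (eQ : Q ≃ₗ[A] (Fin r → A)) (X : P →ₗ[A] Q) (Y : Q →ₗ[A] P) :
    LinearMap.det ((eP : P →ₗ[A] (Fin r → A)) ∘ₗ Y ∘ₗ (eQ.symm : (Fin r → A) →ₗ[A] Q)) *
      LinearMap.det ((eQ : Q →ₗ[A] (Fin r → A)) ∘ₗ X ∘ₗ (eP.symm : (Fin r → A) →ₗ[A] P)) =
      LinearMap.det (Y ∘ₗ X : P →ₗ[A] P) := by
  rw [← LinearMap.det_comp, ← LinearMap.det_conj (Y ∘ₗ X : P →ₗ[A] P) eP]
  congr 1
  apply LinearMap.ext
  intro x
  simp only [LinearMap.comp_apply, LinearEquiv.coe_coe, LinearEquiv.symm_apply_apply]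

theorem sBCmp (hBLen : S_BLen) (hBNil : S_BNil) : S_BCmp := by
  intro A _ _ _ ϖ hϖ k P Q _ _ _ _ _ _ _ _ X X' Y' h h1 h2
  have hc : ϖ ^ k ≠ 0 := pow_ne_zero k hϖ.ne_zero
  have hX' : Function.Injective X' := by
    rw [← LinearMap.ker_eq_bot, LinearMap.ker_eq_bot']
    intro x hx
    have h3 := h1 x
    rw [hx, map_zero] at h3
    exact (smul_eq_zero.1 h3.symm).resolve_left hc
  have hY' : Function.Injective Y' := by
    rw [← LinearMap.ker_eq_bot, LinearMap.ker_eq_bot']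
    intro x hx
    have h3 := h2 x
    rw [hx, map_zero] at h3
    exact (smul_eq_zero.1 h3.symm).resolve_left hc
  have hr : Module.finrank A Q = Module.finrank A P :=
    le_antisymm (LinearMap.finrank_le_finrank_of_injective hY')
      (LinearMap.finrank_le_finrank_of_injective hX')
  let eP : P ≃ₗ[A] (Fin (Module.finrank A P) → A) := (Module.finBasis A P).equivFun
  let eQ : Q ≃ₗ[A] (Fin (Module.finrank A P) → A) := (Module.finBasisOfFinrankEq A Q hr).equivFun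
  have d1 : LinearMap.det (Y' ∘ₗ X : P →ₗ[A] P) = (ϖ ^ k) ^ Module.finrank A P := by
    have h3 := hBNil A P (ϖ ^ k) _ h
    rw [← h3]
    congr 1
    apply LinearMap.ext
    intro x
    change Y' (X x) = ϖ ^ k • x + (Y' (X x) - ϖ ^ k • x)
    abel
  have d2 : LinearMap.det (Y' ∘ₗ X' : P →ₗ[A] P) = (ϖ ^ k) ^ Module.finrank A P := by
    have h3 := hBNil A P (ϖ ^ k) 0 IsNilpotent.zero
    rw [← h3]
    congr 1
    apply LinearMap.ext
    intro x
    change Y' (X' x) = ϖ ^ k • x + 0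
    rw [h1, add_zero]
  have e1 := BCmp_det eP eQ X Y'
  have e2 := BCmp_det eP eQ X' Y'
  rw [d1] at e1
  rw [d2] at e2
  have hcr : (ϖ ^ k) ^ Module.finrank A P ≠ 0 := pow_ne_zero _ hc
  have hy : LinearMap.det ((eP : P →ₗ[A] (Fin (Module.finrank A P) → A)) ∘ₗ Y' ∘ₗ
      (eQ.symm : (Fin (Module.finrank A P) → A) →ₗ[A] Q)) ≠ 0 := by
    intro h3
    rw [h3, zero_mul] at e1
    exact hcr e1.symm
  have e3 := mul_left_cancel₀ hy (e1.trans e2.symm)
  have hg : LinearMap.det ((eQ : Q →ₗ[A] (Fin (Module.finrank A P) → A)) ∘ₗ X ∘ₗ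
      (eP.symm : (Fin (Module.finrank A P) → A) →ₗ[A] P)) ≠ 0 := by
    intro h3
    rw [h3, mul_zero] at e1
    exact hcr e1.symm
  obtain ⟨l, hl, ha⟩ := hBLen A ϖ hϖ _ _ hg
  obtain ⟨l', hl', ha'⟩ := hBLen A ϖ hϖ _ _ (e3 ▸ hg)
  rw [BCmp_len eP eQ X, BCmp_len eP eQ X', hl, hl']
  rw [← e3] at ha'
  have h5 : Associated (ϖ ^ l) (ϖ ^ l') := ha.symm.trans ha'
  have h6 : l ≤ l' := (pow_dvd_pow_iff hϖ.ne_zero hϖ.not_isUnit).1 h5.dvd
  have h7 : l' ≤ l := (pow_dvd_pow_iff hϖ.ne_zero hϖ.not_isUnit).1 h5.symm.dvd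
  rw [le_antisymm h6 h7]

end HHx
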