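import Pool.Agent.Lib.MP_181146_gt.HH.SpecH

/-!
# Project HH (Theorem H), module BLen: the length of the cokernel is the valuation of the determinant
-/

set_option autoImplicit false

namespace HHx

open HEp HBx
open scoped TensorProduct

private theorem BLen_det {A : Type} [CommRing A] {r : ℕ} {N : Submodule A (Fin r → A)}
    (b' : Module.Basis (Fin r) A (Fin r → A)) (a : Fin r → A) (ab : Module.Basis (Fin r) A N)
    (hab : ∀ i, (ab i : Fin r → A) = a i • b' i) (g : (Fin r → A) →ₗ[A] (Fin r → A))
    (e : (Fin r → A) ≃ₗ[A] N) (he : ∀ x, (e x : Fin r → A) = g x) :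
    Associated (LinearMap.det g) (∏ i, a i) := by
  let δ : (Fin r → A) →ₗ[A] (Fin r → A) := b'.constr A (fun i => a i • b' i)
  have hδ : ∀ i, δ (b' i) = a i • b' i := fun i => b'.constr_basis A _ i
  let θ : (Fin r → A) ≃ₗ[A] (Fin r → A) := e.trans (ab.equiv b' (Equiv.refl _))
  have h1 : δ ∘ₗ (ab.equiv b' (Equiv.refl _)).toLinearMap = N.subtype := by
    apply ab.ext
    intro i
    rw [LinearMap.comp_apply, LinearEquiv.coe_coe, Module.Basis.equiv_apply, Equiv.refl_apply, hδ,
      Submodule.subtype_apply, hab]
  have h2 : g = δ ∘ₗ θ.toLinearMap := by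
    apply LinearMap.ext
    intro x
    have h3 := LinearMap.congr_fun h1 (e x)
    rw [Submodule.subtype_apply, he] at h3
    exact h3.symm
  have h4 : LinearMap.det δ = ∏ i, a i := by
    rw [← LinearMap.det_toMatrix b']
    have h5 : LinearMap.toMatrix b' b' δ = Matrix.diagonal a := by
      ext i j
      rw [LinearMap.toMatrix_apply, hδ, map_smul, Finsupp.smul_apply, Module.Basis.repr_self,
        Matrix.diagonal_apply, Finsupp.single_apply, smul_eq_mul]
      by_cases hij : i = j
      · subst hij
        simp
      · rw [if_neg hij, if_neg (fun h => hij h.symm), mul_zero]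
    rw [h5, Matrix.det_diagonal]
  rw [h2, LinearMap.det_comp, h4]
  exact (associated_mul_unit_left _ _ (LinearEquiv.isUnit_det' θ))

/-- The length of the cokernel is the valuation of the determinant. -/
theorem sBLen (hBOrd : S_BOrd) : S_BLen := by
  intro A _ _ _ ϖ hϖ r g hg
  have hinj : Function.Injective g := by
    rw [injective_iff_map_eq_zero]
    intro x hx
    have h1 : (LinearMap.toMatrix' g).det ≠ 0 := by
      rwa [LinearMap.det_toMatrix']
    apply Matrix.eq_zero_of_mulVec_eq_zero h1
    rw [← Matrix.toLin'_apply, Matrix.toLin'_toMatrix', hx]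
  let N : Submodule A (Fin r → A) := LinearMap.range g
  let e : (Fin r → A) ≃ₗ[A] N := LinearEquiv.ofInjective g hinj
  have he : ∀ x, (e x : Fin r → A) = g x := fun x => rfl
  have hrk : Module.finrank A N = Module.finrank A (Fin r → A) := (LinearEquiv.finrank_eq e).symm
  let b : Module.Basis (Fin r) A (Fin r → A) := Pi.basisFun A (Fin r)
  let a := Submodule.smithNormalFormCoeffs b hrk
  have hass : Associated (LinearMap.det g) (∏ i, a i) :=
    BLen_det (Submodule.smithNormalFormTopBasis b hrk) a (Submodule.smithNormalFormBotBasis b hrk)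
      (Submodule.smithNormalFormBotBasis_def b hrk) g e he
  have ha : ∀ i, ∃ n : ℕ, Associated (a i) (ϖ ^ n) := fun i =>
    IsDiscreteValuationRing.associated_pow_irreducible
      (Submodule.smithNormalFormCoeffs_ne_zero b hrk i) hϖ
  choose n hn using ha
  refine ⟨∑ i, n i, ?_, ?_⟩
  · have h1 : Module.length A ((Fin r → A) ⧸ LinearMap.range g) =
        Module.length A (∀ i, A ⧸ Ideal.span ({a i} : Set A)) :=
      LinearEquiv.length_eq (Submodule.quotientEquivPiSpan N b hrk)
    rw [h1, Module.length_pi_of_fintype]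
    rw [Nat.cast_sum]
    refine Finset.sum_congr rfl fun i _ => ?_
    have h2 : Ideal.span ({a i} : Set A) = Ideal.span {ϖ ^ n i} :=
      Ideal.span_singleton_eq_span_singleton.2 (hn i)
    rw [h2]
    exact (hBOrd A ϖ hϖ (n i)).1
  · refine hass.trans ?_
    rw [← Finset.prod_pow_eq_pow_sum]
    exact Associated.prod _ _ _ (fun i _ => hn i)

end HHx
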