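import Pool.Agent.Lib.MP_181146_gt.HH.SpecH

/-!
# Project HH (Theorem H), module BNil
-/

set_option autoImplicit false

namespace HHx

open HEp HBx
open scoped TensorProduct

theorem sBNil : S_BNil := by
  intro A _ _ V _ _ _ _ a N hN
  have h2 := LinearMap.eval_charpoly (-N) a
  rw [IsNilpotent.charpoly_eq_X_pow_finrank hN.neg, Polynomial.eval_pow, Polynomial.eval_X] at h2
  rw [h2, sub_neg_eq_add, Algebra.algebraMap_eq_smul_one]

end HHx
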