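import Pool.Agent.Lib.MP_181146_gt.HH.SpecH

/-!
# Project HH (Theorem H), module BOrd
-/

set_option autoImplicit false

namespace HHx

open HEp HBx
open scoped TensorProduct

private theorem BOrd_one {A : Type} [CommRing A] [IsDomain A] [IsDiscreteValuationRing A] {ϖ : A}
    (hϖ : Irreducible ϖ) : Ring.ord A ϖ = 1 := by
  unfold Ring.ord
  rw [Module.length_eq_one_iff, isSimpleModule_iff_isCoatom, ← Ideal.isMaximal_def,
    ← hϖ.maximalIdeal_eq]
  exact IsLocalRing.maximalIdeal.isMaximal A

private theorem BOrd_pow {A : Type} [CommRing A] [IsDomain A] [IsDiscreteValuationRing A] {ϖ : A}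
    (hϖ : Irreducible ϖ) (k : ℕ) : Ring.ord A (ϖ ^ k) = k := by
  induction k with
  | zero => rw [pow_zero, Ring.ord_one]; rfl
  | succ k ih =>
    rw [pow_succ, Ring.ord_mul A (mem_nonZeroDivisors_of_ne_zero hϖ.ne_zero), ih, BOrd_one hϖ]
    push_cast
    rfl

private theorem BOrd_mod {A : Type} [CommRing A] (a : A) (V : Type) [AddCommGroup V] [Module A V]
    (n : ℕ) (e : V ≃ₗ[A] (Fin n → A)) :
    Nonempty ((V ⧸ LinearMap.range (a • (LinearMap.id : V →ₗ[A] V))) ≃ₗ[A]
      (Fin n → A ⧸ Ideal.span {a})) := by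
  let q : A →ₗ[A] A ⧸ Ideal.span {a} := (Ideal.span {a}).mkQ
  let f : V →ₗ[A] (Fin n → A ⧸ Ideal.span {a}) :=
    LinearMap.pi fun i => q ∘ₗ (LinearMap.proj i) ∘ₗ e.toLinearMap
  have hfa : ∀ (x : V) (i : Fin n), f x i = q (e x i) := fun x i => rfl
  have hf : Function.Surjective f := by
    intro y
    choose z hz using fun i => Submodule.mkQ_surjective (Ideal.span {a}) (y i)
    refine ⟨e.symm z, ?_⟩
    funext i
    rw [hfa, LinearEquiv.apply_symm_apply]
    exact hz i
  have hk : LinearMap.ker f = LinearMap.range (a • (LinearMap.id : V →ₗ[A] V)) := by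
    ext x
    rw [LinearMap.mem_ker, LinearMap.mem_range]
    constructor
    · intro hx
      have h1 : ∀ i, ∃ c, e x i = a * c := by
        intro i
        have h2 : q (e x i) = 0 := by rw [← hfa, hx]; rfl
        have h3 : e x i ∈ Ideal.span {a} := (Submodule.Quotient.mk_eq_zero _).1 h2
        exact Ideal.mem_span_singleton.1 h3
      choose c hc using h1
      refine ⟨e.symm c, ?_⟩
      apply e.injective
      rw [LinearMap.smul_apply, LinearMap.id_apply, map_smul, LinearEquiv.apply_symm_apply]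
      funext i
      rw [Pi.smul_apply, smul_eq_mul, hc i]
    · rintro ⟨y, rfl⟩
      funext i
      rw [hfa, LinearMap.smul_apply, LinearMap.id_apply, map_smul, Pi.smul_apply, smul_eq_mul]
      exact (Submodule.Quotient.mk_eq_zero _).2
        (Ideal.mul_mem_right _ _ (Ideal.mem_span_singleton_self a))
  exact ⟨(Submodule.quotEquivOfEq _ _ hk.symm).trans (f.quotKerEquivOfSurjective hf)⟩

theorem sBOrd : S_BOrd := by
  intro A _ _ _ ϖ hϖ k
  have h0 : Module.length A (A ⧸ Ideal.span {ϖ ^ k}) = k := BOrd_pow hϖ k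
  refine ⟨h0, ?_⟩
  intro V _ _ _ _
  obtain ⟨e⟩ := BOrd_mod (ϖ ^ k) V (Module.finrank A V) (Module.finBasis A V).equivFun
  rw [e.length_eq, Module.length_pi, h0, ENat.card_eq_coe_fintype_card, Fintype.card_fin]
  push_cast
  rw [mul_comm]

end HHx
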