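import Pool.Agent.Lib.MP_181146_gt.HH.SpecH

/-!
# Project HH: `S_BPair`, the determinant identities over a discrete valuation ring
-/

set_option autoImplicit false

namespace HHx

open HEp HBx
open scoped TensorProduct

theorem sBPair (hBLen : S_BLen) (hBNil : S_BNil) : S_BPair := by
  intro A _ _ _ ϖ hϖ k r ρ P _ _ X Y ν hν hYX hρ α β hα hβα
  have hbij : Function.Bijective (β ∘ₗ α : Module.End A (Fin r → A)) :=
    (Module.End.isUnit_iff _).1 ((LinearMap.isUnit_iff_isUnit_det _).2 hβα)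
  have hinj : Function.Injective α := by
    intro x y hxy
    apply hbij.1
    change β (α x) = β (α y)
    rw [hxy]
  let e : (Fin r → A) ≃ₗ[A] P := LinearEquiv.ofBijective α ⟨hinj, hα⟩
  have he : ∀ x, e x = α x := fun _ => rfl
  -- the nilpotent endomorphism of `A ^ r`
  let N : Module.End A (Fin r → A) := e.symm.toLinearMap ∘ₗ ν ∘ₗ e.toLinearMap
  have hNpow : ∀ (n : ℕ) (x : Fin r → A), (N ^ n) x = e.symm ((ν ^ n) (e x)) := by
    intro n
    induction n with
    | zero =>
      intro x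
      rw [pow_zero, pow_zero, Module.End.one_apply, Module.End.one_apply, e.symm_apply_apply]
    | succ n ih =>
      intro x
      rw [pow_succ', pow_succ', Module.End.mul_apply, Module.End.mul_apply, ih]
      change e.symm (ν (e (e.symm _))) = _
      rw [e.apply_symm_apply]
  have hN : IsNilpotent N := by
    obtain ⟨n, hn⟩ := hν
    refine ⟨n, LinearMap.ext fun x => ?_⟩
    rw [hNpow, hn, LinearMap.zero_apply, map_zero, LinearMap.zero_apply]
  have hdN : LinearMap.det (ϖ ^ k • (1 : Module.End A (Fin r → A)) + N) = ϖ ^ (k * r) := by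
    rw [hBNil A (Fin r → A) (ϖ ^ k) N hN, Module.finrank_fin_fun, ← pow_mul]
  have h2 : LinearMap.det (X ∘ₗ α) * LinearMap.det (β ∘ₗ Y) =
      LinearMap.det (β ∘ₗ α) * ϖ ^ (k * r) := by
    rw [mul_comm, ← LinearMap.det_comp, ← hdN, ← LinearMap.det_comp]
    congr 1
    refine LinearMap.ext fun x => ?_
    change β (Y (X (α x))) = β (α (ϖ ^ k • x + e.symm (ν (e x))))
    rw [hYX, map_add α, map_smul α, ← he (e.symm _), e.apply_symm_apply, he]
  have hϖ0 : ϖ ≠ 0 := hϖ.ne_zero
  have hd : LinearMap.det (X ∘ₗ α) ≠ 0 := by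
    intro h0
    rw [h0, zero_mul] at h2
    exact mul_ne_zero hβα.ne_zero (pow_ne_zero _ hϖ0) h2.symm
  refine ⟨?_, h2, ?_⟩
  · obtain ⟨l, hl, hl2⟩ := hBLen A ϖ hϖ r (X ∘ₗ α) hd
    have hr : LinearMap.range (X ∘ₗ α) = LinearMap.range X :=
      LinearMap.range_comp_of_range_eq_top X (LinearMap.range_eq_top.2 hα)
    rw [hr, hρ] at hl
    have hl3 : ρ = l := by exact_mod_cast hl
    rw [hl3]
    exact hl2
  · intro α2
    have hg : α2 = α ∘ₗ (e.symm.toLinearMap ∘ₗ α2) := by
      refine LinearMap.ext fun x => ?_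
      change α2 x = e (e.symm (α2 x))
      rw [e.apply_symm_apply]
    have h3 : LinearMap.det (X ∘ₗ α2) =
        LinearMap.det (X ∘ₗ α) * LinearMap.det (e.symm.toLinearMap ∘ₗ α2) := by
      rw [← LinearMap.det_comp, LinearMap.comp_assoc, ← hg]
    have h4 : LinearMap.det (β ∘ₗ α2) =
        LinearMap.det (β ∘ₗ α) * LinearMap.det (e.symm.toLinearMap ∘ₗ α2) := by
      rw [← LinearMap.det_comp, LinearMap.comp_assoc, ← hg]
    rw [h3, h4]
    ring

end HHx
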