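import Pool.Agent.Lib.MP_181146_gt.HH.SpecH

/-!
# Project HH, module CCok: the cokernel of `XX D h'`
-/

set_option autoImplicit false

namespace HHx

open HEp HBx
open scoped TensorProduct

namespace CCok

variable {A : Type} [CommRing A] {V : ℕ → Type} [∀ i, AddCommGroup (V i)] [∀ i, Module A (V i)]

/-- The homotopy on cycles. -/
theorem cyc {a : A} {D : ∀ i, V (i + 1) →ₗ[A] V i} {h : ∀ i, V i →ₗ[A] V (i + 1)}
    (hc : Ctr a D h) : ∀ i, ∀ z ∈ Zc D i, D i (h i z) = a • z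
  | 0, z, _ => hc.c0 z
  | i + 1, z, hz => by
      have h1 := hc.c1 i z
      have h2 : D i z = 0 := hz
      rw [h2, map_zero, add_zero] at h1
      exact h1

/-- The first component. -/
noncomputable def f1 (D : ∀ i, V (i + 1) →ₗ[A] V i) (p : ∀ i, V i →ₗ[A] V i)
    (hp : ∀ i x, p i x ∈ Zc D i) (i : ℕ) : V i →ₗ[A] Hc D i :=
  Submodule.mkQ _ ∘ₗ LinearMap.codRestrict (Zc D i) (p i) (hp i)

/-- The second component. -/
noncomputable def f2 (D : ∀ i, V (i + 1) →ₗ[A] V i) (a : A) (i : ℕ) : V (i + 1) →ₗ[A] Gc D a i :=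
  Submodule.mkQ _ ∘ₗ (D i).rangeRestrict

theorem f1_zero (D : ∀ i, V (i + 1) →ₗ[A] V i) (p : ∀ i, V i →ₗ[A] V i)
    (hp : ∀ i x, p i x ∈ Zc D i) (i : ℕ) (x : V i) :
    f1 D p hp i x = 0 ↔ ∃ u, D i u = p i x := by
  change Submodule.Quotient.mk _ = (0 : Hc D i) ↔ _
  rw [Submodule.Quotient.mk_eq_zero]
  exact Iff.rfl

theorem f2_zero (D : ∀ i, V (i + 1) →ₗ[A] V i) (a : A) (i : ℕ) (x : V (i + 1)) :
    f2 D a i x = 0 ↔ ∃ z ∈ Zc D i, a • z = D i x := by
  change Submodule.Quotient.mk _ = (0 : Gc D a i) ↔ _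
  rw [Submodule.Quotient.mk_eq_zero]
  exact Iff.rfl

/-- The map to the product. -/
noncomputable def F (D : ∀ i, V (i + 1) →ₗ[A] V i) (a : A) (p : ∀ i, V i →ₗ[A] V i)
    (hp : ∀ i x, p i x ∈ Zc D i) (K : ℕ) :
    Od V →ₗ[A] (∀ j : Fin K, Hc D (2 * (j : ℕ) + 1) × Gc D a (2 * (j : ℕ))) :=
  LinearMap.pi fun j => ((f1 D p hp (2 * (j : ℕ) + 1)).prod (f2 D a (2 * (j : ℕ)))) ∘ₗ
    (LinearMap.proj (j : ℕ) : Od V →ₗ[A] V (2 * (j : ℕ) + 1))

theorem F_apply (D : ∀ i, V (i + 1) →ₗ[A] V i) (a : A) (p : ∀ i, V i →ₗ[A] V i)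
    (hp : ∀ i x, p i x ∈ Zc D i) (K : ℕ) (y : Od V) (j : Fin K) :
    F D a p hp K y j = (f1 D p hp (2 * (j : ℕ) + 1) (y j), f2 D a (2 * (j : ℕ)) (y j)) := rfl

end CCok

open CCok in
theorem sCCok : S_CCok := by
  classical
  intro A _ V _ _ K hK a D p h' hp hp' hc hh hph
  have hker : LinearMap.ker (F D a p hp K) = LinearMap.range (XX D h') := by
    apply le_antisymm
    · intro y hy
      have hy' : ∀ j : Fin K, f1 D p hp (2 * (j : ℕ) + 1) (y j) = 0 ∧
          f2 D a (2 * (j : ℕ)) (y j) = 0 := by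
        intro j
        have h1 := congrFun (show F D a p hp K y = 0 from hy) j
        rw [F_apply] at h1
        exact ⟨congrArg Prod.fst h1, congrArg Prod.snd h1⟩
      have hex : ∀ j : ℕ, ∃ (u : V (2 * j + 1 + 1)) (z : V (2 * j)),
          D (2 * j + 1) u = p (2 * j + 1) (y j) ∧ z ∈ Zc D (2 * j) ∧ a • z = D (2 * j) (y j) := by
        intro j
        by_cases hj : j < K
        · obtain ⟨h1, h2⟩ := hy' ⟨j, hj⟩
          obtain ⟨u, hu⟩ := (f1_zero D p hp _ _).1 h1
          obtain ⟨z, hz, hz'⟩ := (f2_zero D a _ _).1 h2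
          exact ⟨u, z, hu, hz, hz'⟩
        · have hs : Subsingleton (V (2 * j + 1)) := hK _ (by omega)
          have h0 : y j = 0 := Subsingleton.elim _ _
          exact ⟨0, 0, by rw [h0, map_zero, map_zero], Submodule.zero_mem _,
            by rw [h0, map_zero, smul_zero]⟩
      choose u z hu hz hz' using hex
      let x : Ev V := fun j => match j with
        | 0 => z 0
        | j + 1 => z (j + 1) + (u j - p (2 * j + 1 + 1) (u j))
      have hx0 : x 0 = z 0 := rfl
      have hx1 : ∀ j, x (j + 1) = z (j + 1) + (u j - p (2 * j + 1 + 1) (u j)) := fun j => rfl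
      refine ⟨x, ?_⟩
      funext j
      rw [XX_apply]
      have e1 : h' (2 * j) (x j) = h' (2 * j) (z j) := by
        cases j with
        | zero => rfl
        | succ j =>
            rw [hx1]
            have h3 : h' (2 * (j + 1)) (p (2 * (j + 1)) (u j)) = h' (2 * (j + 1)) (u j) := hh _ _
            have h4 : h' (2 * (j + 1)) (u j - p (2 * j + 1 + 1) (u j)) = 0 :=
              (map_sub (h' (2 * (j + 1))) (u j) (p (2 * (j + 1)) (u j))).trans
                (by rw [h3, sub_self])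
            rw [map_add, h4, add_zero]
      have e2 : D (2 * j + 1) (x (j + 1)) = p (2 * j + 1) (y j) := by
        have h3 : D (2 * j + 1) (z (j + 1)) = 0 := hz (j + 1)
        have h4 : D (2 * j + 1) (p (2 * j + 1 + 1) (u j)) = 0 := hp (2 * j + 1 + 1) (u j)
        have h5 : D (2 * j + 1) (x (j + 1)) = D (2 * j + 1) (z (j + 1)) +
            (D (2 * j + 1) (u j) - D (2 * j + 1) (p (2 * j + 1 + 1) (u j))) := by
          rw [← map_sub]
          exact map_add (D (2 * j + 1)) _ _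
        rw [h5, h3, h4, hu, zero_add, sub_zero]
      rw [e1, e2]
      -- `y j = p (y j) + h' (z j)`
      have hw : y j - p (2 * j + 1) (y j) - h' (2 * j) (z j) ∈ Zc D (2 * j + 1) := by
        change D (2 * j) _ = 0
        have h4 : D (2 * j) (p (2 * j + 1) (y j)) = 0 := hp (2 * j + 1) (y j)
        rw [map_sub, map_sub, h4, cyc hc _ _ (hz j), hz', sub_zero, sub_self]
      have h6 := hp' _ _ hw
      rw [map_sub, map_sub, hp' _ _ (hp _ _), sub_self, hph, sub_zero] at h6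
      have h7 : y j - p (2 * j + 1) (y j) = h' (2 * j) (z j) := sub_eq_zero.1 h6.symm
      rw [← h7, sub_add_cancel]
    · rintro _ ⟨x, rfl⟩
      change F D a p hp K (XX D h' x) = 0
      funext j
      rw [F_apply]
      refine Prod.ext ?_ ?_
      · refine (f1_zero D p hp _ _).2 ⟨x (j + 1), ?_⟩
        rw [XX_apply, map_add, hph, zero_add]
        exact (hp' _ _ (show D (2 * (j : ℕ)) (D (2 * (j : ℕ) + 1) (x (j + 1))) = 0 from
          hc.dd _ _)).symm
      · refine (f2_zero D a _ _).2 ⟨p _ (x j), hp _ _, ?_⟩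
        rw [XX_apply, map_add, hc.dd, add_zero, ← hh, cyc hc _ _ (hp _ _)]
  have hsurj : Function.Surjective (F D a p hp K) := by
    intro g
    have h1 : ∀ j : Fin K, ∃ y : V (2 * (j : ℕ) + 1),
        f1 D p hp (2 * (j : ℕ) + 1) y = (g j).1 ∧ f2 D a (2 * (j : ℕ)) y = (g j).2 := by
      intro j
      obtain ⟨⟨z, hz⟩, hz'⟩ := Submodule.mkQ_surjective _ (g j).1
      obtain ⟨⟨_, ⟨v, rfl⟩⟩, hv'⟩ := Submodule.mkQ_surjective _ (g j).2
      have hpz : p (2 * (j : ℕ) + 1) (z + (v - p _ v)) = z := by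
        rw [map_add, map_sub, hp' _ _ hz, hp' _ _ (hp _ _), sub_self, add_zero]
      have hDz : D (2 * (j : ℕ)) (z + (v - p _ v)) = D (2 * (j : ℕ)) v := by
        have h4 : D (2 * (j : ℕ)) (p _ v) = 0 := hp (2 * (j : ℕ) + 1) v
        have h5 : D (2 * (j : ℕ)) z = 0 := hz
        rw [map_add, map_sub, h4, h5, zero_add, sub_zero]
      refine ⟨z + (v - p _ v), ?_, ?_⟩
      · rw [← hz']
        exact congrArg (Submodule.mkQ _) (Subtype.ext hpz)
      · rw [← hv']
        exact congrArg (Submodule.mkQ _) (Subtype.ext hDz)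
    choose y hy using h1
    refine ⟨fun j => if hj : j < K then y ⟨j, hj⟩ else 0, ?_⟩
    funext j
    rw [F_apply]
    rw [dif_pos j.2]
    exact Prod.ext (hy j).1 (hy j).2
  exact ⟨(Submodule.quotEquivOfEq _ _ hker.symm).trans
    ((F D a p hp K).quotKerEquivOfSurjective hsurj)⟩

end HHx
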