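import Pool.Agent.Lib.MP_181146_gt.HH.SpecH

set_option autoImplicit false

/-!
# Project HH, module CFin: the length of the cokernel of `D + h`
-/

namespace HHx

open HEp HBx
open scoped TensorProduct

theorem sCFin (hCPj : S_CPj) (hCYX : S_CYX) (hCFn : S_CFn) (hCCok : S_CCok) (hCZR : S_CZR)
    (hBCmp : S_BCmp) : S_CFin := by
  intro A _ _ _ ϖ hϖ k V _ _ _ _ K hK D h hc hh zz hH hz0 hz
  obtain ⟨p, h', hp, hp', hc', hhp, hph, hh2⟩ := hCPj A V (ϖ ^ k) D h hc
  obtain ⟨nil1, -, h3⟩ := hCYX A V K hK (ϖ ^ k) D h h' hc hc'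
  obtain ⟨hYX, hXY⟩ := h3 hh2
  obtain ⟨-, -, hfin, -, hfree⟩ := hCFn A V K hK
  obtain ⟨fe, fo⟩ := hfin inferInstance
  obtain ⟨ge, go⟩ := hfree inferInstance
  have hcmp := hBCmp A ϖ hϖ k (Ev V) (Od V) (XX D h) (XX D h') (YY D h') nil1 hYX hXY
  obtain ⟨e⟩ := hCCok A V K hK (ϖ ^ k) D p h' hp hp' hc' hhp hph
  obtain ⟨r1, r2, r3⟩ := hCZR A ϖ hϖ k V D h hc
  -- the ranks
  have hzz : ∀ i, zz i = Module.finrank A (Zc D i) := by
    intro i
    induction i with
    | zero => rw [hz0, r2]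
    | succ i ih =>
      have e1 := hz i
      have e2 := r3 i
      omega
  -- the lengths of the second summands
  have hg : ∀ i, ∃ g : ℕ, Module.length A (Gc D (ϖ ^ k) i) = g ∧ hh i + g = k * zz i := by
    intro i
    have e1 := r1 i
    rw [hH i, ← hzz i] at e1
    have hne : Module.length A (Gc D (ϖ ^ k) i) ≠ ⊤ := by
      intro htop
      rw [htop, add_top] at e1
      exact ENat.natCast_ne_top _ e1.symm
    obtain ⟨g, hg⟩ := ENat.ne_top_iff_exists.1 hne
    refine ⟨g, hg.symm, ?_⟩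
    rw [← hg] at e1
    exact_mod_cast e1
  choose g hg1 hg2 using hg
  refine ⟨∑ j ∈ Finset.range K, (hh (2 * j + 1) + g (2 * j)), ?_, ?_⟩
  · rw [hcmp, e.length_eq, Module.length_pi_of_fintype]
    rw [← Fin.sum_univ_eq_sum_range (fun j => hh (2 * j + 1) + g (2 * j)) K]
    rw [Nat.cast_sum]
    refine Finset.sum_congr rfl fun j _ => ?_
    rw [Module.length_prod, hH, hg1, Nat.cast_add]
  · rw [Finset.sum_add_distrib, Finset.mul_sum, add_assoc, ← Finset.sum_add_distrib]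
    congr 1
    refine Finset.sum_congr rfl fun j _ => ?_
    rw [← hg2 (2 * j), add_comm]

end HHx
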