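import Pool.Agent.Lib.MP_181146_gt.HH.SpecH

/-!
# Project HH, module CFn: the even and the odd part as finite products
-/

set_option autoImplicit false

namespace HHx

open HEp HBx
open scoped TensorProduct

namespace CFn

/-- Extension by zero. -/
private def ext {W : ℕ → Type} [∀ i, AddCommGroup (W i)] (K : ℕ) (y : ∀ j : Fin K, W j) (j : ℕ) :
    W j := if h : j < K then y ⟨j, h⟩ else 0

/-- The product over `ℕ` is the product over `Fin K`. -/
private theorem eqv (A : Type) [CommRing A] (W : ℕ → Type) [∀ i, AddCommGroup (W i)]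
    [∀ i, Module A (W i)] (K : ℕ) (hK : ∀ j, K ≤ j → Subsingleton (W j)) :
    ∃ e : (∀ j, W j) ≃ₗ[A] (∀ j : Fin K, W j), ∀ x j, e x j = x j := by
  refine ⟨{ toFun := fun x j => x j
            map_add' := fun x y => rfl
            map_smul' := fun a x => rfl
            invFun := fun y => ext K y
            left_inv := ?_
            right_inv := ?_ }, fun x j => rfl⟩
  · intro x
    funext j
    by_cases h : j < K
    · exact dif_pos h
    · exact @Subsingleton.elim _ (hK j (by omega)) _ _
  · intro y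
    funext j
    exact dif_pos j.2

private theorem prj (A : Type) [CommRing A] (W : ℕ → Type) [∀ i, AddCommGroup (W i)]
    [∀ i, Module A (W i)] (K : ℕ) (hK : ∀ j, K ≤ j → Subsingleton (W j)) :
    ((∀ i, Module.Finite A (W i)) → Module.Finite A (∀ j, W j)) ∧
    ((∀ i, Module.Projective A (W i)) → Module.Projective A (∀ j, W j)) ∧
    ((∀ i, Module.Free A (W i)) → Module.Free A (∀ j, W j)) := by
  obtain ⟨e, -⟩ := eqv A W K hK
  refine ⟨fun h => ?_, fun h => ?_, fun h => ?_⟩
  · exact Module.Finite.equiv e.symm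
  · have h1 : Module.Projective A (∀ j : Fin K, W j) := inferInstance
    exact Module.Projective.of_equiv e.symm
  · exact Module.Free.of_equiv e.symm

end CFn

theorem sCFn : S_CFn := by
  intro A _ V _ _ K hK
  have h0 : ∀ j, K ≤ j → Subsingleton (V (2 * j)) := fun j hj => hK _ (by omega)
  have h1 : ∀ j, K ≤ j → Subsingleton (V (2 * j + 1)) := fun j hj => hK _ (by omega)
  obtain ⟨a1, a2, a3⟩ := CFn.prj A (fun j => V (2 * j)) K h0
  obtain ⟨b1, b2, b3⟩ := CFn.prj A (fun j => V (2 * j + 1)) K h1
  exact ⟨CFn.eqv A (fun j => V (2 * j)) K h0, CFn.eqv A (fun j => V (2 * j + 1)) K h1,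
    fun h => ⟨a1 fun i => h _, b1 fun i => h _⟩, fun h => ⟨a2 fun i => h _, b2 fun i => h _⟩,
    fun h => ⟨a3 fun i => h _, b3 fun i => h _⟩⟩

end HHx
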