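import Pool.Agent.Lib.MP_181146_gt.HH.SpecH

/-!
# Project HH: `S_CPj`, projections onto the cycles and the homotopy with square zero
-/

set_option autoImplicit false

namespace HHx

open HEp HBx
open scoped TensorProduct

theorem sCPj (hCSpl : S_CSpl) : S_CPj := by
  intro A _ _ _ V _ _ _ _ a D h hc
  have hex : ∀ i, ∃ p : V (i + 1) →ₗ[A] V (i + 1), (∀ x, D i (p x) = 0) ∧ ∀ x, D i x = 0 → p x = x :=
    fun i => hCSpl A (V (i + 1)) (V i) (D i)
  choose q hq1 hq2 using hex
  let p : ∀ i, V i →ₗ[A] V i := fun i => match i with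
    | 0 => LinearMap.id
    | i + 1 => q i
  have p0 : ∀ x : V 0, p 0 x = x := fun _ => rfl
  have ps : ∀ i (x : V (i + 1)), p (i + 1) x = q i x := fun _ _ => rfl
  have hDp : ∀ i (x : V (i + 1)), D i (p (i + 1) x) = 0 := fun i x => hq1 i x
  have hpD : ∀ i (x : V (i + 1)), p i (D i x) = D i x := by
    intro i x
    cases i with
    | zero => rfl
    | succ i => exact hq2 i _ (hc.dd i x)
  have hpp : ∀ i (x : V i), p i (p i x) = p i x := by
    intro i x
    cases i with
    | zero => rfl
    | succ i => exact hq2 i _ (hq1 i x)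
  refine ⟨p, fun i => (LinearMap.id - p (i + 1)) ∘ₗ h i ∘ₗ p i, ?_, ?_, ⟨hc.dd, ?_, ?_⟩, ?_, ?_, ?_⟩
  · intro i x
    cases i with
    | zero => exact Submodule.mem_top
    | succ i => exact LinearMap.mem_ker.2 (hq1 i x)
  · intro i x hx
    cases i with
    | zero => rfl
    | succ i => exact hq2 i x (LinearMap.mem_ker.1 hx)
  · intro x
    change D 0 (h 0 (p 0 x) - p 1 (h 0 (p 0 x))) = a • x
    rw [map_sub, hDp, sub_zero, p0, hc.c0]
  · intro i x
    change D (i + 1) (h (i + 1) (p (i + 1) x) - p (i + 2) (h (i + 1) (p (i + 1) x))) +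
      (h i (p i (D i x)) - p (i + 1) (h i (p i (D i x)))) = a • x
    rw [map_sub, hDp, sub_zero, hpD]
    have e1 := hc.c1 i (p (i + 1) x)
    rw [hDp, map_zero, add_zero] at e1
    have e2 : h i (D i x) = a • x - D (i + 1) (h (i + 1) x) := by
      rw [← hc.c1 i x]
      abel
    rw [e1, e2, map_sub, hpD (i + 1) (h (i + 1) x), map_smul]
    abel
  · intro i x
    change h i (p i (p i x)) - p (i + 1) (h i (p i (p i x))) = h i (p i x) - p (i + 1) (h i (p i x))
    rw [hpp]
  · intro i x
    change p (i + 1) (h i (p i x) - p (i + 1) (h i (p i x))) = 0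
    rw [map_sub, hpp (i + 1) (h i (p i x)), sub_self]
  · intro i x
    change h (i + 1) (p (i + 1) (h i (p i x) - p (i + 1) (h i (p i x)))) -
      p (i + 2) (h (i + 1) (p (i + 1) (h i (p i x) - p (i + 1) (h i (p i x))))) = 0
    rw [map_sub, hpp (i + 1) (h i (p i x)), sub_self, map_zero, map_zero, sub_self]

end HHx
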