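import Pool.Agent.Lib.MP_181146_gt.HH.SpecH

/-!
# Project HH: `S_CSpl`, the kernel is a direct summand
-/

set_option autoImplicit false

namespace HHx

open HEp HBx
open scoped TensorProduct

theorem sCSpl : S_CSpl := by
  intro A _ _ _ V W _ _ _ _ _ _ D
  obtain ⟨σ, hσ⟩ := Module.projective_lifting_property D.rangeRestrict
    (LinearMap.id : LinearMap.range D →ₗ[A] LinearMap.range D) D.surjective_rangeRestrict
  have h1 : ∀ y : LinearMap.range D, D (σ y) = y := fun y => by
    have h2 := congrArg Subtype.val (LinearMap.congr_fun hσ y)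
    exact h2
  refine ⟨LinearMap.id - σ ∘ₗ D.rangeRestrict, fun x => ?_, fun x hx => ?_⟩
  · rw [LinearMap.sub_apply, map_sub, LinearMap.id_apply, LinearMap.comp_apply, h1]
    exact sub_self _
  · have h3 : D.rangeRestrict x = 0 := Subtype.ext hx
    rw [LinearMap.sub_apply, LinearMap.comp_apply, h3, map_zero, sub_zero, LinearMap.id_apply]

end HHx
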