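import Pool.Agent.Lib.MP_181146_gt.HH.SpecH

/-!
# Project HH, module CZR: ranks and lengths of cycles
-/

set_option autoImplicit false

namespace HHx

open HEp HBx
open scoped TensorProduct

section

variable {A : Type} [CommRing A]

/-- The length of `Z / a Z`, for `a Z ≤ B ≤ Z`. -/
private lemma CZR_len {W : Type} [AddCommGroup W] [Module A W] (Z B : Submodule A W) (a : A)
    (hBZ : B ≤ Z) (haZ : ∀ z ∈ Z, a • z ∈ B) :
    Module.length A (Z ⧸ B.comap Z.subtype) +
      Module.length A (B ⧸ (Z.map (a • (LinearMap.id : W →ₗ[A] W))).comap B.subtype) =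
    Module.length A (Z ⧸ LinearMap.range (a • (LinearMap.id : Z →ₗ[A] Z))) := by
  -- the two maps
  have h1 : (Z.map (a • (LinearMap.id : W →ₗ[A] W))).comap B.subtype ≤
      (LinearMap.range (a • (LinearMap.id : Z →ₗ[A] Z))).comap (Submodule.inclusion hBZ) := by
    rintro ⟨b, hb⟩ ⟨z, hz, hzb⟩
    exact ⟨⟨z, hz⟩, Subtype.ext hzb⟩
  have h2 : LinearMap.range (a • (LinearMap.id : Z →ₗ[A] Z)) ≤
      (B.comap Z.subtype).comap (LinearMap.id : Z →ₗ[A] Z) := by
    rintro _ ⟨z, rfl⟩
    exact haZ z.1 z.2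
  set f := Submodule.mapQ _ _ (Submodule.inclusion hBZ) h1 with hf
  set g := Submodule.mapQ _ _ (LinearMap.id : Z →ₗ[A] Z) h2 with hg
  have hfi : Function.Injective f := by
    rw [← LinearMap.ker_eq_bot, LinearMap.ker_eq_bot']
    intro x hx
    obtain ⟨b, rfl⟩ := Submodule.Quotient.mk_surjective _ x
    rw [hf, Submodule.mapQ_apply, Submodule.Quotient.mk_eq_zero] at hx
    rw [Submodule.Quotient.mk_eq_zero]
    obtain ⟨z, hz⟩ := hx
    exact ⟨z.1, z.2, congrArg Subtype.val hz⟩
  have hgs : Function.Surjective g := by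
    intro x
    obtain ⟨z, rfl⟩ := Submodule.Quotient.mk_surjective _ x
    exact ⟨Submodule.Quotient.mk z, rfl⟩
  have hex : Function.Exact f g := by
    intro y
    obtain ⟨z, rfl⟩ := Submodule.Quotient.mk_surjective _ y
    rw [hg, Submodule.mapQ_apply, Submodule.Quotient.mk_eq_zero]
    constructor
    · intro hz
      exact ⟨Submodule.Quotient.mk ⟨z.1, hz⟩, rfl⟩
    · rintro ⟨x, hx⟩
      obtain ⟨b, rfl⟩ := Submodule.Quotient.mk_surjective _ x
      rw [hf, Submodule.mapQ_apply, Submodule.Quotient.eq] at hx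
      obtain ⟨w, hw⟩ := hx
      have h3 : (b : W) - (z : W) = a • (w : W) := (congrArg Subtype.val hw).symm
      have h4 : (z : W) = b - a • (w : W) := by rw [← h3, sub_sub_cancel]
      change (z : W) ∈ B
      rw [h4]
      exact B.sub_mem b.2 (haZ w.1 w.2)
  rw [Module.length_eq_add_of_exact f g hfi hgs hex, add_comm]

end

theorem sCZR (hBOrd : S_BOrd) : S_CZR := by
  intro A _ _ _ ϖ hϖ k V _ _ _ _ D h hc
  have ha : ϖ ^ k ≠ 0 := pow_ne_zero k hϖ.ne_zero
  have hBZ : ∀ i, LinearMap.range (D i) ≤ Zc D i := by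
    intro i
    cases i with
    | zero => exact le_top
    | succ i =>
      rintro _ ⟨x, rfl⟩
      exact hc.dd i x
  have haZ : ∀ i, ∀ z ∈ Zc D i, ϖ ^ k • z ∈ LinearMap.range (D i) := by
    intro i
    cases i with
    | zero =>
      intro z _
      exact ⟨h 0 z, hc.c0 z⟩
    | succ i =>
      intro z hz
      have h1 := hc.c1 i z
      have h2 : D i z = 0 := hz
      rw [h2, map_zero, add_zero] at h1
      exact ⟨h (i + 1) z, h1⟩
  have hrk : ∀ i, Module.finrank A (LinearMap.range (D i)) = Module.finrank A (Zc D i) := by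
    intro i
    apply le_antisymm
    · exact Submodule.finrank_mono (hBZ i)
    · have hφ : ∀ z : Zc D i, (ϖ ^ k • (Zc D i).subtype) z ∈ LinearMap.range (D i) :=
        fun z => haZ i z.1 z.2
      refine LinearMap.finrank_le_finrank_of_injective
        (f := LinearMap.codRestrict _ (ϖ ^ k • (Zc D i).subtype) hφ) ?_
      intro z z' hzz
      have h1 : ϖ ^ k • (z : V i) = ϖ ^ k • (z' : V i) := congrArg Subtype.val hzz
      have h2 : ϖ ^ k • ((z : V i) - z') = 0 := by rw [smul_sub, h1, sub_self]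
      have h3 := (smul_eq_zero.1 h2).resolve_left ha
      exact Subtype.ext (sub_eq_zero.1 h3)
  refine ⟨?_, ?_, ?_⟩
  · intro i
    rw [CZR_len (Zc D i) (LinearMap.range (D i)) (ϖ ^ k) (hBZ i) (haZ i)]
    exact (hBOrd A ϖ hϖ k).2 (Zc D i)
  · exact finrank_top A (V 0)
  · intro i
    have h1 := Submodule.finrank_quotient_add_finrank (LinearMap.ker (D i))
    rw [(LinearMap.quotKerEquivRange (D i)).finrank_eq, hrk i, add_comm] at h1
    exact h1

end HHx
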