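import Pool.Agent.Lib.MP_181146_gt.HH.SpecH

/-!
# Module HH/DGh: from homology to chains
-/

set_option autoImplicit false

namespace HHx

open HEp HBx
open scoped TensorProduct

/-- Lifting a map with values in the range. -/
private theorem DGh_lift {S : Type} [CommRing S] {P M N : Type} [AddCommGroup P] [Module S P]
    [AddCommGroup M] [Module S M] [AddCommGroup N] [Module S N] [Module.Projective S P]
    (d : M →ₗ[S] N) (g : P →ₗ[S] N) (hg : ∀ x, ∃ y, d y = g x) :
    ∃ h : P →ₗ[S] M, ∀ x, d (h x) = g x := by
  have hr : ∀ x, g x ∈ LinearMap.range d := fun x => hg x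
  obtain ⟨h, hh⟩ := Module.projective_lifting_property d.rangeRestrict
    (g.codRestrict (LinearMap.range d) hr) d.surjective_rangeRestrict
  refine ⟨h, fun x => ?_⟩
  have h1 := LinearMap.congr_fun hh x
  have h2 := congrArg Subtype.val h1
  exact h2

theorem sDGh : S_DGh := by
  intro S _ U _ _ _ K hK a D dd ha
  have key : ∀ n : ℕ, ∃ h : ∀ i, U i →ₗ[S] U (i + 1),
      (0 < n → ∀ x : U 0, D 0 (h 0 x) = a ^ n • x) ∧
      ∀ j, j + 1 < n → ∀ x : U (j + 1), D (j + 1) (h (j + 1) x) + h j (D j x) = a ^ n • x := by
    intro n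
    induction n with
    | zero => exact ⟨fun _ => 0, fun h => absurd h (lt_irrefl 0), fun j h => absurd h (Nat.not_lt_zero _)⟩
    | succ n ih =>
      obtain ⟨h, h0, h1⟩ := ih
      rcases Nat.eq_zero_or_pos n with rfl | hn
      · obtain ⟨g, hg⟩ := DGh_lift (D 0) (a • LinearMap.id) (fun x => by
          obtain ⟨y, hy⟩ := ha 0 x trivial
          exact ⟨y, by rw [hy]; rfl⟩)
        refine ⟨Function.update h 0 g, fun _ x => ?_, fun j hj => absurd hj (by omega)⟩
        rw [Function.update_self, hg, zero_add, pow_one]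
        rfl
      · obtain ⟨m, rfl⟩ : ∃ m, n = m + 1 := ⟨n - 1, by omega⟩
        have hDh : ∀ y : U (m + 1), D m (h m (D m y)) = a ^ (m + 1) • D m y := by
          intro y
          rcases Nat.eq_zero_or_pos m with rfl | hm
          · exact h0 hn _
          · obtain ⟨l, rfl⟩ : ∃ l, m = l + 1 := ⟨m - 1, by omega⟩
            have h2 := h1 l (by omega) (D (l + 1) y)
            rw [dd, map_zero, add_zero] at h2
            exact h2
        have hz : ∀ x : U (m + 1),
            (a ^ (m + 1) • LinearMap.id - h m ∘ₗ D m : U (m + 1) →ₗ[S] U (m + 1)) x ∈ Zc D (m + 1) := by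
          intro x
          change D m (a ^ (m + 1) • x - h m (D m x)) = 0
          rw [map_sub, map_smul, hDh, sub_self]
        obtain ⟨g, hg⟩ := DGh_lift (D (m + 1))
          (a • (a ^ (m + 1) • LinearMap.id - h m ∘ₗ D m : U (m + 1) →ₗ[S] U (m + 1))) (fun x => by
            obtain ⟨y, hy⟩ := ha (m + 1) _ (hz x)
            exact ⟨y, by rw [hy]; rfl⟩)
        refine ⟨Function.update (fun j => a • h j) (m + 1) g, fun _ x => ?_, fun j hj x => ?_⟩
        · rw [Function.update_of_ne (by omega)]
          change D 0 (a • h 0 x) = _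
          rw [map_smul, h0 hn, smul_smul, ← pow_succ']
        · rw [Function.update_of_ne (show j ≠ m + 1 by omega)]
          change D (j + 1) _ + a • h j (D j x) = _
          rcases Nat.lt_or_ge (j + 1) (m + 1) with hj1 | hj1
          · rw [Function.update_of_ne (show j + 1 ≠ m + 1 by omega)]
            change D (j + 1) (a • h (j + 1) x) + _ = _
            rw [map_smul, ← smul_add, h1 j hj1, smul_smul, ← pow_succ']
          · obtain rfl : j = m := by omega
            rw [Function.update_self, hg]
            change a • (a ^ (j + 1) • x - h j (D j x)) + _ = _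
            rw [smul_sub, sub_add_cancel, smul_smul, ← pow_succ']
  obtain ⟨h, h0, h1⟩ := key (2 * K)
  refine ⟨h, dd, fun x => ?_, fun i x => ?_⟩
  · rcases Nat.eq_zero_or_pos (2 * K) with h2 | h2
    · have := hK 0 (by omega)
      exact Subsingleton.elim _ _
    · exact h0 h2 x
  · rcases Nat.lt_or_ge (i + 1) (2 * K) with h2 | h2
    · exact h1 i h2 x
    · have := hK (i + 1) h2
      exact Subsingleton.elim _ _

end HHx
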