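import Pool.Agent.Lib.MP_181146_gt.HH.SpecH

/-!
# Project HH, module EBas: maps `B^r → P` which are isomorphisms up to an integer `n ≡ 1` modulo `m`
-/

set_option autoImplicit false
set_option linter.unusedVariables false

namespace HHx

open HEp HBx
open scoped TensorProduct

/-- Projective modules over a torsion free ring are torsion free. -/
private theorem EBas_tf {B : Type} [CommRing B]
    (tf : ∀ (n : ℤ) (x : B), n ≠ 0 → n • x = 0 → x = 0) {P : Type} [AddCommGroup P] [Module B P]
    [Module.Projective B P] (n : ℤ) (x : P) (hn : n ≠ 0) (hx : n • x = 0) : x = 0 := by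
  obtain ⟨s, hs⟩ := Module.projective_def'.1 (inferInstance : Module.Projective B P)
  have h1 : s x = 0 := by
    ext i
    have h2 : s (n • x) = 0 := by rw [hx, map_zero]
    rw [map_zsmul] at h2
    have h3 := DFunLike.congr_fun h2 i
    exact tf n _ hn h3
  have h4 := LinearMap.congr_fun hs x
  rw [LinearMap.comp_apply, h1, map_zero, LinearMap.id_apply] at h4
  exact h4.symm

private theorem EBas_fin (B : Type) [CommRing B] [Module.Finite ℤ B] (m : ℤ) (hm : 2 ≤ m) :
    Finite (B ⧸ Ideal.span {(m : B)}) := by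
  have h1 : Module.Finite ℤ (B ⧸ Ideal.span {(m : B)}) :=
    Module.Finite.of_surjective
      ((Ideal.Quotient.mk (Ideal.span {(m : B)})).toAddMonoidHom.toIntLinearMap)
      Ideal.Quotient.mk_surjective
  refine Module.finite_of_fg_torsion _ ?_
  intro x
  refine ⟨⟨m, mem_nonZeroDivisors_of_ne_zero (by omega)⟩, ?_⟩
  obtain ⟨y, rfl⟩ := Ideal.Quotient.mk_surjective x
  change m • Ideal.Quotient.mk (Ideal.span {(m : B)}) y = 0
  rw [← map_zsmul, Ideal.Quotient.eq_zero_iff_mem, ← Int.cast_smul_eq_zsmul B m y, smul_eq_mul]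
  exact Ideal.mul_mem_right _ _ (Ideal.mem_span_singleton_self _)

private theorem EBas_basis (B : Type) [CommRing B] [Module.Finite ℤ B] (P : Type) [AddCommGroup P]
    [Module B P] [Module.Finite B P] [Module.Projective B P] (r : ℕ)
    (hr : ∀ p : PrimeSpectrum B, Module.rankAtStalk (R := B) P p = r) (m : ℤ) (hm : 2 ≤ m) :
    Nonempty (Module.Basis (Fin r) (B ⧸ Ideal.span {(m : B)})
      ((B ⧸ Ideal.span {(m : B)}) ⊗[B] P)) := by
  have hfin := EBas_fin B m hm
  have hms : Finite (MaximalSpectrum (B ⧸ Ideal.span {(m : B)})) := inferInstance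
  refine Module.nonempty_basis_of_flat_of_finrank_eq _ _ r fun Q => ?_
  letI := Ideal.Quotient.field Q.1
  have hp : Nonempty (PrimeSpectrum ((B ⧸ Ideal.span {(m : B)}) ⧸ Q.1)) := inferInstance
  obtain ⟨p⟩ := hp
  have h1 := Module.rankAtStalk_baseChange (R := B ⧸ Ideal.span {(m : B)})
    (M := (B ⧸ Ideal.span {(m : B)}) ⊗[B] P) (S := (B ⧸ Ideal.span {(m : B)}) ⧸ Q.1) p
  have h1' := (h1.trans (Module.rankAtStalk_baseChange (R := B) (M := P)
    (S := B ⧸ Ideal.span {(m : B)}) _)).trans (hr _)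
  have h2 : Module.Free ((B ⧸ Ideal.span {(m : B)}) ⧸ Q.1)
      (((B ⧸ Ideal.span {(m : B)}) ⧸ Q.1) ⊗[B ⧸ Ideal.span {(m : B)}]
        ((B ⧸ Ideal.span {(m : B)}) ⊗[B] P)) := Module.Free.of_divisionRing _ _
  have h3 := congrFun (Module.rankAtStalk_eq_finrank_of_free
    (R := (B ⧸ Ideal.span {(m : B)}) ⧸ Q.1)
    (M := ((B ⧸ Ideal.span {(m : B)}) ⧸ Q.1) ⊗[B ⧸ Ideal.span {(m : B)}]
        ((B ⧸ Ideal.span {(m : B)}) ⊗[B] P))) p
  rw [h1'] at h3
  exact_mod_cast h3.symm

/-- Multiples of `m`. -/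
private theorem EBas_mem {B : Type} [CommRing B] {P : Type} [AddCommGroup P] [Module B P] (m : ℤ)
    (x : P) : x ∈ (Ideal.span {(m : B)}) • (⊤ : Submodule B P) ↔ ∃ y, x = m • y := by
  rw [Submodule.ideal_span_singleton_smul, Submodule.mem_smul_pointwise_iff_exists]
  constructor
  · rintro ⟨y, -, hy⟩
    exact ⟨y, by rw [← hy, Int.cast_smul_eq_zsmul]⟩
  · rintro ⟨y, rfl⟩
    exact ⟨y, Submodule.mem_top, Int.cast_smul_eq_zsmul B m y⟩

private theorem EBas_lift (B : Type) [CommRing B] [Module.Finite ℤ B] (P : Type) [AddCommGroup P]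
    [Module B P] [Module.Finite B P] [Module.Projective B P] (r : ℕ)
    (hr : ∀ p : PrimeSpectrum B, Module.rankAtStalk (R := B) P p = r) (m : ℤ) (hm : 2 ≤ m) :
    ∃ α : (Fin r → B) →ₗ[B] P, (∀ x : P, ∃ (y : Fin r → B) (z : P), x = α y + m • z) ∧
      ∀ (y : Fin r → B) (z : P), α y = m • z → ∃ w : Fin r → B, y = m • w := by
  obtain ⟨b⟩ := EBas_basis B P r hr m hm
  have hker := LinearMap.ker_tensorProductMk (Q := P) (I := Ideal.span {(m : B)})
  have hsur : Function.Surjective (TensorProduct.mk B (B ⧸ Ideal.span {(m : B)}) P 1) :=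
    TensorProduct.mk_surjective _ _ _ Ideal.Quotient.mk_surjective
  have hmk : ∀ x : P, TensorProduct.mk B (B ⧸ Ideal.span {(m : B)}) P 1 x = 0 ↔
      ∃ y, x = m • y := by
    intro x
    rw [← EBas_mem (B := B), ← hker]
    exact Iff.rfl
  choose e he using fun i => hsur (b i)
  have hα : ∀ y : Fin r → B, TensorProduct.mk B (B ⧸ Ideal.span {(m : B)}) P 1
      (Fintype.linearCombination B e y) =
      ∑ i, (Ideal.Quotient.mk (Ideal.span {(m : B)}) (y i)) • b i := by
    intro y
    rw [Fintype.linearCombination_apply, map_sum]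
    refine Finset.sum_congr rfl fun i _ => ?_
    rw [map_smul, he]
    exact (algebraMap_smul (B ⧸ Ideal.span {(m : B)}) (y i) (b i)).symm
  refine ⟨Fintype.linearCombination B e, fun x => ?_, fun y z hyz => ?_⟩
  · choose y hy using fun i => Ideal.Quotient.mk_surjective
      (b.repr (TensorProduct.mk B (B ⧸ Ideal.span {(m : B)}) P 1 x) i)
    have h1 : TensorProduct.mk B (B ⧸ Ideal.span {(m : B)}) P 1
        (x - Fintype.linearCombination B e y) = 0 := by
      rw [map_sub, hα, sub_eq_zero]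
      simp only [hy]
      exact (b.sum_repr _).symm
    obtain ⟨z, hz⟩ := (hmk _).1 h1
    exact ⟨y, z, by rw [← hz, add_sub_cancel]⟩
  · have h1 := (hmk _).2 ⟨z, hyz⟩
    rw [hα] at h1
    have h2 := Fintype.linearIndependent_iff.1 b.linearIndependent _ h1
    have h3 : ∀ i, ∃ w : B, y i = m • w := by
      intro i
      have h4 := Ideal.Quotient.eq_zero_iff_mem.1 (h2 i)
      obtain ⟨w, hw⟩ := Ideal.mem_span_singleton'.1 h4
      exact ⟨w, by rw [← hw, ← Int.cast_smul_eq_zsmul B m w, smul_eq_mul, mul_comm]⟩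
    choose w hw using h3
    exact ⟨w, funext hw⟩

theorem sEBas : S_EBas := by
  intro B _ _ tf P _ _ _ _ r hr m hm
  refine ⟨fun n x hn hx => EBas_tf tf n x hn hx, ?_⟩
  obtain ⟨α, h1, h2⟩ := EBas_lift B P r hr m hm
  have hfP : Module.Finite ℤ P := Module.Finite.trans B P
  have hmem : ∀ (M : Type) [AddCommGroup M] (N : Submodule ℤ M) (x y : M), y ∈ N → x = m • y →
      x ∈ Ideal.span {m} • N := by
    intro M _ N x y hy hx
    rw [hx]
    exact Submodule.smul_mem_smul (Ideal.mem_span_singleton_self m) hy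
  -- injectivity
  have hinj : Function.Injective α := by
    rw [injective_iff_map_eq_zero]
    intro y hy
    obtain ⟨n', hn', hn''⟩ := Submodule.exists_sub_one_mem_and_smul_eq_zero_of_fg_of_le_smul
      (Ideal.span {m}) ((LinearMap.ker α).restrictScalars ℤ) (IsNoetherian.noetherian _) (by
        intro x hx
        have hx' : α x = 0 := hx
        obtain ⟨w, hw⟩ := h2 x 0 (by rw [hx', smul_zero])
        refine hmem _ _ _ w ?_ hw
        change α w = 0
        refine EBas_tf tf m _ (by omega) ?_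
        rw [← map_zsmul, ← hw, hx'])
    have hne : n' ≠ 0 := by
      rintro rfl
      rw [zero_sub, Ideal.mem_span_singleton, dvd_neg] at hn'
      have := Int.le_of_dvd one_pos hn'
      omega
    funext i
    exact tf n' _ hne (congrFun (hn'' y hy) i)
  -- surjectivity up to `n`
  obtain ⟨n, hn, hn'⟩ := Submodule.exists_sub_one_mem_and_smul_eq_zero_of_fg_of_le_smul
    (Ideal.span {m}) (⊤ : Submodule ℤ (P ⧸ (LinearMap.range α).restrictScalars ℤ))
    (IsNoetherian.noetherian _) (by
      intro x _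
      obtain ⟨x, rfl⟩ := Submodule.Quotient.mk_surjective _ x
      obtain ⟨y, z, hyz⟩ := h1 x
      refine hmem _ _ _ (Submodule.Quotient.mk z) Submodule.mem_top ?_
      rw [← Submodule.Quotient.mk_smul, Submodule.Quotient.eq]
      change x - m • z ∈ LinearMap.range α
      rw [hyz, add_sub_cancel_right]
      exact LinearMap.mem_range_self _ _)
  have hn0 : n ≠ 0 := by
    rintro rfl
    rw [zero_sub, Ideal.mem_span_singleton, dvd_neg] at hn
    have := Int.le_of_dvd one_pos hn
    omega
  have hnx : ∀ x : P, n • x ∈ LinearMap.range α := by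
    intro x
    have h3 := hn' (Submodule.Quotient.mk x) Submodule.mem_top
    rw [← Submodule.Quotient.mk_smul, Submodule.Quotient.mk_eq_zero] at h3
    exact h3
  let β : P →ₗ[B] (Fin r → B) := (LinearEquiv.ofInjective α hinj).symm.toLinearMap ∘ₗ
    LinearMap.codRestrict (LinearMap.range α) (n • (LinearMap.id : P →ₗ[B] P)) (fun x => hnx x)
  have hαβ : ∀ x, α (β x) = n • x := by
    intro x
    have h3 := congrArg Subtype.val ((LinearEquiv.ofInjective α hinj).apply_symm_apply
      (LinearMap.codRestrict (LinearMap.range α) (n • (LinearMap.id : P →ₗ[B] P))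
        (fun x => hnx x) x))
    exact h3
  refine ⟨n, α, β, hn0, Ideal.mem_span_singleton.1 hn, fun x => ?_, hαβ⟩
  apply hinj
  rw [hαβ, map_zsmul]

end HHx
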