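import Pool.Agent.Lib.MP_181146_gt.HH.SpecH

set_option autoImplicit false

/-!
# Theorem H, module ECore: the core
-/

namespace HHx

open HEp HBx
open scoped TensorProduct

/-- The determinant of the reduction. -/
private theorem EC_det {S B : Type} [CommRing S] [CommRing B] (s : S) (φ : S →+* B) (r : ℕ)
    (b : Rd φ s (Fin r → S) (Fin r → B)) (hb : ∀ u i, b.c u i = φ (u i))
    (f : (Fin r → S) →ₗ[S] (Fin r → S)) (F : (Fin r → B) →ₗ[B] (Fin r → B))
    (h : ∀ u, F (b.c u) = b.c (f u)) : φ (LinearMap.det f) = LinearMap.det F := by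
  have h1 : LinearMap.toMatrix' F = φ.mapMatrix (LinearMap.toMatrix' f) := by
    ext i j
    rw [RingHom.mapMatrix_apply, Matrix.map_apply, LinearMap.toMatrix'_apply,
      LinearMap.toMatrix'_apply]
    have h2 : b.c (Pi.single j (1 : S)) = Pi.single j (1 : B) := by
      funext l
      rw [hb]
      rcases eq_or_ne l j with rfl | hl
      · rw [Pi.single_eq_same, Pi.single_eq_same, map_one]
      · rw [Pi.single_eq_of_ne hl, Pi.single_eq_of_ne hl, map_zero]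
    rw [← h2, h, hb]
  rw [← LinearMap.det_toMatrix', ← LinearMap.det_toMatrix', h1, RingHom.map_det]

/-- The determinant of the multiplication by an integer. -/
private theorem EC_int {B : Type} [CommRing B] (r : ℕ) (n : ℤ)
    (F : (Fin r → B) →ₗ[B] (Fin r → B)) (h : ∀ x, F x = n • x) :
    LinearMap.det F = (n : B) ^ r := by
  have h1 : LinearMap.toMatrix' F = (n : B) • (1 : Matrix (Fin r) (Fin r) B) := by
    ext i j
    rw [LinearMap.toMatrix'_apply, h, Pi.smul_apply, Matrix.smul_apply, zsmul_eq_mul,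
      smul_eq_mul, Matrix.one_apply]
    rcases eq_or_ne i j with rfl | hl
    · rw [Pi.single_eq_same, if_pos rfl]
    · rw [Pi.single_eq_of_ne hl, if_neg hl]
  rw [← LinearMap.det_toMatrix', h1, Matrix.det_smul, Matrix.det_one, mul_one, Fintype.card_fin]

/-- Lifting of the relation between two maps. -/
private theorem EC_lift {S B : Type} [CommRing S] [CommRing B] (s : S) (φ : S →+* B)
    (U Ub V Vb : Type) [AddCommGroup U] [Module S U] [AddCommGroup Ub] [Module B Ub]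
    [AddCommGroup V] [Module S V] [AddCommGroup Vb] [Module B Vb] (b : Rd φ s U Ub)
    (b' : Rd φ s V Vb) (n : ℤ) (α : U →ₗ[S] V) (β : V →ₗ[S] U) (αb : Ub →ₗ[B] Vb)
    (βb : Vb →ₗ[B] Ub) (hα : ∀ u, αb (b.c u) = b'.c (α u)) (hβ : ∀ u, βb (b'.c u) = b.c (β u))
    (h : ∀ x, βb (αb x) = n • x) (x : U) : ∃ y, β (α x) = n • x + s • y := by
  have h1 : b.c (β (α x) - n • x) = 0 := by
    rw [map_sub, map_zsmul, ← hβ, ← hα, h, sub_self]
  obtain ⟨y, hy⟩ := (b.ker _).1 h1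
  exact ⟨y, by rw [← hy]; abel⟩

theorem sECore (hERk : S_ERk) (hERd : S_ERd) (hEBas : S_EBas) (hEVal : S_EVal) (hEDiv : S_EDiv)
    (hFPat : S_FPat) : S_ECore := by
  intro S B _ _ s φ hg P _ _ _ _ k r ρ X Y ν hν hYX ν' hν' hXY hρ Pb _ _ b
  have hfin : Module.Finite ℤ B := hg.fin
  have hred : IsReduced B := hg.red
  obtain ⟨-, E2, E3, E4⟩ := hERd S B s φ hg.surj hg.ker
  obtain ⟨hPf, hPp, hPr⟩ := E2 P Pb b
  have hr : ∀ p : PrimeSpectrum B, Module.rankAtStalk (R := B) Pb p = r := fun p => by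
    rw [hPr]
    exact hERk S s hg.nzd P k r X Y ν hν hYX ν' hν' hXY _
  obtain ⟨tfP, N, αb', βb', hN, -, hN1, hN2⟩ := hEBas B hg.tf Pb r hr 2 le_rfl
  have hN' : 2 ≤ 2 * |N| := by
    have := abs_pos.2 hN
    omega
  obtain ⟨-, n, αb, βb, hn, hnN, hn1, hn2⟩ := hEBas B hg.tf Pb r hr (2 * |N|) hN'
  have hcop : IsCoprime n N := by
    have h1 : N ∣ n - 1 := ((dvd_abs N N).2 dvd_rfl).trans ((dvd_mul_left |N| 2).trans hnN)
    obtain ⟨t, ht⟩ := h1
    exact ⟨1, -t, by linear_combination ht⟩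
  obtain ⟨br, hbr⟩ := E4 r
  have hfree : Module.Projective S (Fin r → S) := inferInstance
  obtain ⟨α, hα⟩ := (E3 _ _ _ _ br b).2.2.1 hfree αb
  obtain ⟨β, hβ⟩ := (E3 _ _ _ _ b br).2.2.1 inferInstance βb
  obtain ⟨α', hα'⟩ := (E3 _ _ _ _ br b).2.2.1 hfree αb'
  obtain ⟨β', hβ'⟩ := (E3 _ _ _ _ b br).2.2.1 inferInstance βb'
  have l1 := EC_lift s φ _ _ _ _ br b n α β αb βb hα hβ hn1
  have l2 := EC_lift s φ _ _ _ _ b br n β α βb αb hβ hα hn2
  have l1' := EC_lift s φ _ _ _ _ br b N α' β' αb' βb' hα' hβ' hN1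
  have l2' := EC_lift s φ _ _ _ _ b br N β' α' βb' αb' hβ' hα' hN2
  obtain ⟨x1, y1, x2, y2, e1, e2, e3⟩ := hEDiv S B s φ hg (k * r) ρ (LinearMap.det (X ∘ₗ α))
    (LinearMap.det (β ∘ₗ Y)) (LinearMap.det (β ∘ₗ α)) (LinearMap.det (X ∘ₗ α'))
    (LinearMap.det (β' ∘ₗ Y)) (LinearMap.det (β' ∘ₗ α')) (LinearMap.det (β ∘ₗ α')) (by
      intro q _ hq
      obtain ⟨v1, v2, v3, v4⟩ := hEVal S B s φ hg q hq P k r ρ X Y ν hν hYX (hρ q hq) n hn α β
        l1 l2
      obtain ⟨w1, w2, w3, -⟩ := hEVal S B s φ hg q hq P k r ρ X Y ν hν hYX (hρ q hq) N hN α' β'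
        l1' l2'
      exact ⟨v1, w1, v2, w2, v3, w3, v4 α'⟩)
  have f1 : φ (LinearMap.det (β ∘ₗ α)) = (n : B) ^ r := by
    rw [EC_det s φ r br hbr (β ∘ₗ α) (βb ∘ₗ αb) (fun u => by
      rw [LinearMap.comp_apply, LinearMap.comp_apply, hα, hβ])]
    exact EC_int r n _ hn1
  have f2 : φ (LinearMap.det (β' ∘ₗ α')) = (N : B) ^ r := by
    rw [EC_det s φ r br hbr (β' ∘ₗ α') (βb' ∘ₗ αb') (fun u => by
      rw [LinearMap.comp_apply, LinearMap.comp_apply, hα', hβ'])]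
    exact EC_int r N _ hN1
  have f3 : φ (LinearMap.det (β ∘ₗ α')) = LinearMap.det (βb ∘ₗ αb') :=
    EC_det s φ r br hbr (β ∘ₗ α') (βb ∘ₗ αb') (fun u => by
      rw [LinearMap.comp_apply, LinearMap.comp_apply, hα', hβ])
  rw [f1] at e1 e3
  rw [f2] at e2
  rw [f3] at e3
  exact hFPat B hg.tf r r Pb tfP αb αb' βb βb' n N hn hN hcop hn1 hn2 hN1 hN2 x1 y1 x2 y2 e1 e2 e3

end HHx
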