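import Pool.Agent.Lib.MP_181146_gt.HH.SpecH

/-!
# Project HH, module EDiv: division by `s^ρ` (helper24)
-/

set_option autoImplicit false

namespace HHx

open HEp HBx
open scoped TensorProduct

private lemma pow_cancel {S : Type} [CommRing S] {s : S} (hs : ∀ x, s * x = 0 → x = 0) (n : ℕ) :
    ∀ a b : S, s ^ n * a = s ^ n * b → a = b := by
  induction n with
  | zero =>
    intro a b h
    rwa [pow_zero, one_mul, one_mul] at h
  | succ n ih =>
    intro a b h
    rw [pow_succ', mul_assoc, mul_assoc] at h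
    apply ih
    have h1 := hs (s ^ n * a - s ^ n * b) (by rw [mul_sub, h, sub_self])
    exact sub_eq_zero.1 h1

private lemma div_one (hALoc : S_ALoc) (hADvd : S_ADvd) (S B : Type) [CommRing S] [CommRing B]
    [Nontrivial B] (s : S) (φ : S →+* B) (hg : Good s φ) (m ρ : ℕ) (x y f : S)
    (h : ∀ (q : Ideal B) [q.IsPrime], q ∈ minimalPrimes B →
      IsUnit (algebraMap S (Lq φ q) f) ∧
      Associated (algebraMap S (Lq φ q) x) (algebraMap S (Lq φ q) s ^ ρ) ∧
      algebraMap S (Lq φ q) (x * y) = algebraMap S (Lq φ q) (f * s ^ m)) :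
    ∃ x' y' : S, x = s ^ ρ * x' ∧ x' * y' = f := by
  obtain ⟨hd1, hd2⟩ := hADvd S B s φ hg
  obtain ⟨x', hx'⟩ : s ^ ρ ∣ x := by
    apply hd1
    intro q _ hq
    exact (h q hq).2.1.symm.dvd
  have hxy : x * y = f * s ^ m := by
    apply sub_eq_zero.1
    apply hd2
    intro q _ hq
    rw [map_sub, (h q hq).2.2, sub_self]
  obtain ⟨q0, hq0⟩ : (minimalPrimes B).Nonempty :=
    Set.nonempty_coe_sort.1 (Ideal.nonempty_minimalPrimes (bot_ne_top : (⊥ : Ideal B) ≠ ⊤))
  have hle : ρ ≤ m := by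
    have hpr : q0.IsPrime := hq0.1.1
    obtain ⟨⟨hdom, _⟩, hirr, _, _⟩ := hALoc S B s φ hg q0 hq0
    obtain ⟨hu, ha, he⟩ := h q0 hq0
    have h1 : algebraMap S (Lq φ q0) s ^ ρ ∣
        algebraMap S (Lq φ q0) f * algebraMap S (Lq φ q0) s ^ m := by
      rw [map_mul, map_mul, map_pow] at he
      rw [← he]
      exact ha.symm.dvd.mul_right _
    rw [hu.dvd_mul_left] at h1
    exact (pow_dvd_pow_iff hirr.ne_zero hirr.not_isUnit).1 h1
  obtain ⟨y', hy'⟩ : s ^ (m - ρ) ∣ y := by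
    apply hd1
    intro q _ hq
    obtain ⟨⟨hdom, _⟩, hirr, _, _⟩ := hALoc S B s φ hg q hq
    obtain ⟨hu, ha, he⟩ := h q hq
    have hs0 : algebraMap S (Lq φ q) s ^ ρ ≠ 0 := pow_ne_zero _ hirr.ne_zero
    have hxu : IsUnit (algebraMap S (Lq φ q) x') := by
      rw [hx', map_mul, map_pow] at ha
      obtain ⟨u, hu1⟩ := ha
      have h2 : algebraMap S (Lq φ q) x' * u = 1 := by
        apply mul_left_cancel₀ hs0
        rw [← mul_assoc, hu1, mul_one]
      exact IsUnit.of_mul_eq_one _ h2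
    have h3 : algebraMap S (Lq φ q) x' * algebraMap S (Lq φ q) y =
        algebraMap S (Lq φ q) f * algebraMap S (Lq φ q) s ^ (m - ρ) := by
      apply mul_left_cancel₀ hs0
      rw [hx', map_mul, map_mul, map_mul, map_pow, map_pow] at he
      rw [← mul_assoc, he]
      have h4 : algebraMap S (Lq φ q) s ^ m =
          algebraMap S (Lq φ q) s ^ ρ * algebraMap S (Lq φ q) s ^ (m - ρ) := by
        rw [← pow_add, Nat.add_sub_of_le hle]
      rw [h4]
      ring
    rw [← hxu.dvd_mul_left, h3]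
    exact dvd_mul_left _ _
  refine ⟨x', y', hx', ?_⟩
  apply pow_cancel hg.nzd m
  have h5 : s ^ m = s ^ ρ * s ^ (m - ρ) := by
    rw [← pow_add, Nat.add_sub_of_le hle]
  calc s ^ m * (x' * y') = (s ^ ρ * x') * (s ^ (m - ρ) * y') := by
        rw [h5]
        ring
    _ = s ^ m * f := by
        rw [← hx', ← hy', hxy, mul_comm]

theorem sEDiv (hALoc : S_ALoc) (hADvd : S_ADvd) : S_EDiv := by
  intro S B _ _ s φ hg m ρ x y f x2 y2 f2 g h
  rcases subsingleton_or_nontrivial B with hB | hB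
  · exact ⟨0, 0, 0, 0, Subsingleton.elim _ _, Subsingleton.elim _ _, Subsingleton.elim _ _⟩
  obtain ⟨x', y', hx, hxy⟩ := div_one hALoc hADvd S B s φ hg m ρ x y f (fun q _ hq =>
    ⟨(h q hq).1, (h q hq).2.2.1, (h q hq).2.2.2.2.1⟩)
  obtain ⟨x2', y2', hx2, hxy2⟩ := div_one hALoc hADvd S B s φ hg m ρ x2 y2 f2 (fun q _ hq =>
    ⟨(h q hq).2.1, (h q hq).2.2.2.1, (h q hq).2.2.2.2.2.1⟩)
  have hfg : f * x2 = x * g := by
    apply sub_eq_zero.1
    apply (hADvd S B s φ hg).2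
    intro q _ hq
    rw [map_sub, (h q hq).2.2.2.2.2.2, sub_self]
  have hfg' : f * x2' = x' * g := by
    apply pow_cancel hg.nzd ρ
    rw [hx, hx2] at hfg
    calc s ^ ρ * (f * x2') = f * (s ^ ρ * x2') := by ring
      _ = s ^ ρ * (x' * g) := by
          rw [hfg]
          ring
  refine ⟨φ x', φ y', φ x2', φ y2', ?_, ?_, ?_⟩
  · rw [← map_mul, hxy]
  · rw [← map_mul, hxy2]
  · rw [← map_mul, ← map_mul, hfg']

end HHx
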