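import Pool.Agent.Lib.MP_181146_gt.HH.SpecH

/-!
# Project HH (Theorem H), module ERd: reductions modulo `s`
-/

set_option autoImplicit false

namespace HHx

open HEp HBx
open scoped TensorProduct

section

variable {S B : Type} [CommRing S] [CommRing B] {s : S} {φ : S →+* B}

private theorem ERd_s (hk : ∀ x, φ x = 0 ↔ ∃ y, x = s * y) : φ s = 0 :=
  (hk s).2 ⟨1, (mul_one s).symm⟩

private theorem ERd_zero {U Ub U' Ub' : Type} [AddCommGroup U] [Module S U] [AddCommGroup Ub]
    [Module B Ub] [AddCommGroup U'] [Module S U'] [AddCommGroup Ub'] [Module B Ub']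
    (hk : ∀ x, φ x = 0 ↔ ∃ y, x = s * y) (b : Rd φ s U Ub) (b' : Rd φ s U' Ub') (f : U →ₗ[S] U')
    {u u' : U} (h : b.c u = b.c u') : b'.c (f u) = b'.c (f u') := by
  have h1 : b.c (u - u') = 0 := by rw [map_sub, h, sub_self]
  obtain ⟨y, hy⟩ := (b.ker _).1 h1
  have h2 : b'.c (f (u - u')) = 0 := by
    rw [hy, map_smul, b'.sl, ERd_s hk, zero_smul]
  rw [map_sub, map_sub] at h2
  exact sub_eq_zero.1 h2

private theorem ERd_map {U Ub U' Ub' : Type} [AddCommGroup U] [Module S U] [AddCommGroup Ub]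
    [Module B Ub] [AddCommGroup U'] [Module S U'] [AddCommGroup Ub'] [Module B Ub']
    (hs : Function.Surjective φ) (hk : ∀ x, φ x = 0 ↔ ∃ y, x = s * y) (b : Rd φ s U Ub)
    (b' : Rd φ s U' Ub') (f : U →ₗ[S] U') :
    ∃ F : Ub →ₗ[B] Ub', ∀ u, F (b.c u) = b'.c (f u) := by
  choose g hg using b.surj
  refine ⟨⟨⟨fun x => b'.c (f (g x)), fun x y => ?_⟩, fun a x => ?_⟩, fun u => ?_⟩
  · rw [← map_add, ← map_add]
    refine ERd_zero hk b b' f ?_
    rw [hg, map_add, hg, hg]
  · obtain ⟨r, rfl⟩ := hs a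
    change b'.c (f (g (φ r • x))) = φ r • b'.c (f (g x))
    rw [← b'.sl, ← map_smul]
    refine ERd_zero hk b b' f ?_
    rw [hg, b.sl, hg]
  · exact ERd_zero hk b b' f (hg _)

private theorem ERd_equiv {U Ub U' Ub' : Type} [AddCommGroup U] [Module S U] [AddCommGroup Ub]
    [Module B Ub] [AddCommGroup U'] [Module S U'] [AddCommGroup Ub'] [Module B Ub']
    (hs : Function.Surjective φ) (hk : ∀ x, φ x = 0 ↔ ∃ y, x = s * y) (b : Rd φ s U Ub)
    (b' : Rd φ s U' Ub') (e : U ≃ₗ[S] U') : Nonempty (Ub ≃ₗ[B] Ub') := by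
  obtain ⟨F, hF⟩ := ERd_map hs hk b b' e.toLinearMap
  obtain ⟨G, hG⟩ := ERd_map hs hk b' b e.symm.toLinearMap
  refine ⟨LinearEquiv.ofLinear F G ?_ ?_⟩
  · ext x
    obtain ⟨u, rfl⟩ := b'.surj x
    rw [LinearMap.comp_apply, hG, hF, LinearMap.id_apply]
    congr 1
    exact e.apply_symm_apply u
  · ext x
    obtain ⟨u, rfl⟩ := b.surj x
    rw [LinearMap.comp_apply, hF, hG, LinearMap.id_apply]
    congr 1
    exact e.symm_apply_apply u

private theorem ERd_lift {U Ub U' Ub' : Type} [AddCommGroup U] [Module S U] [AddCommGroup Ub]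
    [Module B Ub] [AddCommGroup U'] [Module S U'] [AddCommGroup Ub'] [Module B Ub']
    (b : Rd φ s U Ub) (b' : Rd φ s U' Ub') (hp : Module.Projective S U) (F : Ub →ₗ[B] Ub') :
    ∃ f : U →ₗ[S] U', ∀ u, F (b.c u) = b'.c (f u) := by
  let _ : Module S Ub' := Module.compHom Ub' φ
  let p : U →ₗ[S] Ub' :=
    { toFun := fun u => F (b.c u)
      map_add' := fun x y => by rw [map_add, map_add]
      map_smul' := fun a x => by
        rw [b.sl, map_smul]
        rfl }
  let q : U' →ₗ[S] Ub' :=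
    { toFun := fun u => b'.c u
      map_add' := fun x y => by rw [map_add]
      map_smul' := fun a x => by
        rw [b'.sl]
        rfl }
  obtain ⟨h, hh⟩ := Module.projective_lifting_property q p b'.surj
  refine ⟨h, fun u => ?_⟩
  have := congrArg (fun g : U →ₗ[S] Ub' => g u) hh
  exact this.symm

private theorem ERd_ker [Algebra S B] (hs : Function.Surjective (algebraMap S B))
    (hk : ∀ x, algebraMap S B x = 0 ↔ ∃ y, x = s * y) (U : Type) [AddCommGroup U] [Module S U]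
    (u : U) (h : (1 : B) ⊗ₜ[S] u = 0) : ∃ y, u = s • y := by
  have hker : LinearMap.ker (Algebra.linearMap S B) = Ideal.span {s} := by
    ext x
    rw [LinearMap.mem_ker, Algebra.linearMap_apply, hk, Ideal.mem_span_singleton]
    exact Iff.rfl
  let g : (S ⧸ Ideal.span {s}) ≃ₗ[S] B :=
    (Submodule.quotEquivOfEq _ _ hker.symm).trans
      ((Algebra.linearMap S B).quotKerEquivOfSurjective hs)
  have hg : g (Ideal.Quotient.mk (Ideal.span {s}) 1) = 1 := by
    change algebraMap S B 1 = 1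
    exact map_one _
  have h1 : (LinearEquiv.rTensor U g)
      ((Ideal.Quotient.mk (Ideal.span {s}) 1) ⊗ₜ[S] u) = (1 : B) ⊗ₜ[S] u := by
    rw [LinearEquiv.rTensor_tmul, hg]
  have h2 : ((Ideal.Quotient.mk (Ideal.span {s}) 1) ⊗ₜ[S] u : (S ⧸ Ideal.span {s}) ⊗[S] U) = 0 := by
    apply (LinearEquiv.rTensor U g).injective
    rw [h1, h, map_zero]
  have h3 := congrArg (TensorProduct.quotTensorEquivQuotSMul U (Ideal.span {s})) h2
  rw [TensorProduct.quotTensorEquivQuotSMul_mk_tmul, map_zero, one_smul,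
    Submodule.Quotient.mk_eq_zero, Submodule.ideal_span_singleton_smul,
    Submodule.mem_smul_pointwise_iff_exists] at h3
  obtain ⟨y, _, hy⟩ := h3
  exact ⟨y, hy.symm⟩

private def ERd_tensor [Algebra S B] (hs : Function.Surjective (algebraMap S B))
    (hk : ∀ x, algebraMap S B x = 0 ↔ ∃ y, x = s * y) (U : Type) [AddCommGroup U] [Module S U] :
    Rd (algebraMap S B) s U (B ⊗[S] U) where
  c := (TensorProduct.mk S B U 1).toAddMonoidHom
  sl a x := by
    change (1 : B) ⊗ₜ[S] (a • x) = algebraMap S B a • ((1 : B) ⊗ₜ[S] x)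
    rw [algebraMap_smul, TensorProduct.tmul_smul]
  surj := TensorProduct.mk_surjective S U B hs
  ker x := by
    constructor
    · intro h
      exact ERd_ker hs hk U x h
    · rintro ⟨y, rfl⟩
      change (1 : B) ⊗ₜ[S] (s • y) = 0
      rw [TensorProduct.tmul_smul, TensorProduct.smul_tmul', Algebra.smul_def, (hk s).2
        ⟨1, (mul_one s).symm⟩, zero_mul, TensorProduct.zero_tmul]

end

theorem sERd : S_ERd := by
  intro S B _ _ s φ hs hk
  refine ⟨?_, ?_, ?_, ?_⟩
  · intro U _ _ _ _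
    let _ : Algebra S B := φ.toAlgebra
    exact ⟨⟨B ⊗[S] U⟩, ⟨ERd_tensor (s := s) hs hk U⟩⟩
  · intro U Ub _ _ _ _ _ _ b
    let _ : Algebra S B := φ.toAlgebra
    obtain ⟨e⟩ := ERd_equiv hs hk (ERd_tensor (s := s) hs hk U) b (LinearEquiv.refl S U)
    refine ⟨Module.Finite.equiv e, Module.Projective.of_equiv e, fun p => ?_⟩
    rw [← Module.rankAtStalk_eq_of_equiv e, Module.rankAtStalk_baseChange]
    rfl
  · intro U Ub U' Ub' _ _ _ _ _ _ _ _ b b'
    refine ⟨ERd_map hs hk b b', ERd_equiv hs hk b b', ERd_lift b b', ?_⟩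
    refine ⟨⟨b.c.prodMap b'.c, fun a x => ?_, ?_, fun x => ?_⟩, fun u => rfl⟩
    · exact Prod.ext (b.sl a x.1) (b'.sl a x.2)
    · rintro ⟨x, y⟩
      obtain ⟨u, hu⟩ := b.surj x
      obtain ⟨v, hv⟩ := b'.surj y
      exact ⟨(u, v), Prod.ext hu hv⟩
    · constructor
      · intro h
        have h1 : b.c x.1 = 0 := congrArg Prod.fst h
        have h2 : b'.c x.2 = 0 := congrArg Prod.snd h
        obtain ⟨y, hy⟩ := (b.ker _).1 h1
        obtain ⟨z, hz⟩ := (b'.ker _).1 h2
        exact ⟨(y, z), Prod.ext hy hz⟩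
      · rintro ⟨y, rfl⟩
        exact Prod.ext ((b.ker _).2 ⟨y.1, rfl⟩) ((b'.ker _).2 ⟨y.2, rfl⟩)
  · intro r
    refine ⟨⟨⟨⟨fun u i => φ (u i), ?_⟩, fun x y => ?_⟩, fun a x => ?_, fun y => ?_, fun x => ?_⟩,
      fun u i => rfl⟩
    · funext i
      exact map_zero φ
    · funext i
      exact map_add φ _ _
    · funext i
      exact map_mul φ _ _
    · choose g hg using hs
      exact ⟨fun i => g (y i), funext fun i => hg _⟩
    · constructor
      · intro h
        have h1 : ∀ i, ∃ z, x i = s * z := fun i => (hk _).1 (congrFun h i)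
        choose z hz using h1
        exact ⟨z, funext fun i => hz i⟩
      · rintro ⟨y, rfl⟩
        funext i
        exact (hk _).2 ⟨y i, rfl⟩

end HHx
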