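import Pool.Agent.Lib.MP_181146_gt.HH.SpecH

/-!
# Project HH, module ERk: the rank of `P` is `r` everywhere
-/

set_option autoImplicit false

namespace HHx

open HEp HBx
open scoped TensorProduct

namespace ERk

variable {S : Type} [CommRing S] (T : Submonoid S)

private theorem map_cmp {M N Q : Type} [AddCommGroup M] [Module S M] [AddCommGroup N] [Module S N]
    [AddCommGroup Q] [Module S Q] (f : M →ₗ[S] N) (g : N →ₗ[S] Q) (x : LocalizedModule T M) :
    LocalizedModule.map T (g ∘ₗ f) x = LocalizedModule.map T g (LocalizedModule.map T f x) := by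
  induction x using LocalizedModule.induction_on with
  | h m t => simp only [LocalizedModule.map_mk, LinearMap.comp_apply]

private theorem map_pw {M : Type} [AddCommGroup M] [Module S M] (f : Module.End S M) (n : ℕ) :
    (LocalizedModule.map T f : Module.End (Localization T) (LocalizedModule T M)) ^ n =
      LocalizedModule.map T (f ^ n) := by
  induction n with
  | zero =>
    rw [pow_zero, pow_zero]
    exact (LocalizedModule.map_id T).symm
  | succ n ih =>
    rw [pow_succ, ih, pow_succ]
    refine LinearMap.ext fun x => ?_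
    exact (map_cmp T f (f ^ n) x).symm

private theorem bij {M : Type} [AddCommGroup M] [Module S M] (a : S) (ha : a ∈ T)
    (f ν : Module.End S M) (hν : IsNilpotent ν) (hf : ∀ x, f x = a • x + ν x) :
    Function.Bijective (LocalizedModule.map T f) := by
  have e0 : f = a • (LinearMap.id : M →ₗ[S] M) + ν := LinearMap.ext fun x => hf x
  have hu : IsUnit (algebraMap (Localization T) (Module.End (Localization T) (LocalizedModule T M))
      (algebraMap S (Localization T) a)) :=
    (IsLocalization.map_units (Localization T) (⟨a, ha⟩ : T)).map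
      (algebraMap (Localization T) (Module.End (Localization T) (LocalizedModule T M)))
  have hn : IsNilpotent (LocalizedModule.map T ν :
      Module.End (Localization T) (LocalizedModule T M)) := by
    obtain ⟨n, hn⟩ := hν
    refine ⟨n, ?_⟩
    rw [map_pw, hn]
    exact map_zero _
  have hs := hn.isUnit_add_left_of_commute hu (Algebra.commutes _ _).symm
  have e1 : algebraMap (Localization T) (Module.End (Localization T) (LocalizedModule T M))
      (algebraMap S (Localization T) a) + LocalizedModule.map T ν = LocalizedModule.map T f := by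
    refine LinearMap.ext fun x => ?_
    rw [e0, map_add, map_smul, LocalizedModule.map_id, LinearMap.add_apply, LinearMap.add_apply,
      Module.algebraMap_end_apply, algebraMap_smul]
    rfl
  rw [e1] at hs
  exact (Module.End.isUnit_iff _).1 hs

end ERk

theorem sERk (hAMin : S_AMin) : S_ERk := by
  intro S _ s hs P _ _ _ _ k r X Y ν hν hYX ν' hν' hXY p
  obtain ⟨p0, hp0, hle, hsp⟩ := hAMin S s hs p.asIdeal
  have e1 : Module.rankAtStalk (R := S) P p = Module.rankAtStalk (R := S) P ⟨p0, hp0⟩ :=
    (Module.rankAtStalk_eq_of_le_of_finite_of_flat P (p := ⟨p0, hp0⟩) (q := p) hle).symm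
  have hnt : Nontrivial S := by
    refine ⟨⟨1, 0, fun h => hp0.ne_top ?_⟩⟩
    rw [Ideal.eq_top_iff_one, h]
    exact p0.zero_mem
  have e2 : Module.rankAtStalk (R := S) (Fin r → S) ⟨p0, hp0⟩ = r := by
    rw [Module.rankAtStalk_eq_finrank_of_free]
    simp
  rw [e1, ← e2]
  have hsT : s ^ k ∈ p0.primeCompl := fun h => hsp (hp0.mem_of_pow_mem k h)
  have b1 := ERk.bij p0.primeCompl (s ^ k) hsT (Y ∘ₗ X) ν hν hYX
  have b2 := ERk.bij p0.primeCompl (s ^ k) hsT (X ∘ₗ Y) ν' hν' hXY
  have hinj : Function.Injective (LocalizedModule.map p0.primeCompl X) := by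
    intro x y hxy
    apply b1.1
    rw [ERk.map_cmp, ERk.map_cmp, hxy]
  have hsur : Function.Surjective (LocalizedModule.map p0.primeCompl X) := by
    intro y
    obtain ⟨z, hz⟩ := b2.2 y
    refine ⟨LocalizedModule.map p0.primeCompl Y z, ?_⟩
    rw [← hz, ERk.map_cmp]
  exact LinearEquiv.finrank_eq (LinearEquiv.ofBijective _ ⟨hinj, hsur⟩)

end HHx
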