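import Pool.Agent.Lib.MP_181146_gt.HH.SpecH

/-!
# Project HH (Theorem H): the determinants at a minimal prime (EVal)
-/

set_option linter.unusedVariables false
set_option autoImplicit false

namespace HHx

open HEp HBx
open scoped TensorProduct

namespace EVal

variable {S : Type} [CommRing S] {T : Submonoid S}

/-- The localization of a finitely generated module is finitely generated. -/
private lemma fin_lz {U V : Type} [AddCommGroup U] [Module S U] [AddCommGroup V]
    [Module (Localization T) V] (b : Lz T U V) [hf : Module.Finite S U] :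
    Module.Finite (Localization T) V := by
  classical
  obtain ⟨F, hF⟩ := hf.fg_top
  refine ⟨⟨F.image b.l, ?_⟩⟩
  rw [eq_top_iff]
  rintro v -
  obtain ⟨t, ht, u, hu⟩ := b.surj v
  have h0 : ∀ x ∈ Submodule.span S (F : Set U),
      b.l x ∈ Submodule.span (Localization T) ((F.image b.l : Finset V) : Set V) := by
    intro x hx
    induction hx using Submodule.span_induction with
    | mem x hx =>
        refine Submodule.subset_span ?_
        rw [Finset.coe_image]
        exact ⟨x, hx, rfl⟩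
    | zero => rw [map_zero]; exact Submodule.zero_mem _
    | add x y _ _ hx hy => rw [map_add]; exact Submodule.add_mem _ hx hy
    | smul a x _ hx => rw [b.sl]; exact Submodule.smul_mem _ _ hx
  have h1 := h0 u (by rw [hF]; trivial)
  rw [← hu] at h1
  have hunit : IsUnit (algebraMap S (Localization T) t) :=
    IsLocalization.map_units (Localization T) (⟨t, ht⟩ : T)
  obtain ⟨w, hw⟩ := hunit
  have h2 := Submodule.smul_mem _ ((w⁻¹ : (Localization T)ˣ) : Localization T) h1
  rwa [← hw, smul_smul, Units.inv_mul, one_smul] at h2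

/-- The determinant of a localized endomorphism of `S^r`. -/
private lemma det_lz {r : ℕ} (c : Lz T (Fin r → S) (Fin r → Localization T))
    (hc : ∀ u i, c.l u i = algebraMap S (Localization T) (u i))
    (g : (Fin r → S) →ₗ[S] (Fin r → S))
    (g' : (Fin r → Localization T) →ₗ[Localization T] (Fin r → Localization T))
    (h : ∀ u, g' (c.l u) = c.l (g u)) :
    LinearMap.det g' = algebraMap S (Localization T) (LinearMap.det g) := by
  classical
  rw [← LinearMap.det_toMatrix', ← LinearMap.det_toMatrix', RingHom.map_det]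
  congr 1
  ext i j
  rw [LinearMap.toMatrix'_apply, RingHom.mapMatrix_apply, Matrix.map_apply,
    LinearMap.toMatrix'_apply]
  have e : c.l (Pi.single j 1) = Pi.single j 1 := by
    funext i
    rw [hc]
    by_cases hij : i = j
    · subst hij; simp
    · simp [Pi.single_eq_of_ne hij]
  have h3 := congrFun (h (Pi.single j 1)) i
  rw [e, hc] at h3
  exact h3

/-- The determinant modulo `s` of an endomorphism congruent to `n`. -/
private lemma det_mod {B : Type} [CommRing B] (φ : S →+* B) (s : S) (hs : φ s = 0) {r : ℕ} (n : ℤ)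
    (g : (Fin r → S) →ₗ[S] (Fin r → S)) (h : ∀ x, ∃ y, g x = n • x + s • y) :
    φ (LinearMap.det g) = (n : B) ^ r := by
  classical
  rw [← LinearMap.det_toMatrix', RingHom.map_det]
  have e : φ.mapMatrix (LinearMap.toMatrix' g) = (n : B) • (1 : Matrix (Fin r) (Fin r) B) := by
    ext i j
    rw [RingHom.mapMatrix_apply, Matrix.map_apply, LinearMap.toMatrix'_apply]
    obtain ⟨y, hy⟩ := h (Pi.single j 1)
    rw [hy, Pi.add_apply, Pi.smul_apply, Pi.smul_apply, map_add, smul_eq_mul, map_mul, hs, zero_mul,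
      add_zero, zsmul_eq_mul, map_mul, map_intCast, Matrix.smul_apply, smul_eq_mul]
    congr 1
    by_cases hij : i = j
    · subst hij; simp
    · simp [Pi.single_eq_of_ne hij, Matrix.one_apply_ne hij]
  rw [e, Matrix.det_smul, Matrix.det_one, mul_one, Fintype.card_fin]

/-- The localization of a nilpotent endomorphism. -/
private lemma nil_lz {P V : Type} [AddCommGroup P] [Module S P] [AddCommGroup V]
    [Module (Localization T) V] (b : Lz T P V)
    (hu : ∀ F F' : V →ₗ[Localization T] V, (∀ u, F (b.l u) = F' (b.l u)) → F = F')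
    (ν : Module.End S P) (hν : IsNilpotent ν) (ν' : Module.End (Localization T) V)
    (h : ∀ u, ν' (b.l u) = b.l (ν u)) : IsNilpotent ν' := by
  obtain ⟨m, hm⟩ := hν
  have h1 : ∀ (m : ℕ) (u : P), (ν' ^ m) (b.l u) = b.l ((ν ^ m) u) := by
    intro m
    induction m with
    | zero => intro u; simp
    | succ m ih =>
        intro u
        rw [pow_succ, pow_succ, Module.End.mul_apply, Module.End.mul_apply, h, ih]
  refine ⟨m, hu _ _ fun u => ?_⟩
  rw [h1, hm]
  simp

/-- Surjectivity by Nakayama. -/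
private lemma surj_lz [IsLocalRing (Localization T)] (s : S)
    (hs : algebraMap S (Localization T) s ∈ IsLocalRing.maximalIdeal (Localization T)) {P V : Type}
    [AddCommGroup P] [Module S P] [Module.Finite S P] [AddCommGroup V]
    [Module (Localization T) V] (b : Lz T P V) {r : ℕ}
    (c : Lz T (Fin r → S) (Fin r → Localization T)) (n : ℤ)
    (hn : IsUnit (n : Localization T)) (α : (Fin r → S) →ₗ[S] P) (β : P →ₗ[S] (Fin r → S))
    (h2 : ∀ x, ∃ y, α (β x) = n • x + s • y)
    (α' : (Fin r → Localization T) →ₗ[Localization T] V)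
    (hα : ∀ u, α' (c.l u) = b.l (α u)) : Function.Surjective α' := by
  have hfin : Module.Finite (Localization T) V := fin_lz b
  rw [← LinearMap.range_eq_top, eq_top_iff]
  refine Submodule.le_of_le_smul_of_le_jacobson_bot (I := IsLocalRing.maximalIdeal _) hfin.fg_top
    (IsLocalRing.jacobson_eq_maximalIdeal ⊥ bot_ne_top).ge ?_
  rintro v -
  obtain ⟨t, ht, u, hu⟩ := b.surj v
  have hunit : IsUnit (algebraMap S (Localization T) t) :=
    IsLocalization.map_units (Localization T) (⟨t, ht⟩ : T)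
  obtain ⟨y, hy⟩ := h2 u
  have h3 : α' (c.l (β u)) = (n : Localization T) • (algebraMap S (Localization T) t • v) +
      algebraMap S (Localization T) s • b.l y := by
    rw [hα, hy, map_add, map_zsmul, b.sl, hu, Int.cast_smul_eq_zsmul]
  obtain ⟨w, hw⟩ := hn.mul hunit
  have h4 : v = ((w⁻¹ : (Localization T)ˣ) : Localization T) • (α' (c.l (β u)) -
      algebraMap S (Localization T) s • b.l y) := by
    rw [h3, add_sub_cancel_right, smul_smul, smul_smul, mul_assoc, ← hw, Units.inv_mul, one_smul]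
  rw [h4, smul_sub]
  refine Submodule.sub_mem _ (Submodule.mem_sup_left ?_) (Submodule.mem_sup_right ?_)
  · exact Submodule.smul_mem _ _ ⟨_, rfl⟩
  · exact Submodule.smul_mem _ _ (Submodule.smul_mem_smul hs trivial)

/-- The length of the localized cokernel. -/
private lemma len_lz (hLzE : S_LzE) (hLzQ : S_LzQ) {P V : Type} [AddCommGroup P] [Module S P]
    [AddCommGroup V] [Module (Localization T) V] (b : Lz T P V) {r : ℕ}
    (c : Lz T (Fin r → S) (Fin r → Localization T)) (X : P →ₗ[S] (Fin r → S))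
    (X' : V →ₗ[Localization T] (Fin r → Localization T)) (hX : ∀ u, X' (b.l u) = c.l (X u)) :
    Module.length (Localization T) ((Fin r → Localization T) ⧸ LinearMap.range X') =
      Module.length (Localization T) (LocalizedModule T ((Fin r → S) ⧸ LinearMap.range X)) := by
  obtain ⟨c1⟩ := (hLzQ S T (Fin r → S) (Fin r → Localization T) c ⊤ (LinearMap.range X) ⊤
    (LinearMap.range X') (fun _ _ => trivial) (fun v _ => by
      obtain ⟨t, ht, u, hu⟩ := c.surj v
      exact ⟨t, ht, u, trivial, hu⟩) (by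
      rintro z ⟨p, rfl⟩
      exact ⟨b.l p, hX p⟩) (by
      rintro v ⟨w, rfl⟩
      obtain ⟨t, ht, u, hu⟩ := b.surj w
      exact ⟨t, ht, X u, ⟨u, rfl⟩, by rw [← map_smul, hu, hX]⟩)).2
  obtain ⟨⟨c2, -⟩, -⟩ := hLzE S T ((Fin r → S) ⧸ LinearMap.range X)
    ((Fin r → S) ⧸ LinearMap.range X) (LocalizedModule T ((Fin r → S) ⧸ LinearMap.range X))
    (LocalizedModule T ((Fin r → S) ⧸ LinearMap.range X))
  obtain ⟨-, h3⟩ := hLzE S T ((Fin r → S) ⧸ LinearMap.range X)
    ((Fin r → S) ⧸ LinearMap.range X) ((Fin r → Localization T) ⧸ LinearMap.range X')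
    (LocalizedModule T ((Fin r → S) ⧸ LinearMap.range X))
  obtain ⟨e⟩ := (h3 c1 c2 LinearMap.id).2.2 Function.bijective_id
  exact e.length_eq

end EVal

open EVal in
/-- **EVal.** -/
theorem sEVal (hALoc : S_ALoc) (hBPair : S_BPair) (hLzE : S_LzE) (hLzQ : S_LzQ) (hLzP : S_LzP) :
    S_EVal := by
  intro S B _ _ s φ hg q _ hq P _ _ _ k r ρ X Y ν hν hYX hρ n hn α β h1 h2
  obtain ⟨⟨hdom, hdvr⟩, hirr, hint, hun⟩ := hALoc S B s φ hg q hq
  have hφs : φ s = 0 := (hg.ker s).2 ⟨1, (mul_one s).symm⟩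
  have hdet : IsUnit (algebraMap S (Lq φ q) (LinearMap.det (β ∘ₗ α))) := by
    rw [hun, det_mod φ s hφs n _ h1]
    intro h
    have h3 : (n : B) ∈ q := Ideal.IsPrime.mem_of_pow_mem inferInstance r h
    have h4 : ¬ φ (n : S) ∈ q := by
      rw [← hun, map_intCast]
      exact hint n hn
    rw [map_intCast] at h4
    exact h4 h3
  obtain ⟨b, -⟩ := (hLzE S (q.comap φ).primeCompl P P (Mq φ q P) (Mq φ q P)).1
  obtain ⟨c, hc⟩ := (hLzP S (q.comap φ).primeCompl).2.2 r
  have hPP := fun f => (hLzE S (q.comap φ).primeCompl P P (Mq φ q P) (Mq φ q P)).2 b b f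
  have hPS := fun f => (hLzE S (q.comap φ).primeCompl P (Fin r → S) (Mq φ q P)
    (Fin r → Lq φ q)).2 b c f
  have hSP := fun f => (hLzE S (q.comap φ).primeCompl (Fin r → S) P (Fin r → Lq φ q)
    (Mq φ q P)).2 c b f
  obtain ⟨X', hX⟩ := (hPS X).1
  obtain ⟨Y', hY⟩ := (hSP Y).1
  obtain ⟨α', hα⟩ := (hSP α).1
  obtain ⟨β', hβ⟩ := (hPS β).1
  obtain ⟨ν', hν'⟩ := (hPP ν).1
  have d1 : LinearMap.det (β' ∘ₗ α') = algebraMap S (Lq φ q) (LinearMap.det (β ∘ₗ α)) :=
    det_lz c hc (β ∘ₗ α) _ fun u => by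
      rw [LinearMap.comp_apply, LinearMap.comp_apply, hα, hβ]
  have d2 : LinearMap.det (X' ∘ₗ α') = algebraMap S (Lq φ q) (LinearMap.det (X ∘ₗ α)) :=
    det_lz c hc (X ∘ₗ α) _ fun u => by
      rw [LinearMap.comp_apply, LinearMap.comp_apply, hα, hX]
  have d3 : LinearMap.det (β' ∘ₗ Y') = algebraMap S (Lq φ q) (LinearMap.det (β ∘ₗ Y)) :=
    det_lz c hc (β ∘ₗ Y) _ fun u => by
      rw [LinearMap.comp_apply, LinearMap.comp_apply, hY, hβ]
  have hYX' : ∀ x, Y' (X' x) = algebraMap S (Lq φ q) s ^ k • x + ν' x := by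
    have h3 : Y' ∘ₗ X' = algebraMap S (Lq φ q) s ^ k • (LinearMap.id : Mq φ q P →ₗ[Lq φ q] _) +
        ν' := by
      refine (hPP LinearMap.id).2.1 _ _ fun u => ?_
      rw [LinearMap.comp_apply, hX, hY, hYX, map_add, b.sl, LinearMap.add_apply,
        LinearMap.smul_apply, LinearMap.id_apply, hν', map_pow]
    intro x
    exact LinearMap.congr_fun h3 x
  have hnil : IsNilpotent ν' := nil_lz b (hPP LinearMap.id).2.1 ν hν ν' hν'
  have hlen : Module.length (Lq φ q) ((Fin r → Lq φ q) ⧸ LinearMap.range X') = ρ :=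
    (len_lz hLzE hLzQ b c X X' hX).trans hρ
  have hsurj : Function.Surjective α' :=
    surj_lz s ((IsLocalRing.mem_maximalIdeal _).2 hirr.not_isUnit) b c n (hint n hn) α β h2 α' hα
  obtain ⟨g1, g2, g3⟩ := hBPair (Lq φ q) (algebraMap S (Lq φ q) s) hirr k r ρ (Mq φ q P) X' Y' ν'
    hnil hYX' hlen α' β' hsurj (by rw [d1]; exact hdet)
  refine ⟨hdet, ?_, ?_, fun α2 => ?_⟩
  · rw [← d2]; exact g1
  · rw [map_mul, map_mul, map_pow, ← d1, ← d2, ← d3]; exact g2
  · obtain ⟨α2', hα2⟩ := (hSP α2).1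
    have d4 : LinearMap.det (X' ∘ₗ α2') = algebraMap S (Lq φ q) (LinearMap.det (X ∘ₗ α2)) :=
      det_lz c hc (X ∘ₗ α2) _ fun u => by
        rw [LinearMap.comp_apply, LinearMap.comp_apply, hα2, hX]
    have d5 : LinearMap.det (β' ∘ₗ α2') = algebraMap S (Lq φ q) (LinearMap.det (β ∘ₗ α2)) :=
      det_lz c hc (β ∘ₗ α2) _ fun u => by
        rw [LinearMap.comp_apply, LinearMap.comp_apply, hα2, hβ]
    rw [map_mul, map_mul, ← d1, ← d2, ← d4, ← d5]
    exact g3 α2'

end HHx
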