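import Pool.Agent.Lib.MP_181146_gt.HH.SpecH

/-!
# Project HH (Theorem H), module FFac: strong approximation

Author helper43, after the docstring of `S_FFac`.
-/

set_option autoImplicit false

namespace HHx

open HEp HBx
open scoped TensorProduct

namespace FFac

/-- `n = n1 n2`, `n1` divides a power of `N`, `n2` is prime to `N`. -/
private lemma split (N : ℤ) : ∀ (m : ℕ) (n : ℤ), n ≠ 0 → n.natAbs ≤ m →
    ∃ (a : ℕ) (n1 n2 : ℤ), n = n1 * n2 ∧ n1 ∣ N ^ a ∧ IsCoprime n2 N := by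
  intro m
  induction m with
  | zero => intro n hn h; exact absurd (Int.natAbs_eq_zero.1 (by omega)) hn
  | succ m ih =>
    intro n hn h
    by_cases hc : IsCoprime n N
    · exact ⟨0, 1, n, by ring, by simp, hc⟩
    · have hg : Int.gcd n N ≠ 1 := fun h1 => hc (Int.isCoprime_iff_gcd_eq_one.2 h1)
      obtain ⟨n', hn'⟩ : ((Int.gcd n N : ℕ) : ℤ) ∣ n := Int.gcd_dvd_left ..
      have hg0 : Int.gcd n N ≠ 0 := by
        intro h0
        rw [h0] at hn'
        exact hn (by simpa using hn')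
      have hn0 : n' ≠ 0 := by
        rintro rfl
        exact hn (by simpa using hn')
      have hle : n'.natAbs ≤ m := by
        have h1 : n.natAbs = Int.gcd n N * n'.natAbs := by
          conv_lhs => rw [hn']
          rw [Int.natAbs_mul, Int.natAbs_natCast]
        have h2 : 2 ≤ Int.gcd n N := by omega
        have h3 : 0 < n'.natAbs := Int.natAbs_pos.2 hn0
        have h4 : 2 * n'.natAbs ≤ Int.gcd n N * n'.natAbs := Nat.mul_le_mul_right _ h2
        omega
      obtain ⟨a, n1, n2, h1, h2, h3⟩ := ih n' hn0 hle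
      refine ⟨a + 1, (Int.gcd n N : ℕ) * n1, n2, ?_, ?_, h3⟩
      · conv_lhs => rw [hn', h1]
        ring
      · rw [pow_succ']
        exact mul_dvd_mul (Int.gcd_dvd_right ..) h2

section

variable {B K : Type} [CommRing B] [CommRing K]

/-- The property of the matrix `M` which is proved. -/
private def Q (f : B →+* K) (N : ℤ) (r : ℕ) (M : Matrix (Fin r) (Fin r) K) : Prop :=
  ∀ k : ℕ, ∃ (c : ℤ) (j : ℕ) (E G G' : Matrix (Fin r) (Fin r) B), c ≠ 0 ∧ IsCoprime c N ∧
    G.det = ((N ^ (j * r) : ℤ) : B) ∧ G * G' = (N ^ (2 * j)) • 1 ∧ G' * G = (N ^ (2 * j)) • 1 ∧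
    (c * N ^ j) • M = f.mapMatrix ((c • 1 + N ^ k • E) * G)

private lemma Q_one (f : B →+* K) (N : ℤ) (r : ℕ) : Q f N r 1 := by
  intro k
  refine ⟨1, 0, 0, 1, 1, one_ne_zero, isCoprime_one_left, by simp, by simp, by simp, ?_⟩
  simp

private lemma Q_mul (f : B →+* K) (N : ℤ) (r : ℕ) (M1 M2 : Matrix (Fin r) (Fin r) K)
    (h1 : Q f N r M1) (h2 : Q f N r M2) : Q f N r (M1 * M2) := by
  intro k
  obtain ⟨c1, j1, E1, G1, G1', a1, b1, d1, e1, f1, g1⟩ := h1 k
  obtain ⟨c2, j2, E2, G2, G2', a2, b2, d2, e2, f2, g2⟩ := h2 (k + 2 * j1)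
  refine ⟨c1 * c2, j1 + j2,
    c2 • E1 + c1 • (G1 * E2 * G1') + N ^ k • (E1 * (G1 * E2 * G1')), G1 * G2, G2' * G1',
    mul_ne_zero a1 a2, b1.mul_left b2, ?_, ?_, ?_, ?_⟩
  · rw [Matrix.det_mul, d1, d2, ← Int.cast_mul, ← pow_add]
    congr 2
    ring
  · have h : G1 * G2 * (G2' * G1') = G1 * (G2 * G2') * G1' := by simp only [mul_assoc]
    rw [h, e2, mul_smul_comm, mul_one, smul_mul_assoc, e1, smul_smul]
    congr 1
    ring
  · have h : G2' * G1' * (G1 * G2) = G2' * (G1' * G1) * G2 := by simp only [mul_assoc]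
    rw [h, f1, mul_smul_comm, mul_one, smul_mul_assoc, f2, smul_smul]
    congr 1
    ring
  · have h3 : G1 * (c2 • (1 : Matrix (Fin r) (Fin r) B) + N ^ (k + 2 * j1) • E2) =
        (c2 • 1 + N ^ k • (G1 * E2 * G1')) * G1 := by
      have h4 : N ^ (2 * j1) • (G1 * E2) = G1 * E2 * G1' * G1 := by
        rw [mul_assoc (G1 * E2), f1, mul_smul_comm, mul_one]
      rw [mul_add, mul_smul_comm, mul_one, mul_smul_comm, add_mul, smul_mul_assoc, one_mul,
        smul_mul_assoc, ← h4, smul_smul, pow_add]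
    have h5 : (c1 • (1 : Matrix (Fin r) (Fin r) B) + N ^ k • E1) *
        (c2 • 1 + N ^ k • (G1 * E2 * G1')) = (c1 * c2) • 1 + N ^ k •
          (c2 • E1 + c1 • (G1 * E2 * G1') + N ^ k • (E1 * (G1 * E2 * G1'))) := by
      simp only [mul_add, add_mul, smul_mul_assoc, mul_smul_comm, one_mul, mul_one, smul_add]
      module
    have h6 : (c1 * c2 * N ^ (j1 + j2)) • (M1 * M2) = ((c1 * N ^ j1) • M1) * ((c2 * N ^ j2) • M2) := by
      rw [smul_mul_assoc, mul_smul_comm, smul_smul]
      congr 1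
      ring
    rw [h6, g1, g2, ← map_mul, ← h5]
    congr 1
    rw [mul_assoc, ← mul_assoc G1, h3]
    simp only [mul_assoc]

private lemma det_aux {r : ℕ} (i j : Fin r) (hij : i ≠ j) (t y : B) :
    (Matrix.det (t • (1 : Matrix (Fin r) (Fin r) B) + Matrix.single i j y)) = t ^ r := by
  have hd : ∏ l : Fin r, (t • (1 : Matrix (Fin r) (Fin r) B) + Matrix.single i j y) l l = t ^ r := by
    rw [Finset.prod_congr rfl (g := fun _ => t)]
    · simp
    · intro l _
      rw [Matrix.add_apply, Matrix.smul_apply, Matrix.one_apply_eq, Matrix.single_apply_of_ne]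
      · simp
      · rintro ⟨rfl, rfl⟩
        exact hij rfl
  rcases lt_or_gt_of_ne hij with h | h
  · rw [Matrix.det_of_isUpperTriangular, hd]
    intro a b hab
    rw [Matrix.add_apply, Matrix.smul_apply, Matrix.one_apply_ne (by rintro rfl; exact lt_irrefl _ hab),
      Matrix.single_apply_of_ne]
    · simp
    · rintro ⟨rfl, rfl⟩
      exact lt_asymm h hab
  · rw [Matrix.det_of_isLowerTriangular, hd]
    intro a b hab
    have hab' : a < b := hab
    rw [Matrix.add_apply, Matrix.smul_apply, Matrix.one_apply_ne (by rintro rfl; exact lt_irrefl _ hab'),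
      Matrix.single_apply_of_ne]
    · simp
    · rintro ⟨rfl, rfl⟩
      exact lt_asymm h hab'

private lemma Q_trans (f : B →+* K)
    (hd : ∀ x : K, ∃ n : ℤ, n ≠ 0 ∧ ∃ b : B, (n : K) * x = f b) (N : ℤ) (r : ℕ) (i j : Fin r)
    (x : K) (hij : i ≠ j) : Q f N r (Matrix.transvection i j x) := by
  intro k
  obtain ⟨n, hn, b, hb⟩ := hd x
  obtain ⟨a, n1, n2, h1, ⟨m, hm⟩, h3⟩ := split N n.natAbs n hn le_rfl
  have hn2 : n2 ≠ 0 := by
    rintro rfl
    exact hn (by rw [h1, mul_zero])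
  have hx : (N ^ a * n2) • x = f (m • b) := by
    rw [map_zsmul, ← hb, hm]
    simp only [zsmul_eq_mul, h1]
    push_cast
    ring
  obtain ⟨u, v, huv⟩ := h3.pow_right (n := a + k)
  set e : Matrix (Fin r) (Fin r) B := Matrix.single i j (m • b) with he
  have hee : e * e = 0 := by
    rw [he]
    exact Matrix.single_mul_single_of_ne _ _ _ _ hij.symm _
  have hsm : ∀ (s : ℤ), s • (1 : Matrix (Fin r) (Fin r) B) = ((s : ℤ) : B) • 1 := by
    intro s
    rw [Int.cast_smul_eq_zsmul]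
  refine ⟨n2, a, v • e, N ^ a • 1 + u • e, N ^ a • 1 - u • e, hn2, h3, ?_, ?_, ?_, ?_⟩
  · have h5 : u • e = Matrix.single i j (u • (m • b)) := by
      rw [he, Matrix.smul_single]
    rw [h5, hsm, det_aux i j hij, ← Int.cast_pow, ← pow_mul]
  · simp only [mul_sub, add_mul, smul_mul_assoc, mul_smul_comm, one_mul, mul_one, hee, smul_zero]
    module
  · simp only [mul_add, sub_mul, smul_mul_assoc, mul_smul_comm, one_mul, mul_one, hee, smul_zero]
    module
  · have h6 : (n2 • (1 : Matrix (Fin r) (Fin r) B) + N ^ k • v • e) * (N ^ a • 1 + u • e) =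
        (n2 * N ^ a) • 1 + e := by
      simp only [mul_add, add_mul, smul_mul_assoc, mul_smul_comm, one_mul, mul_one, hee, smul_zero]
      have h7 : e = (u * n2 + v * N ^ (a + k)) • e := by rw [huv, one_smul]
      conv_rhs => rw [h7]
      rw [pow_add]
      module
    rw [h6, map_add, map_zsmul, map_one]
    have h8 : f.mapMatrix e = (n2 * N ^ a) • Matrix.single i j x := by
      rw [Matrix.smul_single, mul_comm n2, hx]
      exact Matrix.map_single i j _ f
    rw [h8, Matrix.transvection, smul_add]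

end

end FFac

theorem sFFac (hFSL : S_FSL) : S_FFac := by
  intro B K _ _ _ _ tf f hf hd hu N hN r M hM
  have hQ : FFac.Q f N r M := hFSL K r (FFac.Q f N r) (FFac.Q_one f N r)
    (fun M1 M2 => FFac.Q_mul f N r M1 M2)
    (fun i j c hij => FFac.Q_trans f hd N r i j c hij) M hM
  obtain ⟨c, j, E, G, G', hc, hcN, hG, hGG, hGG', hMm⟩ := hQ 0
  set C : Matrix (Fin r) (Fin r) B := c • 1 + N ^ 0 • E with hC
  have hCdet : C.det = ((c ^ r : ℤ) : B) := by
    have h1 : ((c * N ^ j : ℤ) : K) • M = f.mapMatrix (C * G) := by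
      rw [Int.cast_smul_eq_zsmul, hMm]
    have h2 := congrArg Matrix.det h1
    rw [Matrix.det_smul, hM, mul_one, Fintype.card_fin, ← RingHom.map_det, Matrix.det_mul, hG,
      ← Int.cast_pow, ← map_intCast f] at h2
    have h3 := hf h2
    have h4 : (N ^ (j * r)) • (C.det - ((c ^ r : ℤ) : B)) = 0 := by
      rw [zsmul_eq_mul, mul_sub, mul_comm _ C.det, ← h3, mul_pow, ← pow_mul, ← Int.cast_mul]
      rw [sub_eq_zero]
      congr 1
      ring
    exact sub_eq_zero.1 (tf _ _ (pow_ne_zero _ hN) h4)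
  have hcast : ∀ s : ℤ, ((s : ℤ) : Matrix (Fin r) (Fin r) B) = s • 1 := by
    intro s
    rw [zsmul_one]
  refine ⟨c, c ^ r, j, 2 * j, C, C.adjugate, G, G', hc, pow_ne_zero _ hc, hcN, hcN.pow_left,
    ?_, ?_, ?_, ?_, ?_⟩
  · rw [Matrix.mul_adjugate, hCdet, hcast, Int.cast_smul_eq_zsmul]
  · rw [Matrix.adjugate_mul, hCdet, hcast, Int.cast_smul_eq_zsmul]
  · rw [hGG, hcast]
  · rw [hGG', hcast]
  · rw [Int.cast_smul_eq_zsmul, hMm]
    rfl

end HHx
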