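import Pool.Agent.Lib.MP_181146_gt.HH.SpecH

/-!
# Project HH (Theorem H), module FMat: the matrix form of the patching lemma

Author helper43, after the docstring of `S_FMat`.
-/

set_option autoImplicit false

namespace HHx

open HEp HBx
open scoped TensorProduct

namespace FMat

section

variable {R : Type} [CommRing R] {r : ℕ}

/-- The diagonal matrix `(x, y, .., y)`. -/
private def dg (r : ℕ) (x y : R) : Matrix (Fin (r + 1)) (Fin (r + 1)) R :=
  Matrix.diagonal (Fin.cons x fun _ => y)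

private lemma dg_mul (x y x' y' : R) : dg r x y * dg r x' y' = dg r (x * x') (y * y') := by
  unfold dg
  rw [Matrix.diagonal_mul_diagonal]
  congr 1
  funext i
  refine Fin.cases ?_ (fun i => ?_) i
  · simp only [Fin.cons_zero]
  · simp only [Fin.cons_succ]

private lemma dg_self (z : R) : dg r z z = z • (1 : Matrix (Fin (r + 1)) (Fin (r + 1)) R) := by
  unfold dg
  rw [Matrix.smul_one_eq_diagonal]
  congr 1
  funext i
  refine Fin.cases ?_ (fun i => ?_) i
  · simp only [Fin.cons_zero]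
  · simp only [Fin.cons_succ]

private lemma dg_det (x : R) : (dg r x 1).det = x := by
  unfold dg
  rw [Matrix.det_diagonal, Fin.prod_univ_succ]
  simp

private lemma dg_map {R' : Type} [CommRing R'] (f : R →+* R') (x y : R) :
    f.mapMatrix (dg r x y) = dg r (f x) (f y) := by
  unfold dg
  rw [RingHom.mapMatrix_apply, Matrix.diagonal_map (map_zero f)]
  congr 1
  funext i
  refine Fin.cases ?_ (fun i => ?_) i
  · simp only [Fin.cons_zero]
  · simp only [Fin.cons_succ]

end

end FMat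

theorem sFMat (hFK : S_FK) (hFFac : S_FFac) : S_FMat := by
  intro B _ _ _ tf r a A n N hn hN hnN x1 y1 x2 y2 h1 h2 hA
  obtain ⟨K, _, f, hf, hd, hu, _, _⟩ := hFK B tf
  obtain ⟨nu, hnu⟩ := (hu n hn).exists_left_inv
  have hx2u : IsUnit (f x2) := by
    have h3 : f x2 * f y2 = (N : K) ^ a := by rw [← map_mul, h2, map_pow, map_intCast]
    exact isUnit_of_mul_isUnit_left (h3 ▸ (hu N hN).pow a)
  obtain ⟨z, hz⟩ := hx2u.exists_left_inv
  set F := f.mapMatrix (m := Fin (r + 1)) with hF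
  set T1 : Matrix (Fin (r + 1)) (Fin (r + 1)) K :=
    nu • (FMat.dg r (f x1) 1 * F A * FMat.dg r z 1) with hT1
  have hdet : T1.det = 1 := by
    have h3 : (n : K) ^ (r + 1) * f x2 = f x1 * f A.det := by
      rw [← map_mul, ← hA, map_mul, map_pow, map_intCast]
    rw [hT1, Matrix.det_smul, Matrix.det_mul, Matrix.det_mul, FMat.dg_det, FMat.dg_det,
      Fintype.card_fin, hF, ← RingHom.map_det, ← h3]
    have h4 : nu ^ (r + 1) * ((n : K) ^ (r + 1) * f x2 * z) = (nu * (n : K)) ^ (r + 1) * (z * f x2) := by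
      ring
    rw [h4, hnu, hz, one_pow, one_mul]
  obtain ⟨c, c1, j, b, C, C', G, G', hc, hc1, hcN, hc1N, hCC, hCC', hGG, hGG', hfac⟩ :=
    hFFac B K tf f hf hd hu N hN (r + 1) T1 hdet
  have hcast : ∀ s : ℤ, ((s : ℤ) : Matrix (Fin (r + 1)) (Fin (r + 1)) B) = (s : B) • 1 := by
    intro s
    rw [Int.cast_smul_eq_zsmul, zsmul_one]
  rw [hcast] at hCC hCC' hGG hGG'
  refine ⟨c * n ^ a, c1 * n ^ a, j, a + b, FMat.dg r y1 ((n : B) ^ a) * C, C' * FMat.dg r x1 1,
    G * FMat.dg r x2 1, FMat.dg r y2 ((N : B) ^ a) * G', mul_ne_zero hc (pow_ne_zero _ hn),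
    mul_ne_zero hc1 (pow_ne_zero _ hn), hcN.mul_left hnN.pow_left, hc1N.mul_left hnN.pow_left,
    ?_, ?_, ?_, ?_, ?_⟩
  · have e : FMat.dg r y1 ((n : B) ^ a) * C * (C' * FMat.dg r x1 1) =
        FMat.dg r y1 ((n : B) ^ a) * (C * C') * FMat.dg r x1 1 := by simp only [mul_assoc]
    rw [e, hCC, mul_smul_comm, mul_one, smul_mul_assoc, FMat.dg_mul, mul_comm y1, h1, mul_one,
      FMat.dg_self, smul_smul, hcast]
    push_cast
    rfl
  · have e : C' * FMat.dg r x1 1 * (FMat.dg r y1 ((n : B) ^ a) * C) =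
        C' * (FMat.dg r x1 1 * FMat.dg r y1 ((n : B) ^ a)) * C := by simp only [mul_assoc]
    rw [e, FMat.dg_mul, h1, one_mul, FMat.dg_self, mul_smul_comm, mul_one, smul_mul_assoc, hCC',
      smul_smul, hcast]
    push_cast
    rw [mul_comm]
  · have e : G * FMat.dg r x2 1 * (FMat.dg r y2 ((N : B) ^ a) * G') =
        G * (FMat.dg r x2 1 * FMat.dg r y2 ((N : B) ^ a)) * G' := by simp only [mul_assoc]
    rw [e, FMat.dg_mul, h2, one_mul, FMat.dg_self, mul_smul_comm, mul_one, smul_mul_assoc, hGG,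
      smul_smul, hcast, pow_add]
    push_cast
    rfl
  · have e : FMat.dg r y2 ((N : B) ^ a) * G' * (G * FMat.dg r x2 1) =
        FMat.dg r y2 ((N : B) ^ a) * (G' * G) * FMat.dg r x2 1 := by simp only [mul_assoc]
    rw [e, hGG', mul_smul_comm, mul_one, smul_mul_assoc, FMat.dg_mul, mul_comm y2, h2, mul_one,
      FMat.dg_self, smul_smul, hcast, pow_add]
    push_cast
    rw [mul_comm]
  · have hFinj : Function.Injective F := by
      intro M M' hMM
      ext i l
      apply hf
      exact congrFun (congrFun hMM i) l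
    apply hFinj
    rw [map_zsmul, map_zsmul, ← Int.cast_smul_eq_zsmul K, ← Int.cast_smul_eq_zsmul K]
    have e1 : F (FMat.dg r y1 ((n : B) ^ a) * C * (G * FMat.dg r x2 1)) =
        F (FMat.dg r y1 ((n : B) ^ a)) * F (C * G) * F (FMat.dg r x2 1) := by
      rw [← map_mul, ← map_mul]
      simp only [mul_assoc]
    have e2 : F (C * G) = ((c * N ^ j : ℤ) : K) • T1 := hfac.symm
    have e3 : f y1 * f x1 = (n : K) ^ a := by
      rw [mul_comm, ← map_mul, h1, map_pow, map_intCast]
    have e4 : F (FMat.dg r y1 ((n : B) ^ a)) * FMat.dg r (f x1) 1 =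
        ((n : K) ^ a) • (1 : Matrix (Fin (r + 1)) (Fin (r + 1)) K) := by
      rw [hF, FMat.dg_map, FMat.dg_mul, e3, map_pow, map_intCast, mul_one, FMat.dg_self]
    have e5 : FMat.dg r z 1 * F (FMat.dg r x2 1) = 1 := by
      rw [hF, FMat.dg_map, FMat.dg_mul, hz, map_one, mul_one, FMat.dg_self, one_smul]
    have e6 : F (FMat.dg r y1 ((n : B) ^ a)) * T1 * F (FMat.dg r x2 1) =
        (nu * (n : K) ^ a) • F A := by
      rw [hT1, mul_smul_comm, smul_mul_assoc]
      have e7 : F (FMat.dg r y1 ((n : B) ^ a)) * (FMat.dg r (f x1) 1 * F A * FMat.dg r z 1) *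
          F (FMat.dg r x2 1) = (F (FMat.dg r y1 ((n : B) ^ a)) * FMat.dg r (f x1) 1) * F A *
            (FMat.dg r z 1 * F (FMat.dg r x2 1)) := by simp only [mul_assoc]
      rw [e7, e4, e5, smul_mul_assoc, one_mul, mul_one, smul_smul]
    rw [e1, e2, mul_smul_comm, smul_mul_assoc, e6, smul_smul, smul_smul]
    congr 1
    push_cast
    have e8 : (n : K) * ((c : K) * (N : K) ^ j) * (nu * (n : K) ^ a) =
        (nu * n) * ((c : K) * (n : K) ^ a * (N : K) ^ j) := by ring
    rw [e8, hnu, one_mul]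

end HHx
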