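import Pool.Agent.Lib.MP_181146_gt.HH.SpecH

/-!
# Project HH (Theorem H), module FPat: the patching lemma

Author helper43, after the docstring of `S_FPat`.
-/

set_option autoImplicit false

namespace HHx

open HEp HBx
open scoped TensorProduct

theorem sFPat (hFMat : S_FMat) : S_FPat := by
  intro B _ _ _ tf r a P _ _ tfP α α' β β' n N hn hN hnN h1 h1' h2 h2' x1 y1 x2 y2 hx1 hx2 hA
  cases r with
  | zero =>
    have hP : Subsingleton P := by
      refine subsingleton_of_forall_eq 0 fun x => tfP n x hn ?_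
      rw [← h1' x, Subsingleton.elim (β x) 0, map_zero]
    exact ⟨LinearEquiv.ofBijective (0 : P →ₗ[B] (Fin 0 → B))
      ⟨fun x y _ => Subsingleton.elim x y, fun y => ⟨0, Subsingleton.elim _ _⟩⟩⟩
  | succ r =>
    have hdet : LinearMap.det (β ∘ₗ α') = (LinearMap.toMatrix' (β ∘ₗ α')).det :=
      (LinearMap.det_toMatrix' (β ∘ₗ α')).symm
    obtain ⟨c, c1, j, b, E, E', H, H', hc, hc1, hcN, hc1N, hEE, hEE', hHH, hHH', hfac⟩ :=
      hFMat B tf r a (LinearMap.toMatrix' (β ∘ₗ α')) n N hn hN hnN x1 y1 x2 y2 hx1 hx2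
        (by rw [hA, hdet])
    have hmv : ∀ (s : ℤ) (M : Matrix (Fin (r + 1)) (Fin (r + 1)) B) (y : Fin (r + 1) → B),
        (s • M).mulVec y = s • M.mulVec y := by
      intro s M y
      rw [← Int.cast_smul_eq_zsmul B s M, Matrix.smul_mulVec, Int.cast_smul_eq_zsmul]
    have hcast : ∀ (s : ℤ) (y : Fin (r + 1) → B),
        ((s : ℤ) : Matrix (Fin (r + 1)) (Fin (r + 1)) B).mulVec y = s • y := by
      intro s y
      rw [← zsmul_one, hmv, Matrix.one_mulVec]
    have eE : ∀ y, E.mulVec (E'.mulVec y) = c1 • y := fun y => by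
      rw [Matrix.mulVec_mulVec, hEE, hcast]
    have eE' : ∀ y, E'.mulVec (E.mulVec y) = c1 • y := fun y => by
      rw [Matrix.mulVec_mulVec, hEE', hcast]
    have eH : ∀ y, H.mulVec (H'.mulVec y) = N ^ b • y := fun y => by
      rw [Matrix.mulVec_mulVec, hHH, hcast]
    have eH' : ∀ y, H'.mulVec (H.mulVec y) = N ^ b • y := fun y => by
      rw [Matrix.mulVec_mulVec, hHH', hcast]
    have eA : ∀ y, (c * N ^ j) • β (α' y) = n • E.mulVec (H.mulVec y) := fun y => by
      have h3 := congrArg (fun M : Matrix (Fin (r + 1)) (Fin (r + 1)) B => M.mulVec y) hfac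
      simp only [hmv, ← Matrix.mulVec_mulVec] at h3
      rw [← h3]
      congr 1
      exact (LinearMap.toMatrix'_mulVec (β ∘ₗ α') y).symm
    -- cancel `n`
    have hcancel : ∀ (s : ℤ) (x y : P), s ≠ 0 → s • x = s • y → x = y := by
      intro s x y hs h
      apply sub_eq_zero.1
      apply tfP s _ hs
      rw [smul_sub, h, sub_self]
    have k1 : ∀ y, (c * N ^ j) • α' y = α (E.mulVec (H.mulVec y)) := by
      intro y
      apply hcancel n _ _ hn
      rw [smul_comm, ← h1' (α' y), ← map_zsmul, eA, map_zsmul]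
    have k2 : ∀ y, (c * N ^ j) • α' (H'.mulVec y) = N ^ b • α (E.mulVec y) := by
      intro y
      rw [k1, eH, Matrix.mulVec_smul, map_zsmul]
    obtain ⟨u, v, huv⟩ := hcN.pow_right (n := b)
    set Φ : (Fin (r + 1) → B) →ₗ[B] P :=
      u • (α ∘ₗ Matrix.mulVecLin E) + (v * N ^ j) • (α' ∘ₗ Matrix.mulVecLin H') with hΦ
    have hΦa : ∀ y, Φ y = u • α (E.mulVec y) + (v * N ^ j) • α' (H'.mulVec y) := fun y => rfl
    have k3 : ∀ y, c • Φ y = α (E.mulVec y) := by
      intro y
      have h3 : c • Φ y = (u * c) • α (E.mulVec y) + v • ((c * N ^ j) • α' (H'.mulVec y)) := by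
        rw [hΦa]
        module
      rw [h3, k2, smul_smul, ← add_smul, huv, one_smul]
    have k4 : ∀ y, N ^ b • Φ y = N ^ j • α' (H'.mulVec y) := by
      intro y
      have h3 : N ^ b • Φ y = u • (N ^ b • α (E.mulVec y)) +
          (v * N ^ b * N ^ j) • α' (H'.mulVec y) := by
        rw [hΦa]
        module
      rw [h3, ← k2, smul_smul, ← add_smul]
      congr 1
      linear_combination (N ^ j) * huv
    have k5 : ∀ x, Φ (c • E'.mulVec (β x)) = (c1 * n) • x := by
      intro x
      rw [map_zsmul, k3, eE, map_zsmul, h1', smul_smul]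
    have k6 : ∀ x, Φ (H.mulVec (β' x)) = N ^ (j + 1) • x := by
      intro x
      apply hcancel (N ^ b) _ _ (pow_ne_zero _ hN)
      rw [k4, eH', map_zsmul, h2', smul_smul, smul_smul, smul_smul]
      congr 1
      ring
    have hcop : IsCoprime (c1 * n) (N ^ (j + 1)) := (hc1N.mul_left hnN).pow_right
    obtain ⟨u', v', huv'⟩ := hcop
    have hsurj : Function.Surjective Φ := by
      intro x
      refine ⟨u' • (c • E'.mulVec (β x)) + v' • H.mulVec (β' x), ?_⟩
      rw [map_add, map_zsmul Φ u', map_zsmul Φ v', k5, k6, smul_smul, smul_smul, ← add_smul, huv',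
        one_smul]
    have hinj : Function.Injective Φ := by
      rw [injective_iff_map_eq_zero]
      intro y hy
      have h3 : α (E.mulVec y) = 0 := by rw [← k3, hy, smul_zero]
      have h4 : (n * c1) • y = 0 := by
        have h5 : E'.mulVec (β (α (E.mulVec y))) = (n * c1) • y := by
          rw [h1, Matrix.mulVec_smul, eE', smul_smul]
        rw [← h5, h3, map_zero, Matrix.mulVec_zero]
      funext i
      exact tf _ _ (mul_ne_zero hn hc1) (congrFun h4 i)
    exact ⟨(LinearEquiv.ofBijective Φ ⟨hinj, hsurj⟩).symm⟩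

end HHx
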