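import Pool.Agent.Lib.MP_181146_gt.HH.SpecH

/-!
# Project HH, FSL: a predicate on matrices over a reduced artinian ring, closed under products and true for the
transvections, is true for all matrices of determinant `1`
-/

set_option autoImplicit false

namespace HHx

open HEp HBx
open scoped TensorProduct

namespace FSL

section alg

variable {F : Type} [Field F] {R : Type} [Ring R] [Algebra F R]

lemma alg1 (X Y : R) (h1 : X * X = 0) (h2 : X * Y * X = X) :
    (1 + X) * (1 + -Y) * (1 + X) = 1 - X * Y - Y * X + X - Y := by
  have h : (1 + X) * (1 + -Y) * (1 + X) =
      1 + X - Y - X * Y + X + X * X - Y * X - X * Y * X := by noncomm_ring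
  rw [h, h1, h2]
  abel

lemma alg2 (A B : R) (hA : A * A = 0) (hB : B * B = 0) (hABA : A * B * A = A)
    (hBAB : B * A * B = B) (a b : F) (hab : a * b = 1) :
    ((1 + a • A) * (1 + -(b • B)) * (1 + a • A)) * ((1 + -A) * (1 + -(-B)) * (1 + -A)) =
      1 + (a - 1) • (A * B) + (b - 1) • (B * A) := by
  have e1 : (a • A) * (b • B) = A * B := by
    rw [smul_mul_smul_comm, hab, one_smul]
  have e2 : (b • B) * (a • A) = B * A := by
    rw [smul_mul_smul_comm, mul_comm b a, hab, one_smul]
  rw [alg1 (a • A) (b • B) (by rw [smul_mul_smul_comm, hA, smul_zero]) (by
      rw [e1, mul_smul_comm, hABA]), alg1 (-A) (-B) (by rw [neg_mul_neg, hA]) (by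
      rw [neg_mul_neg, mul_neg, hABA]), e1, e2, neg_mul_neg, neg_mul_neg]
  have hP1 : (1 - A * B - B * A) * A = 0 := by
    have : (1 - A * B - B * A) * A = A - A * B * A - B * (A * A) := by noncomm_ring
    rw [this, hABA, hA, mul_zero, sub_self, sub_zero]
  have hP2 : (1 - A * B - B * A) * B = 0 := by
    have : (1 - A * B - B * A) * B = B - A * (B * B) - B * A * B := by noncomm_ring
    rw [this, hBAB, hB, mul_zero, sub_zero, sub_self]
  have hP3 : A * (1 - A * B - B * A) = 0 := by
    have : A * (1 - A * B - B * A) = A - A * A * B - A * B * A := by noncomm_ring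
    rw [this, hABA, hA, zero_mul, sub_zero, sub_self]
  have hP4 : B * (1 - A * B - B * A) = 0 := by
    have : B * (1 - A * B - B * A) = B - B * A * B - B * B * A := by noncomm_ring
    rw [this, hBAB, hB, zero_mul, sub_self, sub_zero]
  have hP5 : (1 - A * B - B * A) * (1 - A * B - B * A) = 1 - A * B - B * A := by
    have : (1 - A * B - B * A) * (1 - A * B - B * A) = (1 - A * B - B * A) -
        ((1 - A * B - B * A) * A) * B - ((1 - A * B - B * A) * B) * A := by noncomm_ring
    rw [this, hP1, hP2, zero_mul, zero_mul, sub_zero, sub_zero]
  have key : ∀ P : R, P * A = 0 → P * B = 0 → A * P = 0 → B * P = 0 → P * P = P →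
      (P + a • A - b • B) * (P + -A - -B) = P + a • (A * B) + b • (B * A) := by
    intro P p1 p2 p3 p4 p5
    have h : (P + a • A - b • B) * (P + -A - -B) = P * P - P * A + P * B + a • (A * P) -
        a • (A * A) + a • (A * B) - b • (B * P) + b • (B * A) - b • (B * B) := by
      simp only [mul_add, add_mul, sub_mul, mul_neg, smul_mul_assoc, sub_neg_eq_add]
      abel
    rw [h, p1, p2, p3, p4, p5, hA, hB]
    simp only [smul_zero, sub_zero, add_zero]
  rw [key _ hP1 hP2 hP3 hP4 hP5, sub_smul, sub_smul, one_smul, one_smul]
  abel

end alg

section field

variable {F : Type} [Field F] {r : ℕ} (Q : Matrix (Fin r) (Fin r) F → Prop) (h1 : Q 1)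
  (hm : ∀ M N, Q M → Q N → Q (M * N))
  (ht : ∀ (i j : Fin r) (c : F), i ≠ j → Q (Matrix.transvection i j c))

include hm ht

lemma two (i j : Fin r) (hij : i ≠ j) (a b : F) (hab : a * b = 1) :
    Q (Matrix.diagonal (fun l => if l = i then a else if l = j then b else 1)) := by
  have e : Matrix.diagonal (fun l => if l = i then a else if l = j then b else 1) =
      ((Matrix.transvection i j a) * (Matrix.transvection j i (-b)) * (Matrix.transvection i j a)) *
        ((Matrix.transvection i j (-1)) * (Matrix.transvection j i 1) *
          (Matrix.transvection i j (-1))) := by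
    have t1 : ∀ c : F, Matrix.transvection i j c = 1 + c • Matrix.single i j (1 : F) := by
      intro c
      rw [Matrix.transvection, Matrix.smul_single, smul_eq_mul, mul_one]
    have t2 : ∀ c : F, Matrix.transvection j i c = 1 + c • Matrix.single j i (1 : F) := by
      intro c
      rw [Matrix.transvection, Matrix.smul_single, smul_eq_mul, mul_one]
    rw [t1, t1, t2, t2, neg_smul, neg_smul, one_smul, one_smul]
    have h := alg2 (Matrix.single i j (1 : F)) (Matrix.single j i (1 : F))
      (by rw [Matrix.single_mul_single_of_ne _ _ _ _ hij.symm])
      (by rw [Matrix.single_mul_single_of_ne _ _ _ _ hij])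
      (by rw [Matrix.single_mul_single_same, Matrix.single_mul_single_same, mul_one, mul_one])
      (by rw [Matrix.single_mul_single_same, Matrix.single_mul_single_same, mul_one, mul_one])
      a b hab
    rw [neg_neg] at h
    rw [h, Matrix.single_mul_single_same, Matrix.single_mul_single_same, mul_one]
    ext k l
    simp only [Matrix.diagonal_apply, Matrix.add_apply, Matrix.one_apply, Matrix.smul_apply,
      Matrix.single_apply, smul_eq_mul]
    by_cases hkl : k = l
    · subst hkl
      by_cases hki : k = i
      · subst hki
        simp [hij, Ne.symm hij]
      · by_cases hkj : k = j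
        · subst hkj
          simp [hki, Ne.symm hki]
        · simp [hki, hkj, Ne.symm hki, Ne.symm hkj]
    · have h3 : ¬ (i = k ∧ i = l) := fun h => hkl (h.1.symm.trans h.2)
      have h4 : ¬ (j = k ∧ j = l) := fun h => hkl (h.1.symm.trans h.2)
      simp [hkl, h3, h4]
  rw [e]
  exact hm _ _ (hm _ _ (hm _ _ (ht _ _ _ hij) (ht _ _ _ hij.symm)) (ht _ _ _ hij))
    (hm _ _ (hm _ _ (ht _ _ _ hij) (ht _ _ _ hij.symm)) (ht _ _ _ hij))

include h1

lemma diag (s : Finset (Fin r)) : ∀ D : Fin r → F, (∀ i, i ∉ s → D i = 1) → ∏ i, D i = 1 →
    Q (Matrix.diagonal D) := by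
  classical
  induction s using Finset.induction_on with
  | empty =>
    intro D hD _
    have : D = fun _ => 1 := funext fun i => hD i (Finset.notMem_empty i)
    rw [this, Matrix.diagonal_one]
    exact h1
  | insert i s hi ih =>
    intro D hD hp
    rcases Finset.eq_empty_or_nonempty s with hs | ⟨j, hj⟩
    · refine ih D (fun l hl => ?_) hp
      by_cases hli : l = i
      · subst hli
        rw [← hp]
        symm
        refine Finset.prod_eq_single l (fun b _ hb => hD b ?_) (fun h => absurd (Finset.mem_univ _) h)
        rw [hs, Finset.insert_empty, Finset.mem_singleton]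
        exact hb
      · exact hD l (by
          rw [Finset.mem_insert]
          rintro (h | h)
          · exact hli h
          · exact hl h)
    · have hij : i ≠ j := fun h => hi (h ▸ hj)
      have hDi : D i ≠ 0 := by
        intro h0
        have : ∏ l, D l = 0 := Finset.prod_eq_zero (Finset.mem_univ i) h0
        rw [hp] at this
        exact one_ne_zero this
      have hmul : ∀ l, D l = (if l = i then D i else if l = j then (D i)⁻¹ else 1) *
          (if l = i then 1 else if l = j then D j * D i else D l) := by
        intro l
        by_cases hli : l = i
        · subst hli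
          simp
        · by_cases hlj : l = j
          · subst hlj
            rw [if_neg hli, if_pos rfl, if_neg hli, if_pos rfl, mul_comm (D l) (D i), ← mul_assoc,
              inv_mul_cancel₀ hDi, one_mul]
          · rw [if_neg hli, if_neg hlj, if_neg hli, if_neg hlj, one_mul]
      have hprod : ∏ l, (if l = i then D i else if l = j then (D i)⁻¹ else (1 : F)) = 1 := by
        have h2 : ∀ l, (if l = i then D i else if l = j then (D i)⁻¹ else (1 : F)) =
            (if l = i then D i else 1) * (if l = j then (D i)⁻¹ else 1) := by
          intro l
          by_cases hli : l = i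
          · subst hli
            rw [if_pos rfl, if_pos rfl, if_neg hij, mul_one]
          · rw [if_neg hli, if_neg hli, one_mul]
        rw [Finset.prod_congr rfl (fun l _ => h2 l), Finset.prod_mul_distrib,
          Finset.prod_ite_eq' Finset.univ i, Finset.prod_ite_eq' Finset.univ j,
          if_pos (Finset.mem_univ _), if_pos (Finset.mem_univ _), mul_inv_cancel₀ hDi]
      have hD2 : Q (Matrix.diagonal (fun l => if l = i then 1 else if l = j then D j * D i else D l)) := by
        refine ih _ (fun l hl => ?_) ?_
        · by_cases hli : l = i
          · rw [if_pos hli]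
          · have hlj : l ≠ j := fun h => hl (h ▸ hj)
            rw [if_neg hli, if_neg hlj]
            exact hD l (by
              rw [Finset.mem_insert]
              rintro (h | h)
              · exact hli h
              · exact hl h)
        · have h3 := hp
          rw [Finset.prod_congr rfl (fun l _ => hmul l), Finset.prod_mul_distrib, hprod,
            one_mul] at h3
          exact h3
      have hD1 := two Q hm ht i j hij (D i) (D i)⁻¹ (mul_inv_cancel₀ hDi)
      have h4 := hm _ _ hD1 hD2
      rw [Matrix.diagonal_mul_diagonal] at h4
      have h5 : D = fun l => (if l = i then D i else if l = j then (D i)⁻¹ else 1) *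
          (if l = i then 1 else if l = j then D j * D i else D l) := funext hmul
      rw [h5]
      exact h4

lemma fld (M : Matrix (Fin r) (Fin r) F) (hM : M.det = 1) : Q M := by
  refine Matrix.diagonal_transvection_induction Q M (fun D hD => ?_) (fun t => ?_) hm
  · refine diag Q h1 hm ht Finset.univ D (fun i hi => absurd (Finset.mem_univ i) hi) ?_
    rw [← Matrix.det_diagonal, hD, hM]
  · exact ht t.i t.j t.c t.hij

end field

end FSL

open FSL

theorem sFSL : S_FSL := by
  classical
  intro K _ _ _ r Q h1 hm ht M hM
  -- the components
  let Fd : MaximalSpectrum K → Type := fun m => K ⧸ m.asIdeal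
  let _ : ∀ m, Field (Fd m) := fun m => Ideal.Quotient.field m.asIdeal
  let π : ∀ m, K →+* Fd m := fun m => Ideal.Quotient.mk m.asIdeal
  have hinj : ∀ x y : K, (∀ m, π m x = π m y) → x = y := by
    intro x y h
    apply (IsArtinianRing.equivPi K).injective
    funext m
    rw [IsArtinianRing.equivPi_apply, IsArtinianRing.equivPi_apply]
    exact h m
  have hsurj : ∀ f : ∀ m, Fd m, ∃ x : K, ∀ m, π m x = f m := by
    intro f
    obtain ⟨x, hx⟩ := (IsArtinianRing.equivPi K).surjective f
    refine ⟨x, fun m => ?_⟩
    rw [← hx, IsArtinianRing.equivPi_apply]
  have hext : ∀ A B : Matrix (Fin r) (Fin r) K, (∀ m, A.map (π m) = B.map (π m)) → A = B := by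
    intro A B h
    ext i j
    refine hinj _ _ fun m => ?_
    exact congrFun (congrFun (h m) i) j
  have hex : ∀ A : ∀ m, Matrix (Fin r) (Fin r) (Fd m), ∃ B : Matrix (Fin r) (Fin r) K,
      ∀ m, B.map (π m) = A m := by
    intro A
    choose B hB using fun i j => hsurj (fun m => A m i j)
    exact ⟨fun i j => B i j, fun m => by
      ext i j
      exact hB i j m⟩
  choose G hG using hex
  -- matrices which are trivial outside m
  have hone : ∀ m, (1 : Matrix (Fin r) (Fin r) K).map (π m) = 1 := fun m =>
    Matrix.map_one _ (map_zero _) (map_one _)
  have step : ∀ (m : MaximalSpectrum K) (A : Matrix (Fin r) (Fin r) (Fd m)), A.det = 1 →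
      Q (G (Function.update (fun _ => 1) m A)) := by
    intro m A hA
    refine fld (fun A => Q (G (Function.update (fun _ => 1) m A))) ?_ ?_ ?_ A hA
    · have : G (Function.update (fun _ => 1) m 1) = 1 := by
        refine hext _ _ fun m' => ?_
        rw [hG, hone]
        by_cases h : m' = m
        · subst h
          rw [Function.update_self]
        · rw [Function.update_of_ne h]
      change Q (G (Function.update (fun _ => 1) m 1))
      rw [this]
      exact h1
    · intro A B hA hB
      have : G (Function.update (fun _ => 1) m (A * B)) =
          G (Function.update (fun _ => 1) m A) * G (Function.update (fun _ => 1) m B) := by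
        refine hext _ _ fun m' => ?_
        rw [Matrix.map_mul, hG, hG, hG]
        by_cases h : m' = m
        · subst h
          rw [Function.update_self, Function.update_self, Function.update_self]
        · rw [Function.update_of_ne h, Function.update_of_ne h, Function.update_of_ne h, one_mul]
      change Q (G (Function.update (fun _ => 1) m (A * B)))
      rw [this]
      exact hm _ _ hA hB
    · intro i j c hij
      obtain ⟨x, hx⟩ := hsurj (Function.update (fun _ => 0) m c)
      have : G (Function.update (fun _ => 1) m (Matrix.transvection i j c)) =
          Matrix.transvection i j x := by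
        refine hext _ _ fun m' => ?_
        have h2 : (Matrix.transvection i j x).map (π m') = Matrix.transvection i j (π m' x) := by
          rw [Matrix.transvection, Matrix.transvection, Matrix.map_add _ (map_add _), hone]
          congr 1
          ext k l
          rw [Matrix.map_apply, Matrix.single_apply, Matrix.single_apply]
          split
          · rfl
          · exact map_zero _
        rw [hG, h2, hx]
        by_cases h : m' = m
        · subst h
          rw [Function.update_self, Function.update_self]
        · rw [Function.update_of_ne h, Function.update_of_ne h, Matrix.transvection_zero]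
      change Q (G (Function.update (fun _ => 1) m (Matrix.transvection i j c)))
      rw [this]
      exact ht i j x hij
  -- the product over all components
  have fin : ∀ s : Finset (MaximalSpectrum K),
      Q (G (fun m => if m ∈ s then M.map (π m) else 1)) := by
    intro s
    induction s using Finset.induction_on with
    | empty =>
      have : G (fun m => if m ∈ (∅ : Finset (MaximalSpectrum K)) then M.map (π m) else 1) = 1 := by
        refine hext _ _ fun m' => ?_
        rw [hG, hone, if_neg (Finset.notMem_empty _)]
      rw [this]
      exact h1
    | insert m s hms ih =>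
      have : G (fun m' => if m' ∈ insert m s then M.map (π m') else 1) =
          G (Function.update (fun _ => 1) m (M.map (π m))) *
            G (fun m' => if m' ∈ s then M.map (π m') else 1) := by
        refine hext _ _ fun m' => ?_
        rw [Matrix.map_mul, hG, hG, hG]
        by_cases h : m' = m
        · subst h
          rw [Function.update_self, if_pos (Finset.mem_insert_self _ _), if_neg hms, mul_one]
        · rw [Function.update_of_ne h, one_mul]
          by_cases h2 : m' ∈ s
          · rw [if_pos h2, if_pos (Finset.mem_insert_of_mem h2)]
          · rw [if_neg h2, if_neg (by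
              rw [Finset.mem_insert]
              rintro (h3 | h3)
              · exact h h3
              · exact h2 h3)]
      rw [this]
      refine hm _ _ (step m _ ?_) ih
      rw [← RingHom.mapMatrix_apply, ← RingHom.map_det, hM, map_one]
  have _ : Fintype (MaximalSpectrum K) := Fintype.ofFinite _
  have hfin := fin Finset.univ
  have : G (fun m => if m ∈ (Finset.univ : Finset (MaximalSpectrum K)) then M.map (π m) else 1) =
      M := by
    refine hext _ _ fun m' => ?_
    rw [hG, if_pos (Finset.mem_univ _)]
  rw [this] at hfin
  exact hfin

end HHx
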