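import Pool.Agent.Lib.MP_181146_gt.HH.SpecH

/-!
# Project HH, module `GLen`: the length of `(V / s^k V)` at the prime ideals minimal over `s`
-/

set_option autoImplicit false

namespace HHx

open HEp HBx
open scoped TensorProduct

/-- The localization of `V / s^k V`. -/
private lemma glen_equiv (hLzE : S_LzE) (hLzQ : S_LzQ) (S : Type) [CommRing S] (T : Submonoid S)
    (V : Type) [AddCommGroup V] [Module S V] (s : S) (k : ℕ) :
    Nonempty (LocalizedModule T (V ⧸ LinearMap.range (s ^ k • (LinearMap.id : V →ₗ[S] V)))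
      ≃ₗ[Localization T] (LocalizedModule T V ⧸ LinearMap.range
        (algebraMap S (Localization T) s ^ k •
          (LinearMap.id : LocalizedModule T V →ₗ[Localization T] LocalizedModule T V)))) := by
  obtain ⟨b, -⟩ := (hLzE S T V V (LocalizedModule T V) (LocalizedModule T V)).1
  have h2 : Nonempty (Lz T (V ⧸ LinearMap.range (s ^ k • (LinearMap.id : V →ₗ[S] V)))
      (LocalizedModule T V ⧸ LinearMap.range (algebraMap S (Localization T) s ^ k •
        (LinearMap.id : LocalizedModule T V →ₗ[Localization T] LocalizedModule T V)))) := by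
    refine (hLzQ S T V (LocalizedModule T V) b ⊤
      (LinearMap.range (s ^ k • (LinearMap.id : V →ₗ[S] V))) ⊤
      (LinearMap.range (algebraMap S (Localization T) s ^ k •
        (LinearMap.id : LocalizedModule T V →ₗ[Localization T] LocalizedModule T V)))
      (fun _ _ => Submodule.mem_top) (fun v _ => ?_) (fun z hz => ?_) (fun v hv => ?_)).2
    · obtain ⟨t, ht, u, hu⟩ := b.surj v
      exact ⟨t, ht, u, Submodule.mem_top, hu⟩
    · obtain ⟨v, rfl⟩ := hz
      refine ⟨b.l v, ?_⟩
      rw [LinearMap.smul_apply, LinearMap.id_apply, LinearMap.smul_apply, LinearMap.id_apply,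
        b.sl, map_pow]
    · obtain ⟨w, rfl⟩ := hv
      obtain ⟨t, ht, u, hu⟩ := b.surj w
      refine ⟨t, ht, s ^ k • u, ⟨u, rfl⟩, ?_⟩
      rw [LinearMap.smul_apply, LinearMap.id_apply, smul_comm, hu, b.sl, map_pow]
  obtain ⟨b2⟩ := h2
  obtain ⟨b1, -⟩ := (hLzE S T (V ⧸ LinearMap.range (s ^ k • (LinearMap.id : V →ₗ[S] V)))
    (V ⧸ LinearMap.range (s ^ k • (LinearMap.id : V →ₗ[S] V)))
    (LocalizedModule T (V ⧸ LinearMap.range (s ^ k • (LinearMap.id : V →ₗ[S] V))))
    (LocalizedModule T V ⧸ LinearMap.range (algebraMap S (Localization T) s ^ k •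
        (LinearMap.id : LocalizedModule T V →ₗ[Localization T] LocalizedModule T V)))).1
  exact ((hLzE S T _ _ _ _).2 b1 b2 LinearMap.id).2.2 Function.bijective_id

theorem sGLen (hALoc : S_ALoc) (hBOrd : S_BOrd) (hLzE : S_LzE) (hLzQ : S_LzQ) : S_GLen := by
  intro S B _ _ s φ hg q _ hq V _ _ _ _
  obtain ⟨⟨hdom, hdvr⟩, hirr, -, -⟩ := hALoc S B s φ hg q hq
  have hfin : Module.Finite (Lq φ q) (Mq φ q V) := inferInstance
  have hproj : Module.Projective (Lq φ q) (Mq φ q V) :=
    Module.projective_of_isLocalizedModule (q.comap φ).primeCompl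
      (LocalizedModule.mkLinearMap (q.comap φ).primeCompl V)
  have hfree : Module.Free (Lq φ q) (Mq φ q V) := Module.free_of_flat_of_isLocalRing
  refine ⟨hfin, hfree, fun k => ?_⟩
  obtain ⟨e⟩ := glen_equiv hLzE hLzQ S (q.comap φ).primeCompl V s k
  rw [e.length_eq]
  exact (hBOrd (Lq φ q) (algebraMap S (Lq φ q) s) hirr k).2 (Mq φ q V)

end HHx
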