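import Pool.Agent.Lib.MP_181146_gt.HH.SpecH

/-!
# Project HH, module GLoc: the length of the localized cokernel of `D + h`
-/

set_option autoImplicit false

namespace HHx

open HEp HBx
open scoped TensorProduct

theorem sGLoc (hALoc : S_ALoc) (hLCx : S_LCx) (hCFin : S_CFin) (hCZR : S_CZR)
    (hGLen : S_GLen) : S_GLoc := by
  intro S B _ _ s φ hg q _ hq U _ _ _ _ k K hK D h hc hh hH hE
  obtain ⟨⟨hdom, hdvr⟩, hirr, -, -⟩ := hALoc S B s φ hg q hq
  have := hdom
  have := hdvr
  obtain ⟨D', h', hc', hl, hl'⟩ := hLCx S (q.comap φ).primeCompl U K hK (s ^ k) D h hc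
  have h1 : ∀ i, Module.Finite (Lq φ q) (LocalizedModule (q.comap φ).primeCompl (U i)) :=
    fun i => (hGLen S B s φ hg q hq (U i)).1
  have h2 : ∀ i, Module.Free (Lq φ q) (LocalizedModule (q.comap φ).primeCompl (U i)) :=
    fun i => (hGLen S B s φ hg q hq (U i)).2.1
  have hK' : ∀ i, 2 * K ≤ i → Subsingleton (LocalizedModule (q.comap φ).primeCompl (U i)) := by
    intro i hi
    have := hK i hi
    refine ⟨fun a b => ?_⟩
    induction a using LocalizedModule.induction_on with
    | _ m t =>
      induction b using LocalizedModule.induction_on with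
      | _ m' t' =>
        rw [LocalizedModule.mk_eq]
        exact ⟨1, Subsingleton.elim _ _⟩
  rw [map_pow] at hc'
  obtain ⟨-, z2, z3⟩ := hCZR (Lq φ q) (algebraMap S (Lq φ q) s) hirr k
    (fun i => LocalizedModule (q.comap φ).primeCompl (U i)) D' h' hc'
  obtain ⟨ρ, r1, r2⟩ := hCFin (Lq φ q) (algebraMap S (Lq φ q) s) hirr k
    (fun i => LocalizedModule (q.comap φ).primeCompl (U i)) K hK' D' h' hc' hh
    (fun i => Module.finrank (Lq φ q)
      (Zc (V := fun i => LocalizedModule (q.comap φ).primeCompl (U i)) D' i))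
    (fun i => (hl' i).symm.trans (hH i)) z2 z3
  refine ⟨fun i => Module.finrank (Lq φ q)
      (Zc (V := fun i => LocalizedModule (q.comap φ).primeCompl (U i)) D' i), z2, z3, ?_⟩
  refine hl.trans (r1.trans ?_)
  have e : ρ = k * ∑ j ∈ Finset.range K, Module.finrank (Lq φ q)
      (Zc (V := fun i => LocalizedModule (q.comap φ).primeCompl (U i)) D' (2 * j)) := by
    omega
  rw [← e]

end HHx
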