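import Pool.Agent.Lib.MP_181146_gt.HH.SpecH

/-!
# Project HH (Theorem H), module GMain: Theorem H for complexes indexed by `ℕ`
-/

set_option autoImplicit false

namespace HHx

open HEp HBx
open scoped TensorProduct

private theorem GMain_pow {A M N : Type} [CommRing A] [AddCommGroup M] [Module A M]
    [AddCommGroup N] [Module A N] (f : Module.End A M) (g : Module.End A N) (n : ℕ) :
    (f.prodMap g : Module.End A (M × N)) ^ n = (f ^ n).prodMap (g ^ n) := by
  induction n with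
  | zero =>
    apply LinearMap.ext
    intro x
    rfl
  | succ n ih =>
    rw [pow_succ, ih, pow_succ, pow_succ]
    apply LinearMap.ext
    intro x
    rfl

private theorem GMain_nil {A M N L : Type} [CommRing A] [AddCommGroup M] [Module A M]
    [AddCommGroup N] [Module A N] [AddCommGroup L] [Module A L] (f : Module.End A M)
    (hf : IsNilpotent f) :
    IsNilpotent (((f.prodMap (0 : Module.End A N) : Module.End A (M × N)).prodMap
      (0 : Module.End A L)) : Module.End A ((M × N) × L)) := by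
  obtain ⟨m, hm⟩ := hf
  refine ⟨m + 1, ?_⟩
  rw [GMain_pow, GMain_pow, pow_succ f, hm, zero_mul, zero_pow (Nat.succ_ne_zero m),
    zero_pow (Nat.succ_ne_zero m)]
  apply LinearMap.ext
  intro x
  rfl

private theorem GMain_conj {A M N : Type} [CommRing A] [AddCommGroup M] [Module A M]
    [AddCommGroup N] [Module A N] (e : M ≃ₗ[A] N) (f : Module.End A M) (hf : IsNilpotent f) :
    IsNilpotent (e.toLinearMap ∘ₗ f ∘ₗ e.symm.toLinearMap : Module.End A N) := by
  obtain ⟨m, hm⟩ := hf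
  refine ⟨m, ?_⟩
  have h1 : ∀ n : ℕ, (e.toLinearMap ∘ₗ f ∘ₗ e.symm.toLinearMap : Module.End A N) ^ n =
      e.toLinearMap ∘ₗ (f ^ n) ∘ₗ e.symm.toLinearMap := by
    intro n
    induction n with
    | zero =>
      apply LinearMap.ext
      intro x
      change x = e (e.symm x)
      rw [LinearEquiv.apply_symm_apply]
    | succ n ih =>
      rw [pow_succ, ih]
      apply LinearMap.ext
      intro x
      change e ((f ^ n) (e.symm (e (f (e.symm x))))) = e ((f ^ (n + 1)) (e.symm x))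
      rw [LinearEquiv.symm_apply_apply, pow_succ]
      rfl
  rw [h1, hm]
  apply LinearMap.ext
  intro x
  change e ((0 : Module.End A M) (e.symm x)) = 0
  rw [LinearMap.zero_apply, map_zero]

/-- The reduction of a product. -/
private def GMain_prod {S B : Type} [CommRing S] [CommRing B] {s : S} {φ : S →+* B}
    {U Ub U' Ub' : Type} [AddCommGroup U] [Module S U] [AddCommGroup Ub] [Module B Ub]
    [AddCommGroup U'] [Module S U'] [AddCommGroup Ub'] [Module B Ub'] (b : Rd φ s U Ub)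
    (b' : Rd φ s U' Ub') : Rd φ s (U × U') (Ub × Ub') where
  c := b.c.prodMap b'.c
  sl a x := Prod.ext (b.sl a x.1) (b'.sl a x.2)
  surj := by
    rintro ⟨x, y⟩
    obtain ⟨u, hu⟩ := b.surj x
    obtain ⟨v, hv⟩ := b'.surj y
    exact ⟨(u, v), Prod.ext hu hv⟩
  ker := by
    rintro ⟨x, y⟩
    constructor
    · intro h
      obtain ⟨u, hu⟩ := (b.ker x).1 (congrArg Prod.fst h)
      obtain ⟨v, hv⟩ := (b'.ker y).1 (congrArg Prod.snd h)
      exact ⟨(u, v), Prod.ext hu hv⟩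
    · rintro ⟨⟨u, v⟩, h⟩
      exact Prod.ext ((b.ker x).2 ⟨u, congrArg Prod.fst h⟩)
        ((b'.ker y).2 ⟨v, congrArg Prod.snd h⟩)

/-- The reduction of an infinite product. -/
private noncomputable def GMain_pi {S B : Type} [CommRing S] [CommRing B] {s : S} {φ : S →+* B}
    {U Ub : ℕ → Type} [∀ i, AddCommGroup (U i)] [∀ i, Module S (U i)]
    [∀ i, AddCommGroup (Ub i)] [∀ i, Module B (Ub i)] (b : ∀ i, Rd φ s (U i) (Ub i)) :
    Rd φ s (∀ i, U i) (∀ i, Ub i) where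
  c :=
    { toFun := fun x i => (b i).c (x i)
      map_zero' := funext fun i => map_zero (b i).c
      map_add' := fun x y => funext fun i => map_add (b i).c (x i) (y i) }
  sl a x := funext fun i => (b i).sl a (x i)
  surj := by
    intro x
    choose u hu using fun i => (b i).surj (x i)
    exact ⟨u, funext hu⟩
  ker := by
    intro x
    constructor
    · intro h
      choose u hu using fun i => ((b i).ker (x i)).1 (congrFun h i)
      exact ⟨u, funext hu⟩
    · rintro ⟨u, h⟩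
      exact funext fun i => ((b i).ker (x i)).2 ⟨u i, congrFun h i⟩

/-- Theorem H for complexes indexed by `ℕ`. -/
theorem sGMain (hDGh : S_DGh) (hCYX : S_CYX) (hCFn : S_CFn) (hGLoc : S_GLoc) (hGRk : S_GRk)
    (hGLen : S_GLen) (hLCk : S_LCk) (hERd : S_ERd) (hECore : S_ECore) : S_GMain := by
  intro S B _ _ s φ hg U Ub _ _ _ _ _ _ _ _ K hK b D dd hs hχ
  -- the null homotopy
  obtain ⟨h, hc⟩ := hDGh S U K hK s D dd hs
  obtain ⟨k, hk⟩ : ∃ k, k = 2 * K := ⟨_, rfl⟩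
  rw [← hk] at hc
  -- the ranks
  have hz1 : ∀ q : Ideal B, ∃ z : ℕ → ℕ, ∀ [q.IsPrime], q ∈ minimalPrimes B →
      z 0 = rq φ q (U 0) ∧ (∀ i, z (i + 1) + z i = rq φ q (U (i + 1))) ∧
      Module.length (Lq φ q) (Mq φ q (Od U ⧸ LinearMap.range (XX D h))) =
        (k * ∑ j ∈ Finset.range K, z (2 * j) : ℕ) := by
    intro q
    by_cases hp : q.IsPrime
    · by_cases hq : q ∈ minimalPrimes B
      · have := hp
        obtain ⟨hh, hH, hE⟩ := hχ q hq
        obtain ⟨z, h1, h2, h3⟩ := hGLoc S B s φ hg q hq U k K hK D h hc hh hH hE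
        exact ⟨z, fun _ => ⟨h1, h2, h3⟩⟩
      · exact ⟨0, fun h => absurd h hq⟩
    · refine ⟨0, ?_⟩
      intro h
      exact absurd h hp
  choose zz hzz using hz1
  obtain ⟨V, c, hV⟩ := hGRk S B φ U K zz (fun q _ hq => (hzz q hq).1)
    (fun q _ hq => (hzz q hq).2.1)
  -- finiteness
  obtain ⟨-, -, hF1, hF2, -⟩ := hCFn S U K hK
  obtain ⟨hFe, hFo⟩ := hF1 inferInstance
  obtain ⟨hPe, hPo⟩ := hF2 inferInstance
  obtain ⟨V2, r, ⟨e⟩⟩ := exists_compl (R := S) (Od U × V.M)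
  -- the operators
  obtain ⟨hN1, hN2, -⟩ := hCYX S U K hK (s ^ k) D h h hc hc
  obtain ⟨N1, hN1e⟩ : ∃ N1 : Module.End S (Ev U), N1 = (YY D h ∘ₗ XX D h : Ev U →ₗ[S] Ev U) -
    s ^ k • (LinearMap.id : Ev U →ₗ[S] Ev U) := ⟨_, rfl⟩
  obtain ⟨N2, hN2e⟩ : ∃ N2 : Module.End S (Od U), N2 = (XX D h ∘ₗ YY D h : Od U →ₗ[S] Od U) -
    s ^ k • (LinearMap.id : Od U →ₗ[S] Od U) := ⟨_, rfl⟩
  rw [← hN1e] at hN1
  rw [← hN2e] at hN2
  have hN1x : ∀ x, YY D h (XX D h x) = s ^ k • x + N1 x := by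
    intro x
    rw [hN1e]
    change _ = s ^ k • x + (YY D h (XX D h x) - s ^ k • x)
    abel
  have hN2x : ∀ x, XX D h (YY D h x) = s ^ k • x + N2 x := by
    intro x
    rw [hN2e]
    change _ = s ^ k • x + (XX D h (YY D h x) - s ^ k • x)
    abel
  let X0 : (Ev U × V.M) × V2.M →ₗ[S] (Od U × V.M) × V2.M :=
    ((XX D h).prodMap (s ^ k • (LinearMap.id : V.M →ₗ[S] V.M))).prodMap
      (s ^ 0 • (LinearMap.id : V2.M →ₗ[S] V2.M))
  let Y0 : (Od U × V.M) × V2.M →ₗ[S] (Ev U × V.M) × V2.M :=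
    ((YY D h).prodMap (LinearMap.id : V.M →ₗ[S] V.M)).prodMap
      (s ^ k • (LinearMap.id : V2.M →ₗ[S] V2.M))
  let X : (Ev U × V.M) × V2.M →ₗ[S] (Fin r → S) := e.toLinearMap ∘ₗ X0
  let Y : (Fin r → S) →ₗ[S] (Ev U × V.M) × V2.M := Y0 ∘ₗ e.symm.toLinearMap
  let ν : Module.End S ((Ev U × V.M) × V2.M) :=
    (N1.prodMap (0 : Module.End S V.M) : Module.End S (Ev U × V.M)).prodMap
      (0 : Module.End S V2.M)
  let ν0 : Module.End S ((Od U × V.M) × V2.M) :=
    (N2.prodMap (0 : Module.End S V.M) : Module.End S (Od U × V.M)).prodMap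
      (0 : Module.End S V2.M)
  let ν' : Module.End S (Fin r → S) := e.toLinearMap ∘ₗ ν0 ∘ₗ e.symm.toLinearMap
  have hν : IsNilpotent ν := GMain_nil N1 hN1
  have hν' : IsNilpotent ν' := GMain_conj e ν0 (GMain_nil N2 hN2)
  have hYX : ∀ x, Y (X x) = s ^ k • x + ν x := by
    rintro ⟨⟨u, v⟩, w⟩
    change Y0 (e.symm (e (X0 ((u, v), w)))) = _
    rw [LinearEquiv.symm_apply_apply]
    refine Prod.ext (Prod.ext ?_ ?_) ?_
    · exact hN1x u
    · change s ^ k • v = s ^ k • v + 0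
      rw [add_zero]
    · change s ^ k • (s ^ 0 • w) = s ^ k • w + 0
      rw [add_zero, pow_zero, one_smul]
  have hX0Y0 : ∀ x, X0 (Y0 x) = s ^ k • x + ν0 x := by
    rintro ⟨⟨u, v⟩, w⟩
    refine Prod.ext (Prod.ext ?_ ?_) ?_
    · exact hN2x u
    · change s ^ k • v = s ^ k • v + 0
      rw [add_zero]
    · change s ^ 0 • (s ^ k • w) = s ^ k • w + 0
      rw [add_zero, pow_zero, one_smul]
  have hXY : ∀ x, X (Y x) = s ^ k • x + ν' x := by
    intro x
    change e (X0 (Y0 (e.symm x))) = s ^ k • x + e (ν0 (e.symm x))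
    rw [hX0Y0, map_add, map_smul, LinearEquiv.apply_symm_apply]
  have hρ : ∀ (q : Ideal B) [q.IsPrime], q ∈ minimalPrimes B →
      Module.length (Lq φ q) (Mq φ q ((Fin r → S) ⧸ LinearMap.range X)) = (k * c : ℕ) := by
    intro q _ hq
    have h1 := (hLCk S (q.comap φ).primeCompl ((Ev U × V.M) × V2.M) ((Od U × V.M) × V2.M)
      ((Ev U × V.M) × V2.M) (Fin r → S) X0 0).2 (LinearEquiv.refl S _) e
    have h2 := (hLCk S (q.comap φ).primeCompl (Ev U × V.M) (Od U × V.M) V2.M V2.M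
      ((XX D h).prodMap (s ^ k • (LinearMap.id : V.M →ₗ[S] V.M)))
      (s ^ 0 • (LinearMap.id : V2.M →ₗ[S] V2.M))).1
    have h3 := (hLCk S (q.comap φ).primeCompl (Ev U) (Od U) V.M V.M (XX D h)
      (s ^ k • (LinearMap.id : V.M →ₗ[S] V.M))).1
    have h4 := (hzz q hq).2.2
    have h5 := (hGLen S B s φ hg q hq V.M).2.2 k
    have h6 := (hGLen S B s φ hg q hq V2.M).2.2 0
    have h7 : e.toLinearMap ∘ₗ X0 ∘ₗ (LinearEquiv.refl S ((Ev U × V.M) × V2.M)).toLinearMap = X :=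
      rfl
    rw [h7] at h1
    refine h1.trans (h2.trans ?_)
    rw [h3]
    change Module.length (Lq φ q) (Mq φ q (Od U ⧸ LinearMap.range (XX D h))) +
      Module.length (Lq φ q) (Mq φ q (V.M ⧸ LinearMap.range
        (s ^ k • (LinearMap.id : V.M →ₗ[S] V.M)))) +
      Module.length (Lq φ q) (Mq φ q (V2.M ⧸ LinearMap.range
        (s ^ 0 • (LinearMap.id : V2.M →ₗ[S] V2.M)))) = _
    rw [h4, h5, h6, ← hV q hq]
    push_cast
    ring
  -- reductions
  obtain ⟨hR1, -, hR3, hR4⟩ := hERd S B s φ hg.surj hg.ker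
  obtain ⟨Vb, ⟨bV⟩⟩ := hR1 V.M
  obtain ⟨V2b, ⟨bV2⟩⟩ := hR1 V2.M
  have bEv : Rd φ s (Ev U) (Ev Ub) :=
    GMain_pi (U := fun j => U (2 * j)) (Ub := fun j => Ub (2 * j)) (fun j => b (2 * j))
  have bOd : Rd φ s (Od U) (Od Ub) :=
    GMain_pi (U := fun j => U (2 * j + 1)) (Ub := fun j => Ub (2 * j + 1)) (fun j => b (2 * j + 1))
  obtain ⟨e1⟩ := hECore S B s φ hg ((Ev U × V.M) × V2.M) k r (k * c) X Y ν hν hYX ν' hν' hXY hρ
    ((Ev Ub × Vb.M) × V2b.M) (GMain_prod (GMain_prod bEv bV) bV2)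
  obtain ⟨bS, -⟩ := hR4 r
  obtain ⟨e2⟩ := (hR3 _ _ _ _ (GMain_prod (GMain_prod bOd bV) bV2) bS).2.1 e
  -- the classes
  have hKb : ∀ i, 2 * K ≤ i → Subsingleton (Ub i) := by
    intro i hi
    have := hK i hi
    exact (b i).surj.subsingleton
  obtain ⟨⟨f1, -⟩, ⟨f2, -⟩, hG1, hG2, -⟩ := hCFn B Ub K hKb
  obtain ⟨hGe, hGo⟩ := hG1 inferInstance
  obtain ⟨hQe, hQo⟩ := hG2 inferInstance
  have c1 : cl B (Ev Ub) + cl B Vb.M + cl B V2b.M = 0 := by
    rw [← cl_prod, ← cl_prod, ← cl_free r]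
    exact cl_congr e1
  have c2 : cl B (Od Ub) + cl B Vb.M + cl B V2b.M = 0 := by
    rw [← cl_prod, ← cl_prod, ← cl_free r]
    exact cl_congr e2
  rw [← cl_congr f1, ← cl_congr f2]
  have c3 : cl B (Ev Ub) + cl B Vb.M + cl B V2b.M = cl B (Od Ub) + cl B Vb.M + cl B V2b.M := by
    rw [c1, c2]
  exact add_right_cancel (add_right_cancel c3)

end HHx
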