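import Pool.Agent.Lib.MP_181146_gt.HH.SpecH

/-!
# Project HH, module LCk: lengths of localized cokernels
-/

set_option autoImplicit false

namespace HHx

open HEp HBx
open scoped TensorProduct

namespace LCk

private theorem ex {S : Type} [CommRing S] {Q Q' U V : Type} [AddCommGroup Q] [Module S Q]
    [AddCommGroup Q'] [Module S Q'] [AddCommGroup U] [Module S U] [AddCommGroup V] [Module S V]
    (X : U →ₗ[S] Q) (X' : V →ₗ[S] Q') :
    ∃ (f : (Q ⧸ LinearMap.range X) →ₗ[S] ((Q × Q') ⧸ LinearMap.range (X.prodMap X')))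
      (g : ((Q × Q') ⧸ LinearMap.range (X.prodMap X')) →ₗ[S] (Q' ⧸ LinearMap.range X')),
      Function.Injective f ∧ Function.Surjective g ∧ Function.Exact f g := by
  have h1 : LinearMap.range X ≤
      (LinearMap.range (X.prodMap X')).comap (LinearMap.inl S Q Q') := by
    rintro _ ⟨x, rfl⟩
    exact ⟨(x, 0), Prod.ext rfl (map_zero X')⟩
  have h2 : LinearMap.range (X.prodMap X') ≤
      (LinearMap.range X').comap (LinearMap.snd S Q Q') := by
    rintro _ ⟨x, rfl⟩
    exact ⟨x.2, rfl⟩
  refine ⟨Submodule.mapQ _ _ (LinearMap.inl S Q Q') h1, Submodule.mapQ _ _ (LinearMap.snd S Q Q') h2,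
    ?_, ?_, ?_⟩
  · rw [injective_iff_map_eq_zero]
    intro z hz
    obtain ⟨q, rfl⟩ := Submodule.Quotient.mk_surjective _ z
    rw [Submodule.mapQ_apply, Submodule.Quotient.mk_eq_zero] at hz
    obtain ⟨x, hx⟩ := hz
    rw [Submodule.Quotient.mk_eq_zero]
    exact ⟨x.1, congrArg Prod.fst hx⟩
  · intro z
    obtain ⟨q, rfl⟩ := Submodule.Quotient.mk_surjective _ z
    exact ⟨Submodule.Quotient.mk (0, q), by rw [Submodule.mapQ_apply]; rfl⟩
  · intro z
    obtain ⟨q, rfl⟩ := Submodule.Quotient.mk_surjective _ z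
    constructor
    · intro h
      rw [Submodule.mapQ_apply, Submodule.Quotient.mk_eq_zero] at h
      obtain ⟨x, hx⟩ := h
      refine ⟨Submodule.Quotient.mk q.1, ?_⟩
      rw [Submodule.mapQ_apply, Submodule.Quotient.eq]
      refine ⟨(0, -x), ?_⟩
      have hx' : X' x = q.2 := hx
      apply Prod.ext
      · change X 0 = q.1 - q.1
        rw [map_zero, sub_self]
      · change X' (-x) = 0 - q.2
        rw [map_neg, hx', zero_sub]
    · rintro ⟨w, hw⟩
      obtain ⟨u, rfl⟩ := Submodule.Quotient.mk_surjective _ w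
      rw [← hw, Submodule.mapQ_apply, Submodule.mapQ_apply, Submodule.Quotient.mk_eq_zero]
      exact (LinearMap.range X').zero_mem

private theorem le {S : Type} [CommRing S] (T : Submonoid S) {U V : Type} [AddCommGroup U]
    [Module S U] [AddCommGroup V] [Module S V] (e : U ≃ₗ[S] V) :
    Module.length (Localization T) (LocalizedModule T U) ≤
      Module.length (Localization T) (LocalizedModule T V) :=
  Module.length_le_of_injective (LocalizedModule.map T e.toLinearMap)
    (LocalizedModule.map_injective T e.toLinearMap e.injective)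

end LCk

theorem sLCk (_hLzE : S_LzE) (_hLzQ : S_LzQ) (_hLzP : S_LzP) : S_LCk := by
  intro S _ T P Q P' Q' _ _ _ _ _ _ _ _ X X'
  refine ⟨?_, ?_⟩
  · obtain ⟨f, g, hf, hg, hfg⟩ := LCk.ex X X'
    exact Module.length_eq_add_of_exact (LocalizedModule.map T f) (LocalizedModule.map T g)
      (LocalizedModule.map_injective T f hf) (LocalizedModule.map_surjective T g hg)
      (LocalizedModule.map_exact T f g hfg)
  · intro e f
    have h : (LinearMap.range X).map (f.toLinearMap) =
        LinearMap.range (f.toLinearMap ∘ₗ X ∘ₗ e.toLinearMap) := by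
      apply le_antisymm
      · rintro _ ⟨_, ⟨x, rfl⟩, rfl⟩
        exact ⟨e.symm x, by simp⟩
      · rintro _ ⟨x, rfl⟩
        exact ⟨X (e x), ⟨e x, rfl⟩, rfl⟩
    have E := Submodule.Quotient.equiv (LinearMap.range X)
      (LinearMap.range (f.toLinearMap ∘ₗ X ∘ₗ e.toLinearMap)) f h
    exact le_antisymm (LCk.le T E.symm) (LCk.le T E)

end HHx
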