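import Pool.Agent.Lib.MP_181146_gt.HH.SpecH

/-!
# Project HH (Theorem H): localization of a complex (LCx)
-/

set_option autoImplicit false

namespace HHx

open HEp HBx
open scoped TensorProduct

namespace LCx

variable {S : Type} [CommRing S] {T : Submonoid S}

/-- The range of the localization of a map is the localization of the range. -/
private theorem range1 {U U' V V' : Type} [AddCommGroup U] [Module S U]
    [AddCommGroup U'] [Module S U'] [AddCommGroup V] [Module (Localization T) V] [AddCommGroup V']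
    [Module (Localization T) V'] (b : Lz T U V) (b' : Lz T U' V') (f : U →ₗ[S] U')
    (F : V →ₗ[Localization T] V') (hF : ∀ u, F (b.l u) = b'.l (f u)) :
    (∀ z ∈ LinearMap.range f, b'.l z ∈ LinearMap.range F) ∧
    ∀ v ∈ LinearMap.range F, ∃ t ∈ T, ∃ z ∈ LinearMap.range f,
      algebraMap S (Localization T) t • v = b'.l z := by
  constructor
  · rintro _ ⟨u, rfl⟩
    exact ⟨b.l u, hF u⟩
  · rintro _ ⟨w, rfl⟩
    obtain ⟨t, ht, u, hu⟩ := b.surj w
    refine ⟨t, ht, f u, ⟨u, rfl⟩, ?_⟩
    rw [← hF, ← hu, map_smul]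

/-- The kernel of the localization of a map is the localization of the kernel. -/
private theorem ker1 {U U' V V' : Type} [AddCommGroup U] [Module S U]
    [AddCommGroup U'] [Module S U'] [AddCommGroup V] [Module (Localization T) V] [AddCommGroup V']
    [Module (Localization T) V'] (b : Lz T U V) (b' : Lz T U' V') (f : U →ₗ[S] U')
    (F : V →ₗ[Localization T] V') (hF : ∀ u, F (b.l u) = b'.l (f u)) :
    (∀ z ∈ LinearMap.ker f, b.l z ∈ LinearMap.ker F) ∧
    ∀ v ∈ LinearMap.ker F, ∃ t ∈ T, ∃ z ∈ LinearMap.ker f,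
      algebraMap S (Localization T) t • v = b.l z := by
  constructor
  · intro z hz
    rw [LinearMap.mem_ker] at hz ⊢
    rw [hF, hz, map_zero]
  · intro v hv
    rw [LinearMap.mem_ker] at hv
    obtain ⟨t, ht, u, hu⟩ := b.surj v
    have h1 : b'.l (f u) = 0 := by
      rw [← hF, ← hu, map_smul, hv, smul_zero]
    obtain ⟨t', ht', h2⟩ := b'.ker _ h1
    refine ⟨t' * t, T.mul_mem ht' ht, t' • u, ?_, ?_⟩
    · rw [LinearMap.mem_ker, map_smul, h2]
    · rw [b.sl, ← hu, map_mul, mul_smul]

/-- Comparison with the localized module. -/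
private theorem len (hLzE : S_LzE) {U V : Type} [AddCommGroup U] [Module S U] [AddCommGroup V]
    [Module (Localization T) V] (b : Lz T U V) :
    Module.length (Localization T) (LocalizedModule T U) = Module.length (Localization T) V := by
  obtain ⟨⟨c, -⟩, -⟩ := hLzE S T U U (LocalizedModule T U) (LocalizedModule T U)
  obtain ⟨-, h⟩ := hLzE S T U U (LocalizedModule T U) V
  obtain ⟨-, -, h3⟩ := h c b LinearMap.id
  obtain ⟨e⟩ := h3 Function.bijective_id
  exact e.length_eq

end LCx

theorem sLCx (hLzE : S_LzE) (hLzQ : S_LzQ) (hLzP : S_LzP) : S_LCx := by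
  intro S _ T U _ _ K hK a D h hc
  have hb : ∀ i, ∃ b : Lz T (U i) (LocalizedModule T (U i)),
      ∀ u, b.l u = LocalizedModule.mkLinearMap T (U i) u := fun i =>
    (hLzE S T (U i) (U i) (LocalizedModule T (U i)) (LocalizedModule T (U i))).1
  choose b hbl using hb
  have hD' := fun i => ((hLzE S T (U (i + 1)) (U i) (LocalizedModule T (U (i + 1)))
    (LocalizedModule T (U i))).2 (b (i + 1)) (b i) (D i)).1
  choose D' hD using hD'
  have hh' := fun i => ((hLzE S T (U i) (U (i + 1)) (LocalizedModule T (U i))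
    (LocalizedModule T (U (i + 1)))).2 (b i) (b (i + 1)) (h i)).1
  choose h' hh using hh'
  have huni : ∀ (i j : ℕ) (F F' : LocalizedModule T (U i) →ₗ[Localization T]
      LocalizedModule T (U j)), (∀ u, F ((b i).l u) = F' ((b i).l u)) → F = F' := fun i j =>
    ((hLzE S T (U i) (U j) (LocalizedModule T (U i))
      (LocalizedModule T (U j))).2 (b i) (b j) 0).2.1
  refine ⟨D', h', ⟨?_, ?_, ?_⟩, ?_, ?_⟩
  · intro i x
    have h1 : D' i ∘ₗ D' (i + 1) = 0 := by
      refine huni (i + 1 + 1) i _ _ fun u => ?_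
      rw [LinearMap.comp_apply, LinearMap.zero_apply, hD, hD, hc.dd, map_zero]
    exact congrArg (fun F => F x) h1
  · intro x
    have h1 : D' 0 ∘ₗ h' 0 = algebraMap S (Localization T) a • LinearMap.id := by
      refine huni 0 0 _ _ fun u => ?_
      rw [LinearMap.comp_apply, LinearMap.smul_apply, LinearMap.id_apply, hh, hD, hc.c0, (b 0).sl]
    exact congrArg (fun F => F x) h1
  · intro i x
    have h1 : D' (i + 1) ∘ₗ h' (i + 1) + h' i ∘ₗ D' i =
        algebraMap S (Localization T) a • LinearMap.id := by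
      refine huni (i + 1) (i + 1) _ _ fun u => ?_
      rw [LinearMap.add_apply, LinearMap.comp_apply, LinearMap.comp_apply, LinearMap.smul_apply,
        LinearMap.id_apply, hh, hD, hD, hh, ← map_add, hc.c1, (b (i + 1)).sl]
    exact congrArg (fun F => F x) h1
  · -- the cokernel of `XX`
    obtain ⟨ce, hce⟩ := (hLzP S T).1 (fun j => U (2 * j)) (fun j => LocalizedModule T (U (2 * j)))
      (fun j => b (2 * j)) K (fun i hi => hK (2 * i) (by omega))
    obtain ⟨co, hco⟩ := (hLzP S T).1 (fun j => U (2 * j + 1))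
      (fun j => LocalizedModule T (U (2 * j + 1)))
      (fun j => b (2 * j + 1)) K (fun i hi => hK (2 * i + 1) (by omega))
    have hX : ∀ u : Ev U, XX D' h' (ce.l u) = co.l (XX D h u) := by
      intro u
      funext j
      rw [hco, XX_apply, XX_apply, map_add]
      have h1 : ce.l u j = (b (2 * j)).l (u j) := hce u j
      have h2 : ce.l u (j + 1) = (b (2 * j + 1 + 1)).l (u (j + 1)) := hce u (j + 1)
      have h3 : h' (2 * j) (ce.l u j) = (b (2 * j + 1)).l (h (2 * j) (u j)) := by
        rw [h1]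
        exact hh (2 * j) (u j)
      have h4 : D' (2 * j + 1) (ce.l u (j + 1)) = (b (2 * j + 1)).l (D (2 * j + 1) (u (j + 1))) :=
        (congrArg (D' (2 * j + 1)) h2).trans (hD (2 * j + 1) (u (j + 1)))
      rw [h3, h4]
    obtain ⟨h1, h2⟩ := LCx.range1 ce co (XX D h) (XX D' h') hX
    obtain ⟨-, ⟨c⟩⟩ := hLzQ S T (Od U) (Od (fun i => LocalizedModule T (U i))) co ⊤
      (LinearMap.range (XX D h)) ⊤ (LinearMap.range (XX D' h')) (fun _ _ => trivial)
      (fun v _ => by
        obtain ⟨t, ht, u, hu⟩ := co.surj v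
        exact ⟨t, ht, u, trivial, hu⟩) h1 h2
    exact LCx.len hLzE c
  · intro i
    obtain ⟨h1, h2⟩ := LCx.range1 (b (i + 1)) (b i) (D i) (D' i) (hD i)
    have hZ : (∀ z ∈ Zc D i, (b i).l z ∈ Zc (V := fun i => LocalizedModule T (U i)) D' i) ∧
        ∀ v ∈ Zc (V := fun i => LocalizedModule T (U i)) D' i, ∃ t ∈ T, ∃ z ∈ Zc D i,
          algebraMap S (Localization T) t • v = (b i).l z := by
      rcases i with _ | i
      · refine ⟨fun _ _ => trivial, fun v _ => ?_⟩
        obtain ⟨t, ht, u, hu⟩ := (b 0).surj v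
        exact ⟨t, ht, u, trivial, hu⟩
      · exact LCx.ker1 (b (i + 1)) (b i) (D i) (D' i) (hD i)
    obtain ⟨⟨c⟩, -⟩ := hLzQ S T (U i) (LocalizedModule T (U i)) (b i) (Zc D i)
      (LinearMap.range (D i)) (Zc (V := fun i => LocalizedModule T (U i)) D' i)
      (LinearMap.range (D' i)) hZ.1 hZ.2 h1 h2
    exact LCx.len hLzE c

end HHx
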