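import Pool.Agent.Lib.MP_181146_gt.HH.SpecH

set_option autoImplicit false

namespace HHx

open HEp HBx
open scoped TensorProduct

namespace LzE

variable {S : Type} [CommRing S] {T : Submonoid S}

/-- Elements of `T` act injectively. -/
private lemma cancel {V : Type} [AddCommGroup V] [Module (Localization T) V] {t : S} (ht : t ∈ T)
    {x y : V} (h : algebraMap S (Localization T) t • x = algebraMap S (Localization T) t • y) :
    x = y := by
  have hu : IsUnit (algebraMap S (Localization T) t) :=
    IsLocalization.map_units (Localization T) (⟨t, ht⟩ : T)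
  exact hu.smul_left_cancel.1 h

/-- The localization of a linear map. -/
private lemma exists_map {U U' V V' : Type} [AddCommGroup U] [Module S U] [AddCommGroup U']
    [Module S U'] [AddCommGroup V] [Module (Localization T) V] [AddCommGroup V']
    [Module (Localization T) V'] (b : Lz T U V) (b' : Lz T U' V') (f : U →ₗ[S] U') :
    ∃ F : V →ₗ[Localization T] V', ∀ u, F (b.l u) = b'.l (f u) := by
  -- well defined
  have wd : ∀ (v : V) (t t1 : S) (u u1 : U), t ∈ T → t1 ∈ T →
      algebraMap S (Localization T) t • v = b.l u →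
      algebraMap S (Localization T) t1 • v = b.l u1 →
      algebraMap S (Localization T) t1 • b'.l (f u) =
        algebraMap S (Localization T) t • b'.l (f u1) := by
    intro v t t1 u u1 ht ht1 h h1
    have e : b.l (t1 • u - t • u1) = 0 := by
      rw [map_sub, b.sl, b.sl, ← h, ← h1, smul_smul, smul_smul, mul_comm, sub_self]
    obtain ⟨t2, ht2, e2⟩ := b.ker _ e
    have e3 : b'.l (f (t2 • (t1 • u - t • u1))) = 0 := by rw [e2, map_zero, map_zero]
    rw [map_smul, b'.sl, map_sub, map_sub, map_smul f t1, map_smul f t, b'.sl t1, b'.sl t] at e3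
    have e4 := cancel (V := V') ht2 (x := algebraMap S (Localization T) t1 • b'.l (f u) -
      algebraMap S (Localization T) t • b'.l (f u1)) (y := 0) (by rw [e3, smul_zero])
    exact sub_eq_zero.1 e4
  have ex : ∀ v : V, ∃ w : V', ∀ t ∈ T, ∀ u : U, algebraMap S (Localization T) t • v = b.l u →
      algebraMap S (Localization T) t • w = b'.l (f u) := by
    intro v
    obtain ⟨t, ht, u, h⟩ := b.surj v
    refine ⟨IsLocalization.mk' (Localization T) 1 (⟨t, ht⟩ : T) • b'.l (f u), ?_⟩
    intro t1 ht1 u1 h1
    have h2 := wd v t t1 u u1 ht ht1 h h1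
    rw [smul_smul, mul_comm, ← smul_smul, h2, smul_smul]
    have h3 : IsLocalization.mk' (Localization T) 1 (⟨t, ht⟩ : T) *
        algebraMap S (Localization T) t = 1 := by
      have := IsLocalization.mk'_spec (Localization T) (1 : S) (⟨t, ht⟩ : T)
      rw [map_one] at this
      exact this
    rw [h3, one_smul]
  choose F hF using ex
  refine ⟨{ toFun := F, map_add' := ?_, map_smul' := ?_ }, ?_⟩
  · intro v v'
    obtain ⟨t, ht, u, h⟩ := b.surj v
    obtain ⟨t', ht', u', h'⟩ := b.surj v'
    have e : algebraMap S (Localization T) (t * t') • (v + v') = b.l (t' • u + t • u') := by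
      rw [map_add, b.sl, b.sl, ← h, ← h', smul_add, smul_smul, smul_smul, map_mul,
        mul_comm (algebraMap S (Localization T) t')]
    have e1 := hF (v + v') (t * t') (T.mul_mem ht ht') _ e
    refine cancel (T.mul_mem ht ht') ?_
    rw [e1, map_add, map_smul, map_smul, map_add, b'.sl, b'.sl, ← hF v t ht u h,
      ← hF v' t' ht' u' h', smul_add, smul_smul, smul_smul, map_mul,
      mul_comm (algebraMap S (Localization T) t')]
  · intro a v
    obtain ⟨t, ht, u, h⟩ := b.surj v
    obtain ⟨⟨s, t0⟩, e0⟩ := IsLocalization.surj T a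
    have e0' : a * algebraMap S (Localization T) (t0 : S) = algebraMap S (Localization T) s := e0
    have e : algebraMap S (Localization T) ((t0 : S) * t) • (a • v) = b.l (s • u) := by
      rw [b.sl, ← h, smul_smul, smul_smul, ← e0', map_mul]
      congr 1
      ring
    have e1 := hF (a • v) ((t0 : S) * t) (T.mul_mem t0.2 ht) _ e
    refine cancel (T.mul_mem t0.2 ht) ?_
    rw [e1, map_smul, b'.sl, ← hF v t ht u h, RingHom.id_apply, smul_smul, smul_smul, ← e0',
      map_mul]
    congr 1
    ring
  · intro u
    have h1 : algebraMap S (Localization T) 1 • b.l u = b.l u := by rw [map_one, one_smul]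
    have h2 := hF (b.l u) 1 T.one_mem u h1
    rw [map_one, one_smul] at h2
    exact h2

private lemma uniq {U V V' : Type} [AddCommGroup U] [Module S U] [AddCommGroup V]
    [Module (Localization T) V] [AddCommGroup V'] [Module (Localization T) V'] (b : Lz T U V)
    (F F' : V →ₗ[Localization T] V') (h : ∀ u, F (b.l u) = F' (b.l u)) : F = F' := by
  ext v
  obtain ⟨t, ht, u, h1⟩ := b.surj v
  refine cancel ht ?_
  rw [← map_smul, ← map_smul, h1, h u]

end LzE

open LzE in
theorem sLzE : S_LzE := by
  intro S _ T U U' V V' _ _ _ _ _ _ _ _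
  refine ⟨⟨⟨(LocalizedModule.mkLinearMap T U).toAddMonoidHom, ?_, ?_, ?_⟩, fun u => rfl⟩, ?_⟩
  · intro a x
    change LocalizedModule.mkLinearMap T U (a • x) = _ • LocalizedModule.mkLinearMap T U x
    rw [map_smul, algebraMap_smul]
  · intro v
    obtain ⟨⟨u, t⟩, h⟩ := IsLocalizedModule.surj T (LocalizedModule.mkLinearMap T U) v
    refine ⟨t, t.2, u, ?_⟩
    rw [algebraMap_smul]
    exact h
  · intro u h
    have h1 : LocalizedModule.mkLinearMap T U u = 0 := h
    obtain ⟨t, h2⟩ := (IsLocalizedModule.eq_zero_iff T (LocalizedModule.mkLinearMap T U)).1 h1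
    exact ⟨t, t.2, h2⟩
  · intro b b' f
    refine ⟨exists_map b b' f, uniq b, fun hf => ?_⟩
    let e : U ≃ₗ[S] U' := LinearEquiv.ofBijective f hf
    obtain ⟨F, hF⟩ := exists_map b b' (e : U →ₗ[S] U')
    obtain ⟨G, hG⟩ := exists_map b' b (e.symm : U' →ₗ[S] U)
    refine ⟨LinearEquiv.ofLinearMap F G ?_ ?_⟩
    · refine uniq b' _ _ fun u => ?_
      rw [LinearMap.comp_apply, hG, hF, LinearMap.id_apply]
      simp
    · refine uniq b _ _ fun u => ?_
      rw [LinearMap.comp_apply, hF, hG, LinearMap.id_apply]
      simp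

end HHx
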