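import Pool.Agent.Lib.MP_181146_gt.HH.SpecH

/-!
# Project HH (Theorem H): localization of products
-/

set_option autoImplicit false

namespace HHx

open HEp HBx
open scoped TensorProduct

private theorem LzP_cd {S : Type} [CommRing S] (T : Submonoid S) (P : ℕ → S → Prop)
    (hm : ∀ i s t, P i t → P i (s * t)) :
    ∀ K : ℕ, (∀ i < K, ∃ t ∈ T, P i t) → ∃ t ∈ T, ∀ i < K, P i t
  | 0, _ => ⟨1, T.one_mem, fun i hi => absurd hi (Nat.not_lt_zero i)⟩
  | K + 1, h => by
    obtain ⟨t, ht, h1⟩ := LzP_cd T P hm K fun i hi => h i (Nat.lt_succ_of_lt hi)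
    obtain ⟨t', ht', h2⟩ := h K (Nat.lt_succ_self K)
    refine ⟨t * t', T.mul_mem ht ht', fun i hi => ?_⟩
    rcases Nat.lt_or_ge i K with h3 | h3
    · rw [mul_comm]
      exact hm _ _ _ (h1 i h3)
    · have h4 : i = K := by omega
      subst h4
      exact hm _ _ _ h2

private theorem LzP_sm {S : Type} [CommRing S] {T : Submonoid S} {U V : Type} [AddCommGroup U]
    [Module S U] [AddCommGroup V] [Module (Localization T) V] (b : Lz T U V) (v : V) (s t : S)
    (h : ∃ u : U, algebraMap S (Localization T) t • v = b.l u) :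
    ∃ u : U, algebraMap S (Localization T) (s * t) • v = b.l u := by
  obtain ⟨u, hu⟩ := h
  exact ⟨s • u, by rw [map_mul, mul_smul, hu, b.sl]⟩

private theorem LzP_1 (S : Type) [CommRing S] (T : Submonoid S) (U V : ℕ → Type)
    [∀ i, AddCommGroup (U i)] [∀ i, Module S (U i)] [∀ i, AddCommGroup (V i)]
    [∀ i, Module (Localization T) (V i)] (b : ∀ i, Lz T (U i) (V i)) (K : ℕ)
    (hK : ∀ i, K ≤ i → Subsingleton (U i)) :
    ∃ c : Lz T (∀ i, U i) (∀ i, V i), ∀ u i, c.l u i = (b i).l (u i) := by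
  have hV : ∀ i, K ≤ i → ∀ v : V i, v = 0 := by
    intro i hi v
    obtain ⟨t, ht, u, hu⟩ := (b i).surj v
    have := hK i hi
    rw [Subsingleton.elim u 0, map_zero] at hu
    have hunit : IsUnit (algebraMap S (Localization T) t) :=
      IsLocalization.map_units (Localization T) (⟨t, ht⟩ : T)
    exact (hunit.smul_eq_zero).1 hu
  refine ⟨⟨AddMonoidHom.mk' (fun u i => (b i).l (u i))
    (fun u u' => funext fun i => (b i).l.map_add _ _), ?_, ?_, ?_⟩, fun u i => rfl⟩
  · intro a x
    funext i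
    exact (b i).sl a (x i)
  · intro v
    obtain ⟨t, ht, h⟩ := LzP_cd T
      (fun i t => ∃ u : U i, algebraMap S (Localization T) t • v i = (b i).l u)
      (fun i s t h => LzP_sm (b i) (v i) s t h) K
      (fun i _ => by
        obtain ⟨t, ht, u, hu⟩ := (b i).surj (v i)
        exact ⟨t, ht, u, hu⟩)
    have h' : ∀ i, ∃ u : U i, algebraMap S (Localization T) t • v i = (b i).l u := by
      intro i
      rcases Nat.lt_or_ge i K with h3 | h3
      · exact h i h3
      · exact ⟨0, by rw [hV i h3 (v i), smul_zero, map_zero]⟩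
    choose u hu using h'
    exact ⟨t, ht, u, funext hu⟩
  · intro u hu
    have hu' : ∀ i, (b i).l (u i) = 0 := fun i => congrFun hu i
    obtain ⟨t, ht, h⟩ := LzP_cd T (fun i t => t • u i = 0)
      (fun i s t h => by rw [mul_smul, h, smul_zero]) K
      (fun i _ => (b i).ker (u i) (hu' i))
    refine ⟨t, ht, funext fun i => ?_⟩
    rcases Nat.lt_or_ge i K with h3 | h3
    · exact h i h3
    · have := hK i h3
      exact Subsingleton.elim _ _

private theorem LzP_2 (S : Type) [CommRing S] (T : Submonoid S) (U U' V V' : Type)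
    [AddCommGroup U] [Module S U] [AddCommGroup U'] [Module S U']
    [AddCommGroup V] [Module (Localization T) V] [AddCommGroup V'] [Module (Localization T) V']
    (b : Lz T U V) (b' : Lz T U' V') :
    ∃ c : Lz T (U × U') (V × V'), ∀ u, c.l u = (b.l u.1, b'.l u.2) := by
  refine ⟨⟨AddMonoidHom.mk' (fun u => (b.l u.1, b'.l u.2))
    (fun u u' => Prod.ext (b.l.map_add _ _) (b'.l.map_add _ _)), ?_, ?_, ?_⟩, fun u => rfl⟩
  · intro a x
    exact Prod.ext (b.sl a x.1) (b'.sl a x.2)
  · rintro ⟨v, v'⟩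
    obtain ⟨t, ht, u, hu⟩ := b.surj v
    obtain ⟨t', ht', u', hu'⟩ := b'.surj v'
    obtain ⟨w, hw⟩ := LzP_sm b v t' t ⟨u, hu⟩
    obtain ⟨w', hw'⟩ := LzP_sm b' v' t t' ⟨u', hu'⟩
    refine ⟨t * t', T.mul_mem ht ht', (w, w'), Prod.ext ?_ hw'⟩
    rw [mul_comm]
    exact hw
  · rintro ⟨u, u'⟩ h
    have h1 : b.l u = 0 := congrArg Prod.fst h
    have h2 : b'.l u' = 0 := congrArg Prod.snd h
    obtain ⟨t, ht, k⟩ := b.ker u h1
    obtain ⟨t', ht', k'⟩ := b'.ker u' h2
    refine ⟨t * t', T.mul_mem ht ht', Prod.ext ?_ ?_⟩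
    · change (t * t') • u = 0
      rw [mul_comm, mul_smul, k, smul_zero]
    · change (t * t') • u' = 0
      rw [mul_smul, k', smul_zero]

private theorem LzP_3 (S : Type) [CommRing S] (T : Submonoid S) (r : ℕ) :
    ∃ c : Lz T (Fin r → S) (Fin r → Localization T), ∀ u i, c.l u i = algebraMap S _ (u i) := by
  refine ⟨⟨AddMonoidHom.mk' (fun u i => algebraMap S (Localization T) (u i))
    (fun u u' => funext fun i => map_add _ _ _), ?_, ?_, ?_⟩, fun u i => rfl⟩
  · intro a x
    funext i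
    exact map_mul (algebraMap S (Localization T)) a (x i)
  · intro v
    obtain ⟨t, ht, h⟩ := LzP_cd T
      (fun i t => ∀ hi : i < r, ∃ u : S, algebraMap S (Localization T) t * v ⟨i, hi⟩ =
        algebraMap S (Localization T) u)
      (fun i s t h hi => by
        obtain ⟨u, hu⟩ := h hi
        exact ⟨s * u, by rw [map_mul, mul_assoc, hu, map_mul]⟩) r
      (fun i hi => by
        obtain ⟨⟨u, t⟩, hu⟩ := IsLocalization.surj T (v ⟨i, hi⟩)
        exact ⟨t, t.2, fun _ => ⟨u, by rw [mul_comm]; exact hu⟩⟩)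
    have h' : ∀ i : Fin r, ∃ u : S, algebraMap S (Localization T) t * v i =
        algebraMap S (Localization T) u := fun i => h i.1 i.2 i.2
    choose u hu using h'
    exact ⟨t, ht, u, funext hu⟩
  · intro u hu
    have hu' : ∀ i, algebraMap S (Localization T) (u i) = 0 := fun i => congrFun hu i
    obtain ⟨t, ht, h⟩ := LzP_cd T (fun i t => ∀ hi : i < r, t * u ⟨i, hi⟩ = 0)
      (fun i s t h hi => by rw [mul_assoc, h hi, mul_zero]) r
      (fun i hi => by
        obtain ⟨m, hm⟩ := (IsLocalization.map_eq_zero_iff T (Localization T) _).1 (hu' ⟨i, hi⟩)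
        exact ⟨m, m.2, fun _ => hm⟩)
    exact ⟨t, ht, funext fun i => h i.1 i.2 i.2⟩

theorem sLzP : S_LzP := fun S _ T =>
  ⟨fun U V _ _ _ _ b K hK => LzP_1 S T U V b K hK,
    fun U U' V V' _ _ _ _ _ _ _ _ b b' => LzP_2 S T U U' V V' b b', fun r => LzP_3 S T r⟩

end HHx
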