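import Pool.Agent.Lib.MP_181146_gt.HH.SpecH

/-!
# Project HH, module LzQ: localization of a subquotient
-/

set_option autoImplicit false

namespace HHx

open HEp HBx
open scoped TensorProduct

namespace LzQ

/-- The kernel condition. -/
private theorem kr {S : Type} [CommRing S] {T : Submonoid S} {U V : Type} [AddCommGroup U]
    [Module S U] [AddCommGroup V] [Module (Localization T) V] (b : Lz T U V) {R : Submodule S U}
    {R' : Submodule (Localization T) V}
    (hR2 : ∀ v ∈ R', ∃ t ∈ T, ∃ z ∈ R, algebraMap S (Localization T) t • v = b.l z) {u : U}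
    (hu : b.l u ∈ R') : ∃ t ∈ T, t • u ∈ R := by
  obtain ⟨t, ht, z, hz, e⟩ := hR2 _ hu
  have h1 : b.l (t • u - z) = 0 := by rw [map_sub, b.sl, e, sub_self]
  obtain ⟨t', ht', h2⟩ := b.ker _ h1
  refine ⟨t' * t, T.mul_mem ht' ht, ?_⟩
  rw [smul_sub, sub_eq_zero] at h2
  rw [mul_smul, h2]
  exact R.smul_mem t' hz

end LzQ

theorem sLzQ : S_LzQ := by
  intro S _ T U V _ _ _ _ b Z R Z' R' hZ1 hZ2 hR1 hR2
  constructor
  · have f : ∃ f : Z →ₛₗ[algebraMap S (Localization T)] Z', ∀ z : Z, f z = ⟨b.l z, hZ1 z z.2⟩ :=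
      ⟨{ toFun := fun z => ⟨b.l z, hZ1 z z.2⟩
         map_add' := fun x y => Subtype.ext (map_add b.l (x : U) (y : U))
         map_smul' := fun a x => Subtype.ext (b.sl a (x : U)) }, fun z => rfl⟩
    obtain ⟨f, hf⟩ := f
    have hle : R.comap Z.subtype ≤ (R'.comap Z'.subtype).comap f := by
      intro z hz
      have h1 : b.l (z : U) ∈ R' := hR1 _ hz
      change ((f z : Z') : V) ∈ R'
      rw [hf z]
      exact h1
    refine ⟨⟨(Submodule.mapQ (R.comap Z.subtype) (R'.comap Z'.subtype) f hle).toAddMonoidHom,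
      fun a x => map_smulₛₗ (Submodule.mapQ (R.comap Z.subtype) (R'.comap Z'.subtype) f hle) a x,
      ?_, ?_⟩⟩
    · intro v
      obtain ⟨v, rfl⟩ := Submodule.Quotient.mk_surjective _ v
      obtain ⟨t, ht, z, hz, e⟩ := hZ2 (v : V) v.2
      refine ⟨t, ht, Submodule.Quotient.mk ⟨z, hz⟩, ?_⟩
      change _ = Submodule.mapQ (R.comap Z.subtype) (R'.comap Z'.subtype) f hle
        (Submodule.Quotient.mk ⟨z, hz⟩)
      rw [Submodule.mapQ_apply, hf, ← Submodule.Quotient.mk_smul]
      congr 1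
      exact Subtype.ext e
    · intro u hu
      obtain ⟨u, rfl⟩ := Submodule.Quotient.mk_surjective _ u
      change Submodule.mapQ (R.comap Z.subtype) (R'.comap Z'.subtype) f hle
        (Submodule.Quotient.mk u) = 0 at hu
      rw [Submodule.mapQ_apply, hf, Submodule.Quotient.mk_eq_zero] at hu
      have h1 : b.l (u : U) ∈ R' := hu
      obtain ⟨t, ht, h2⟩ := LzQ.kr b hR2 h1
      refine ⟨t, ht, ?_⟩
      rw [← Submodule.Quotient.mk_smul, Submodule.Quotient.mk_eq_zero]
      exact h2
  · have f : ∃ f : U →ₛₗ[algebraMap S (Localization T)] V, ∀ z : U, f z = b.l z :=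
      ⟨{ toFun := fun z => b.l z
         map_add' := fun x y => map_add b.l x y
         map_smul' := fun a x => b.sl a x }, fun z => rfl⟩
    obtain ⟨f, hf⟩ := f
    have hle : R ≤ R'.comap f := by
      intro z hz
      change f z ∈ R'
      rw [hf z]
      exact hR1 z hz
    refine ⟨⟨(Submodule.mapQ R R' f hle).toAddMonoidHom,
      fun a x => map_smulₛₗ (Submodule.mapQ R R' f hle) a x, ?_, ?_⟩⟩
    · intro v
      obtain ⟨v, rfl⟩ := Submodule.Quotient.mk_surjective _ v
      obtain ⟨t, ht, z, e⟩ := b.surj v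
      refine ⟨t, ht, Submodule.Quotient.mk z, ?_⟩
      change _ = Submodule.mapQ R R' f hle (Submodule.Quotient.mk z)
      rw [Submodule.mapQ_apply, hf, ← Submodule.Quotient.mk_smul, e]
    · intro u hu
      obtain ⟨u, rfl⟩ := Submodule.Quotient.mk_surjective _ u
      change Submodule.mapQ R R' f hle (Submodule.Quotient.mk u) = 0 at hu
      rw [Submodule.mapQ_apply, hf, Submodule.Quotient.mk_eq_zero] at hu
      obtain ⟨t, ht, h2⟩ := LzQ.kr b hR2 hu
      refine ⟨t, ht, ?_⟩
      rw [← Submodule.Quotient.mk_smul, Submodule.Quotient.mk_eq_zero]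
      exact h2

end HHx
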