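import Pool.Agent.Lib.MP_181146_gt.HH.SpecZ

/-!
# Project HH, module TGood: the twisted group ring is good
-/

set_option autoImplicit false

namespace HHx

open HEp HBx
open scoped TensorProduct

namespace TGood

variable {F G : Type} [CommRing F] [CommGroup G] (c : Cocy F G)

theorem s_mul (x : TW c) : TW.s c * x = (PowerSeries.X : PowerSeries F) • x :=
  TW.algebraMap_smul' c _ x

theorem coef_s_mul (x : TW c) (g : G) :
    TW.coef c (TW.s c * x) g = (PowerSeries.X : PowerSeries F) * TW.coef c x g := by
  rw [s_mul, map_smul, Finsupp.smul_apply, smul_eq_mul]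

theorem coeff_phi (x : TW c) (g : G) :
    (TW.phi c x).coeff g = PowerSeries.constantCoeff (TW.coef c x g) := by
  induction x using TW.ind c with
  | h0 => rw [map_zero, map_zero, Finsupp.zero_apply, map_zero, MonoidAlgebra.coeff_zero,
      Finsupp.zero_apply]
  | ha a b ha hb => rw [map_add, map_add, Finsupp.add_apply, map_add, MonoidAlgebra.coeff_add,
      Finsupp.add_apply, ha, hb]
  | hs h f =>
    classical
    rw [TW.phi_sg, TW.coef_sg, MonoidAlgebra.coeff_single, Finsupp.single_apply,
      Finsupp.single_apply]
    split_ifs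
    · rfl
    · rw [map_zero]

theorem X_jac : Ideal.span {(PowerSeries.X : PowerSeries F)} ≤ Ideal.jacobson ⊥ := by
  rw [Ideal.span_singleton_le_iff_mem, Ideal.mem_jacobson_bot]
  intro y
  rw [PowerSeries.isUnit_iff_constantCoeff, map_add, map_mul, PowerSeries.constantCoeff_X,
    zero_mul, zero_add, map_one]
  exact isUnit_one

end TGood

open TGood in
theorem sTGood (hTRed : S_TRed) : S_TGood := by
  intro F G _ _ _ tf _ _ c
  obtain ⟨t1, t2, t3⟩ := hTRed F G tf
  have hFN : IsNoetherianRing F := by
    have h1 : IsNoetherian ℤ F := inferInstance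
    exact isNoetherian_of_tower ℤ h1
  have hPN : IsNoetherianRing (PowerSeries F) := inferInstance
  have hfin : Module.Finite (PowerSeries F) (TW c) := Module.Finite.equiv (TW.coef c).symm
  have hfree : Module.Free (PowerSeries F) (TW c) := Module.Free.of_equiv (TW.coef c).symm
  refine ⟨⟨?_, ?_, ?_, ?_, ?_, t1, t2, t3⟩, ?_, hfin, hfree⟩
  · have h1 : IsNoetherian (PowerSeries F) (TW c) := inferInstance
    exact isNoetherian_of_tower (PowerSeries F) h1
  · intro x hx
    apply (TW.coef c).injective
    rw [map_zero]
    ext1 g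
    have h := coef_s_mul c x g
    rw [hx, map_zero, Finsupp.zero_apply] at h
    rw [Finsupp.zero_apply]
    refine PowerSeries.X_mul_cancel ?_
    rw [← h, mul_zero]
  · intro x
    let a : TW c := 1 + TW.s c * x
    let f : TW c →ₗ[PowerSeries F] TW c := LinearMap.mulLeft (PowerSeries F) a
    have h1 : (⊤ : Submodule (PowerSeries F) (TW c)) ≤ LinearMap.range f := by
      refine Submodule.le_of_le_smul_of_le_jacobson_bot (hfin.fg_top) X_jac ?_
      intro m _
      have e : m = a * m + (PowerSeries.X : PowerSeries F) • (-(x * m)) := by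
        rw [← s_mul]
        simp only [a]
        ring
      rw [e]
      refine Submodule.add_mem_sup ⟨m, rfl⟩ ?_
      exact Submodule.smul_mem_smul (Ideal.mem_span_singleton_self _) trivial
    obtain ⟨y, hy⟩ := h1 (x := (1 : TW c)) trivial
    exact IsUnit.of_mul_eq_one y hy
  · intro y
    induction y using MonoidAlgebra.induction_linear with
    | zero => exact ⟨0, map_zero _⟩
    | add a b ha hb =>
      obtain ⟨x, rfl⟩ := ha
      obtain ⟨y, rfl⟩ := hb
      exact ⟨x + y, map_add _ _ _⟩
    | single g r =>
      refine ⟨TW.sg c g (PowerSeries.C r), ?_⟩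
      rw [TW.phi_sg, PowerSeries.constantCoeff_C]
  · intro x
    constructor
    · intro hx
      have h1 : ∀ g, ∃ q : PowerSeries F, TW.coef c x g = PowerSeries.X * q := by
        intro g
        have h2 := coeff_phi c x g
        rw [hx, MonoidAlgebra.coeff_zero, Finsupp.zero_apply] at h2
        exact PowerSeries.X_dvd_iff.2 h2.symm
      choose q hq using h1
      refine ⟨(TW.coef c).symm (Finsupp.equivFunOnFinite.symm q), ?_⟩
      apply (TW.coef c).injective
      ext1 g
      rw [coef_s_mul, LinearEquiv.apply_symm_apply, hq]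
      rfl
    · rintro ⟨y, rfl⟩
      rw [map_mul, TW.phi_s, zero_mul]
  · intro g
    have e := TW.u_mul c g g⁻¹
    rw [mul_inv_cancel, TW.u_one, ← TW.algebraMap_smul', mul_one] at e
    have h1 : IsUnit (c.c g g⁻¹) := by
      rw [PowerSeries.isUnit_iff_constantCoeff, c.cc]
      exact isUnit_one
    have h2 : IsUnit (TW.u c g * TW.u c g⁻¹) := by
      rw [e]
      exact h1.map (algebraMap (PowerSeries F) (TW c))
    exact isUnit_of_mul_isUnit_left h2

end HHx
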