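import Pool.Agent.Lib.MP_181146_gt.HH.SpecZ

/-!
# Project HH, module TRed: `F[G]` is finite, torsion free and reduced
-/

set_option autoImplicit false

namespace HHx

open HEp HBx
open scoped TensorProduct

namespace TRed

variable {F G : Type} [CommRing F] [CommGroup G] [Finite G]

/-- The trace of multiplication by `z` is `|G| z_1`. -/
lemma trace_eq (z : MonoidAlgebra F G) :
    Algebra.trace F (MonoidAlgebra F G) z = (Nat.card G : ℤ) • z.coeff 1 := by
  classical
  have := Fintype.ofFinite G
  rw [Algebra.trace_eq_matrix_trace (MonoidAlgebra.basis G F) z, Matrix.trace]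
  have h : ∀ g : G, (Algebra.leftMulMatrix (MonoidAlgebra.basis G F) z).diag g = z.coeff 1 := by
    intro g
    rw [Matrix.diag_apply, Algebra.leftMulMatrix_eq_repr_mul, MonoidAlgebra.basis_apply]
    have e := MonoidAlgebra.coeff_mul_single_mul z (1 : F) g 1
    rw [one_mul, mul_one] at e
    exact e
  rw [Finset.sum_congr rfl (fun g _ => h g), Finset.sum_const, Finset.card_univ,
    Nat.card_eq_fintype_card, natCast_zsmul]

lemma coeff_one (hr : IsReduced F) (tf : ∀ (n : ℤ) (x : F), n ≠ 0 → n • x = 0 → x = 0)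
    {z : MonoidAlgebra F G} (hz : IsNilpotent z) : z.coeff 1 = 0 := by
  have h1 := Algebra.isNilpotent_trace_of_isNilpotent (R := F) hz
  have h2 := h1.eq_zero
  rw [trace_eq] at h2
  have h3 : (Nat.card G : ℤ) ≠ 0 := by
    have : Nat.card G ≠ 0 := Nat.card_pos.ne'
    exact_mod_cast this
  exact tf _ _ h3 h2

end TRed

theorem sTRed : S_TRed := by
  intro F G _ _ hr tf _ _
  have := Fintype.ofFinite G
  refine ⟨?_, ?_, ⟨?_⟩⟩
  · exact Module.Finite.equiv (MonoidAlgebra.coeffLinearEquiv (M := G) (S := F) ℤ).symm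
  · intro n x hn hx
    have h1 := (MonoidAlgebra.coeffLinearEquiv (M := G) (S := F) ℤ).map_smul n x
    rw [hx, map_zero] at h1
    apply (MonoidAlgebra.coeffLinearEquiv (M := G) (S := F) ℤ).injective
    rw [map_zero]
    refine Finsupp.ext fun g => ?_
    refine tf n _ hn ?_
    have h2 := DFunLike.congr_fun h1 g
    exact h2.symm
  · intro x hx
    apply (MonoidAlgebra.coeffLinearEquiv (M := G) (S := F) ℤ).injective
    rw [map_zero]
    refine Finsupp.ext fun g => ?_
    have h1 : IsNilpotent (x * MonoidAlgebra.single g⁻¹ (1 : F)) :=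
      (Commute.all x _).isNilpotent_mul_right hx
    have h2 := TRed.coeff_one hr tf h1
    have h3 := MonoidAlgebra.coeff_mul_single_mul x (1 : F) g⁻¹ g
    rw [mul_inv_cancel, mul_one, h2] at h3
    exact h3.symm

end HHx
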