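import Pool.Agent.Lib.MP_181146_gt.HH.SpecZ
import Pool.Agent.Lib.MP_181146_gt.HE.KPi

/-!
# Project HH, module ZEC: the Euler class of the complex indexed by `ℕ`
-/

set_option autoImplicit false

namespace HHx

open HEp HBx
open scoped TensorProduct

namespace ZEC

section

variable {R : Type} [CommRing R]

private noncomputable def f (U : ZCx R) (i : ℤ) : KT R := (i.negOnePow : ℤ) • cl R (U.P i)

private theorem f_zero (U : ZCx R) {i : ℤ} (h : (U.N : ℤ) < |i|) : f U i = 0 := by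
  have := U.bdd i h
  unfold f
  rw [cl_subsingleton, smul_zero]

private theorem ec_eq (U : ZCx R) (n : ℕ) (hn : U.N < n) :
    U.EC = ∑ a ∈ Finset.range (2 * (2 * n)), f U ((a : ℤ) - 2 * n) := by
  have h1 : U.EC = ∑ i ∈ Finset.Ico (-(2 * n : ℤ)) (2 * n), f U i := by
    unfold ZCx.EC
    refine Finset.sum_subset (f := f U) ?_ ?_
    · intro i hi
      rw [Finset.mem_Icc] at hi
      rw [Finset.mem_Ico]
      omega
    · intro i _ hi
      rw [Finset.mem_Icc, not_and_or, not_le, not_le] at hi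
      apply f_zero
      rw [lt_abs]
      omega
  rw [h1]
  refine (Finset.sum_nbij (fun a : ℕ => (a : ℤ) - 2 * n) ?_ ?_ ?_ ?_).symm
  · intro a ha
    rw [Finset.mem_range] at ha
    rw [Finset.mem_Ico]
    omega
  · intro a _ b _ h
    have h' : (a : ℤ) - 2 * n = (b : ℤ) - 2 * n := h
    omega
  · intro i hi
    rw [Finset.mem_coe, Finset.mem_Ico] at hi
    refine ⟨(i + 2 * n).toNat, ?_, ?_⟩
    · rw [Finset.mem_coe, Finset.mem_range]
      omega
    · change (((i + 2 * n).toNat : ℕ) : ℤ) - 2 * n = i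
      omega
  · intro a _
    rfl

private theorem pair (F : ℕ → KT R) (m : ℕ) :
    ∑ a ∈ Finset.range (2 * m), F a = ∑ j ∈ Finset.range m, (F (2 * j) + F (2 * j + 1)) := by
  induction m with
  | zero => rfl
  | succ m ih =>
    rw [show 2 * (m + 1) = 2 * m + 1 + 1 by ring, Finset.sum_range_succ, Finset.sum_range_succ, ih,
      Finset.sum_range_succ, add_assoc]

private theorem f_even (U : ZCx R) (n j : ℕ) :
    f U (((2 * j : ℕ) : ℤ) - 2 * n) = cl R (NP U n (2 * j)) := by
  have h : Even (((2 * j : ℕ) : ℤ) - 2 * n) := ⟨(j : ℤ) - n, by push_cast; ring⟩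
  unfold f
  rw [Int.negOnePow_even _ h, Units.val_one, one_smul]
  rfl

private theorem f_odd (U : ZCx R) (n j : ℕ) :
    f U (((2 * j + 1 : ℕ) : ℤ) - 2 * n) = -cl R (NP U n (2 * j + 1)) := by
  have h : Odd (((2 * j + 1 : ℕ) : ℤ) - 2 * n) := ⟨(j : ℤ) - n, by push_cast; ring⟩
  unfold f
  rw [Int.negOnePow_odd _ h, Units.val_neg, Units.val_one, neg_one_smul]
  rfl

end

end ZEC

theorem sZEC (_hZShf : S_ZShf) : S_ZEC := by
  intro R _ U n hn
  rw [ZEC.ec_eq U n hn, ZEC.pair, sKPi R (Fin (2 * n)) (fun j => NP U n (2 * (j : ℕ))),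
    sKPi R (Fin (2 * n)) (fun j => NP U n (2 * (j : ℕ) + 1)),
    Fin.sum_univ_eq_sum_range (fun j => cl R (NP U n (2 * j))) (2 * n),
    Fin.sum_univ_eq_sum_range (fun j => cl R (NP U n (2 * j + 1))) (2 * n), ← Finset.sum_sub_distrib]
  refine Finset.sum_congr rfl fun j _ => ?_
  rw [ZEC.f_even, ZEC.f_odd, sub_eq_add_neg]

end HHx
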