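import Pool.Agent.Lib.MP_181146_gt.HH.SpecZ

/-!
# MP_181146_gt, project HH: the homology modules agree (helper72)
-/

set_option autoImplicit false

namespace HHx

open HEp HBx
open scoped TensorProduct

private lemma ZHc_bdy {R : Type} [CommRing R] (U : ZCx R) (k : ℤ) (x : (gc U).Z k) :
    x ∈ (gc U).B k ↔ U.Bdy k x.1 := by
  constructor
  · rintro ⟨y, hy⟩
    exact ⟨k + 1, y, hy⟩
  · rintro ⟨j, y, hy⟩
    by_cases hj : k + 1 = j
    · subst hj
      exact ⟨y, hy⟩
    · rw [U.shape j k hj] at hy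
      have h0 : x = 0 := Subtype.ext hy.symm
      rw [h0]
      exact Submodule.zero_mem _

private lemma ZHc_cyc {R : Type} [CommRing R] (U : ZCx R) (k : ℤ) (x : (gc U).Z k) :
    U.Cyc k x.1 := by
  intro j
  by_cases hj : j + 1 = k
  · obtain rfl : j = k - 1 := by omega
    exact x.2
  · rw [U.shape k j hj]
    rfl

theorem sZHc (hZShf : S_ZShf) : S_ZHc := by
  intro R _ U n hn i
  obtain ⟨_, _, _, h4, h5⟩ := hZShf R U n hn
  let k : ℤ := (i : ℤ) - 2 * n
  have hmem : ∀ x : Zc (ND U n) i, U.Cyc k x.1 := fun x => (h4 i x.1).1 x.2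
  let z : Zc (ND U n) i → (gc U).Z k := fun x => ⟨x.1, hmem x (k - 1)⟩
  let φ : Zc (ND U n) i →ₗ[R] (gc U).H k :=
    { toFun := fun x => ((gc U).B k).mkQ (z x)
      map_add' := fun x y => by
        rw [← map_add]
        exact congrArg ((gc U).B k).mkQ (Subtype.ext rfl)
      map_smul' := fun b x => by
        rw [RingHom.id_apply, ← map_smul]
        exact congrArg ((gc U).B k).mkQ (Subtype.ext rfl) }
  have hφ : ∀ x, φ x = 0 ↔ U.Bdy k x.1 := by
    intro x
    have e : φ x = 0 ↔ z x ∈ (gc U).B k := Submodule.Quotient.mk_eq_zero _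
    rw [e, ZHc_bdy]
  have hker : (LinearMap.range (ND U n i)).comap (Zc (ND U n) i).subtype = LinearMap.ker φ := by
    ext x
    rw [LinearMap.mem_ker, hφ, Submodule.mem_comap]
    exact h5 i x.1
  have hsurj : Function.Surjective φ := by
    intro w
    obtain ⟨y, rfl⟩ := ((gc U).B k).mkQ_surjective w
    exact ⟨⟨y.1, (h4 i y.1).2 (ZHc_cyc U k y)⟩, congrArg ((gc U).B k).mkQ (Subtype.ext rfl)⟩
  exact ⟨(Submodule.quotEquivOfEq _ _ hker).trans (φ.quotKerEquivOfSurjective hsurj)⟩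

end HHx
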