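import Pool.Agent.Lib.MP_181146_gt.HH.SpecZ

/-!
# Project HH, module ZLen: lengths of localized homology modules
-/

set_option autoImplicit false

namespace HHx

open HEp HBx
open scoped TensorProduct

namespace ZLen

/-- The length of a localized module which is killed by the maximal ideal. -/
private lemma core {S A L : Type} [CommRing S] [CommRing A] [Field L] [Algebra S A] [Algebra A L]
    (hsurj : Function.Surjective (algebraMap A L)) (H M : Type) [AddCommGroup H] [Module S H]
    [Module.Finite S H] [AddCommGroup M] [Module A M] (e : A ⊗[S] H ≃ₗ[A] M)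
    (h0 : ∀ a : A, algebraMap A L a = 0 → ∀ m : M, a • m = 0) (r : S →+* L)
    (hr : (algebraMap A L).comp (algebraMap S A) = r) :
    Module.length A M = (hrk r H : ℕ) := by
  subst hr
  unfold hrk
  let : Algebra S L := ((algebraMap A L).comp (algebraMap S A)).toAlgebra
  have : IsScalarTower S A L := IsScalarTower.of_algebraMap_eq (fun _ => rfl)
  let c : L ⊗[A] (A ⊗[S] H) ≃ₗ[L] L ⊗[S] H :=
    TensorProduct.AlgebraTensorModule.cancelBaseChange S A L L H
  let c2 : L ⊗[A] (A ⊗[S] H) ≃ₗ[L] L ⊗[A] M := LinearEquiv.baseChange A L _ _ e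
  let I : Ideal A := RingHom.ker (Algebra.ofId A L)
  let w : (A ⧸ I) ≃ₐ[A] L :=
    Ideal.quotientKerAlgEquivOfSurjective (f := Algebra.ofId A L) hsurj
  have hI : I • (⊤ : Submodule A M) = ⊥ := by
    rw [eq_bot_iff]
    refine Submodule.smul_le.2 ?_
    intro a ha m _
    have h1 : algebraMap A L a = 0 := ha
    rw [h0 a h1 m]
    exact Submodule.zero_mem _
  let c3 : L ⊗[A] M ≃ₗ[A] M :=
    (TensorProduct.congr w.symm.toLinearEquiv (LinearEquiv.refl A M)).trans
      ((TensorProduct.quotTensorEquivQuotSMul M I).trans (Submodule.quotEquivOfEqBot _ hI))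
  have : Module.Finite L (L ⊗[S] H) := Module.Finite.base_change S L H
  have e1 : Module.length A M = Module.length A (L ⊗[A] M) := c3.symm.length_eq
  have e2 : Module.length A (L ⊗[A] M) = Module.length L (L ⊗[A] M) :=
    Module.length_eq_of_surjective hsurj
  have e3 : Module.length L (L ⊗[A] M) = Module.length L (L ⊗[S] H) :=
    (c2.symm.trans c).length_eq
  rw [e1, e2, e3, Module.length_eq_finrank]

end ZLen

/-- Lengths of localized homology modules. -/
theorem sZLen (hALoc : S_ALoc) (_hLzE : S_LzE) : S_ZLen := by
  intro F G S _ _ _ s φ hg u hu q _ hq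
  by_cases hc : ∀ g, φ (u g) - 1 ∈ q
  · right
    obtain ⟨⟨hdom, hdvr⟩, hirr, hint, hunit⟩ := hALoc S (MonoidAlgebra F G) s φ hg q hq
    have : IsLocalRing (Lq φ q) := inferInstanceAs (IsLocalRing (Localization.AtPrime (q.comap φ)))
    let A := Lq φ q
    let L := IsLocalRing.ResidueField A
    have hsurj : Function.Surjective (algebraMap A L) := IsLocalRing.residue_surjective
    have hker : ∀ a : A, algebraMap A L a = 0 ↔ ¬ IsUnit a := by
      intro a
      change IsLocalRing.residue A a = 0 ↔ _
      rw [IsLocalRing.residue_eq_zero_iff, IsLocalRing.mem_maximalIdeal]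
      rfl
    have hchar : CharZero L := by
      refine charZero_of_inj_zero ?_
      intro n hn
      by_contra hn0
      have h1 : IsUnit ((n : ℤ) : A) := hint n (by exact_mod_cast hn0)
      have h2 : algebraMap A L ((n : ℤ) : A) = 0 := by
        rw [map_intCast]
        exact_mod_cast hn
      exact (hker _).1 h2 h1
    let r : S →+* L := (algebraMap A L).comp (algebraMap S A)
    have hr0 : ∀ x : S, φ x ∈ q → r x = 0 := by
      intro x hx
      exact (hker _).2 (fun h => (hunit x).1 h hx)
    have hle : ∀ x : S, φ x = 0 → r x = 0 := by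
      intro x hx
      refine hr0 x ?_
      rw [hx]
      exact q.zero_mem
    obtain ⟨ε, hε⟩ : ∃ ε : MonoidAlgebra F G →+* L, ε.comp φ = r := by
      refine ⟨(Ideal.Quotient.lift (RingHom.ker φ) r (fun a ha => hle a ha)).comp
        (RingHom.quotientKerEquivOfSurjective hg.surj).symm.toRingHom, ?_⟩
      apply RingHom.ext
      intro x
      have h1 : (RingHom.quotientKerEquivOfSurjective hg.surj).symm (φ x) =
          Ideal.Quotient.mk (RingHom.ker φ) x := by
        rw [RingEquiv.symm_apply_eq]
        rfl
      change Ideal.Quotient.lift (RingHom.ker φ) r (fun a ha => hle a ha)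
        ((RingHom.quotientKerEquivOfSurjective hg.surj).symm (φ x)) = r x
      rw [h1, Ideal.Quotient.lift_mk]
    have hεg : ∀ g, ε (MonoidAlgebra.of F G g) = 1 := by
      intro g
      rw [← hu g, ← RingHom.comp_apply, hε]
      have h1 : r (u g - 1) = 0 := by
        refine hr0 _ ?_
        rw [map_sub, map_one]
        exact hc g
      rw [map_sub, map_one] at h1
      exact sub_eq_zero.1 h1
    let e : F →+* L := ε.comp (algebraMap F (MonoidAlgebra F G))
    have hee : e.comp (augF F G) = ε := by
      apply MonoidAlgebra.ringHom_ext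
      · intro a
        have h1 : (MonoidAlgebra.single (1 : G) a : MonoidAlgebra F G) =
            algebraMap F (MonoidAlgebra F G) a := rfl
        have h2 : augF F G (algebraMap F (MonoidAlgebra F G) a) = a :=
          (MonoidAlgebra.lift F F G (1 : G →* F)).commutes a
        rw [h1, RingHom.comp_apply, h2]
        rfl
      · intro g
        have h1 : (MonoidAlgebra.single g (1 : F) : MonoidAlgebra F G) =
            MonoidAlgebra.of F G g := rfl
        rw [h1, hεg, RingHom.comp_apply, augF_of, map_one]
    refine ⟨L, inferInstance, hchar, e, ?_⟩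
    intro H _ _ _ hs
    have hr : e.comp ((augF F G).comp φ) = r := by
      rw [← RingHom.comp_assoc, hee, hε]
    rw [hr]
    let T : Submonoid S := (q.comap φ).primeCompl
    refine ZLen.core (A := A) hsurj H (Mq φ q H)
      (IsLocalizedModule.isBaseChange T A (LocalizedModule.mkLinearMap T H)).equiv ?_ r rfl
    have hsx : ∀ m : Mq φ q H, algebraMap S A s • m = 0 := by
      intro m
      induction m using LocalizedModule.induction_on with
      | _ x t =>
        rw [algebraMap_smul, LocalizedModule.smul'_mk, hs, LocalizedModule.zero_mk]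
    intro a ha m
    have h1 : a ∈ IsLocalRing.maximalIdeal A := (IsLocalRing.mem_maximalIdeal _).2 ((hker a).1 ha)
    have h2 : IsLocalRing.maximalIdeal A = Ideal.span {algebraMap S A s} := hirr.maximalIdeal_eq
    rw [h2] at h1
    obtain ⟨b, rfl⟩ := Ideal.mem_span_singleton.1 h1
    rw [mul_smul, hsx]
  · left
    push Not at hc
    obtain ⟨g, hg1⟩ := hc
    intro H _ _ hH
    rw [LocalizedModule.subsingleton_iff]
    intro m
    refine ⟨u g - 1, ?_, ?_⟩
    · intro h
      apply hg1
      have : φ (u g - 1) ∈ q := h
      rwa [map_sub, map_one] at this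
    · rw [sub_smul, one_smul, hH, sub_self]

end HHx
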