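import Pool.Agent.Lib.MP_181146_gt.HH.SpecZ

/-!
# Project HH: Theorem H for complexes indexed by `ℤ` (module ZMain)
-/

set_option autoImplicit false

namespace HHx

open HEp HBx
open scoped TensorProduct

namespace ZMain

lemma hrk_sub {R L : Type} [CommRing R] [Field L] (ε : R →+* L) (M : Type) [AddCommGroup M]
    [Module R M] [Subsingleton M] : hrk ε M = 0 := by
  let _ : Algebra R L := ε.toAlgebra
  have h : Subsingleton (L ⊗[R] M) := by
    refine ⟨fun a b => ?_⟩
    have key : ∀ t : L ⊗[R] M, t = 0 := by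
      intro t
      induction t using TensorProduct.induction_on with
      | zero => rfl
      | tmul x y => rw [Subsingleton.elim y 0, TensorProduct.tmul_zero]
      | add x y hx hy => rw [hx, hy, add_zero]
    rw [key a, key b]
  exact Module.finrank_zero_of_subsingleton

lemma hrk_congr {R L : Type} [CommRing R] [Field L] (ε : R →+* L) (M M' : Type) [AddCommGroup M]
    [Module R M] [AddCommGroup M'] [Module R M'] (e : M ≃ₗ[R] M') : hrk ε M = hrk ε M' := by
  let _ : Algebra R L := ε.toAlgebra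
  exact LinearEquiv.finrank_eq
    (TensorProduct.AlgebraTensorModule.congr (LinearEquiv.refl L L) e : L ⊗[R] M ≃ₗ[L] L ⊗[R] M')

lemma sum_pairs (g : ℕ → ℤ) (m : ℕ) :
    ∑ a ∈ Finset.range (2 * m), g a = ∑ j ∈ Finset.range m, (g (2 * j) + g (2 * j + 1)) := by
  induction m with
  | zero => rfl
  | succ m ih =>
    rw [Finset.sum_range_succ, ← ih, show 2 * (m + 1) = 2 * m + 1 + 1 by ring,
      Finset.sum_range_succ, Finset.sum_range_succ]
    ring

/-- The alternating sum over the shifted range. -/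
lemma alt_sum (w : ℤ → ℕ) (n N' : ℕ) (h1 : ∀ i : ℤ, (N' : ℤ) < |i| → w i = 0)
    (h2 : ∑ i ∈ Finset.Icc (-(N' : ℤ)) N', (i.negOnePow : ℤ) * (w i : ℤ) = 0)
    (h3 : ∀ i : ℤ, (2 * n : ℤ) ≤ |i| → w i = 0) :
    ∑ j ∈ Finset.range (2 * n), w (((2 * j : ℕ) : ℤ) - 2 * n) =
      ∑ j ∈ Finset.range (2 * n), w (((2 * j + 1 : ℕ) : ℤ) - 2 * n) := by
  set f : ℤ → ℤ := fun i => (i.negOnePow : ℤ) * (w i : ℤ) with hf
  have hf0 : ∀ i, w i = 0 → f i = 0 := fun i hi => by
    change (i.negOnePow : ℤ) * (w i : ℤ) = 0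
    rw [hi, Nat.cast_zero, mul_zero]
  have e1 : ∑ i ∈ Finset.Icc (-(N' : ℤ)) N', f i =
      ∑ i ∈ Finset.Icc (-((N' + 2 * n : ℕ) : ℤ)) ((N' + 2 * n : ℕ) : ℤ), f i := by
    refine Finset.sum_subset ?_ ?_
    · intro i hi
      rw [Finset.mem_Icc] at hi ⊢
      push_cast
      omega
    · intro i _ hi
      apply hf0
      apply h1
      rw [Finset.mem_Icc] at hi
      by_contra hc
      rw [not_lt, abs_le] at hc
      exact hi hc
  have e2 : ∑ i ∈ Finset.Ico (-(2 * n : ℤ)) (2 * n : ℤ), f i =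
      ∑ i ∈ Finset.Icc (-((N' + 2 * n : ℕ) : ℤ)) ((N' + 2 * n : ℕ) : ℤ), f i := by
    refine Finset.sum_subset ?_ ?_
    · intro i hi
      rw [Finset.mem_Ico] at hi
      rw [Finset.mem_Icc]
      push_cast
      omega
    · intro i _ hi
      apply hf0
      apply h3
      rw [Finset.mem_Ico] at hi
      by_contra hc
      rw [not_le, abs_lt] at hc
      exact hi ⟨hc.1.le, hc.2⟩
  have e3 : ∑ a ∈ Finset.range (2 * (2 * n)), f ((a : ℤ) - 2 * n) =
      ∑ i ∈ Finset.Ico (-(2 * n : ℤ)) (2 * n : ℤ), f i := by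
    refine Finset.sum_nbij' (fun a => (a : ℤ) - 2 * n) (fun i => (i + 2 * n).toNat) ?_ ?_ ?_ ?_ ?_
    · intro a ha
      rw [Finset.mem_range] at ha
      rw [Finset.mem_Ico]
      constructor
      · omega
      · omega
    · intro i hi
      rw [Finset.mem_Ico] at hi
      rw [Finset.mem_range]
      omega
    · intro a _
      rw [sub_add_cancel]
      exact Int.toNat_natCast a
    · intro i hi
      rw [Finset.mem_Ico] at hi
      rw [Int.toNat_of_nonneg (by omega)]
      ring
    · intro a _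
      rfl
  have e4 : ∑ a ∈ Finset.range (2 * (2 * n)), f ((a : ℤ) - 2 * n) = 0 := by
    rw [e3, e2, ← e1]
    exact h2
  rw [sum_pairs (fun a => f ((a : ℤ) - 2 * n))] at e4
  have e5 : ∀ j ∈ Finset.range (2 * n),
      f (((2 * j : ℕ) : ℤ) - 2 * n) + f (((2 * j + 1 : ℕ) : ℤ) - 2 * n) =
        (w (((2 * j : ℕ) : ℤ) - 2 * n) : ℤ) - (w (((2 * j + 1 : ℕ) : ℤ) - 2 * n) : ℤ) := by
    intro j _
    have a1 : Int.negOnePow (((2 * j : ℕ) : ℤ) - 2 * n) = 1 :=
      Int.negOnePow_even _ ⟨(j : ℤ) - n, by push_cast; ring⟩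
    have a2 : Int.negOnePow (((2 * j + 1 : ℕ) : ℤ) - 2 * n) = -1 :=
      Int.negOnePow_odd _ ⟨(j : ℤ) - n, by push_cast; ring⟩
    change (Int.negOnePow (((2 * j : ℕ) : ℤ) - 2 * n) : ℤ) * _ +
      (Int.negOnePow (((2 * j + 1 : ℕ) : ℤ) - 2 * n) : ℤ) * _ = _
    rw [a1, a2]
    push_cast
    ring
  rw [Finset.sum_congr rfl e5, Finset.sum_sub_distrib, sub_eq_zero] at e4
  exact_mod_cast e4

end ZMain

open ZMain in
/-- **Theorem H.** -/
theorem sZMain (hGMain : S_GMain) (hZShf : S_ZShf) (hZHc : S_ZHc) (hZEC : S_ZEC) (hZLen : S_ZLen)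
    (_hLzE : S_LzE) : S_ZMain := by
  intro F G S _ _ _ s φ hg u hu U Ub r hs hug hE
  have hN := hg.noeth
  set n : ℕ := max U.N Ub.N + 1 with hn
  have hnU : U.N < n := lt_of_le_of_lt (le_max_left _ _) (Nat.lt_succ_self _)
  have hnUb : Ub.N < n := lt_of_le_of_lt (le_max_right _ _) (Nat.lt_succ_self _)
  obtain ⟨z1, -, z3, z4, z5⟩ := hZShf S U n hnU
  have hfinH : ∀ i, Module.Finite S (Hc (ND U n) i) := fun i => inferInstance
  -- the action on the homology
  have hact : ∀ (a b : S), (∀ i x, U.Cyc i x → U.Bdy i (a • x - b • x)) →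
      ∀ i, ∀ x : Hc (ND U n) i, a • x = b • x := by
    intro a b hab i x
    obtain ⟨z, rfl⟩ := Submodule.Quotient.mk_surjective _ x
    rw [← Submodule.Quotient.mk_smul, ← Submodule.Quotient.mk_smul, ← sub_eq_zero,
      ← Submodule.Quotient.mk_sub, Submodule.Quotient.mk_eq_zero, Submodule.mem_comap]
    change a • (z : NP U n i) - b • (z : NP U n i) ∈ LinearMap.range (ND U n i)
    rw [LinearMap.mem_range]
    exact (z5 i _).2 (hab _ _ ((z4 i _).1 z.2))
  have key := hGMain S (MonoidAlgebra F G) s φ hg (NP U n) (NP Ub n) (2 * n) z1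
    (fun i => { c := r.c ((i : ℤ) - 2 * n), sl := r.sl _, surj := r.surj _, ker := r.ker _ })
    (ND U n) z3 ?_ ?_
  · rw [hZEC (MonoidAlgebra F G) Ub n hnUb, key, sub_self]
  · intro i x hx
    exact (z5 i _).2 (hs _ _ ((z4 i x).1 hx))
  · intro q _ hq
    rcases hZLen F G S s φ hg u hu q hq with h | ⟨L, _, _, e, h⟩
    · refine ⟨fun _ => 0, fun i => ?_, ?_⟩
      · have h1 : Subsingleton (Mq φ q (Hc (ND U n) i)) := h _ fun g x => by
          have h2 := hact (u g) 1 (fun i x hx => by rw [one_smul]; exact hug g i x hx) i x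
          rwa [one_smul] at h2
        rw [Module.length_eq_zero_iff.2 h1]
        rfl
      · rfl
    · obtain ⟨-, N', hN1, hN2⟩ := hE L e
      set ε : S →+* L := e.comp ((augF F G).comp φ) with hε
      refine ⟨fun i => hrk ε (Hc (ND U n) i), fun i => ?_, ?_⟩
      · refine h _ fun x => ?_
        have h2 := hact s 0 (fun i x hx => by rw [zero_smul, sub_zero]; exact hs i x hx) i x
        rwa [zero_smul] at h2
      · have hw : ∀ i : ℕ, hrk ε (Hc (ND U n) i) = hrk ε ((gc U).H ((i : ℤ) - 2 * n)) := by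
          intro i
          obtain ⟨e'⟩ := hZHc S U n hnU i
          exact hrk_congr ε _ _ e'
        have h3 := alt_sum (fun i => hrk ε ((gc U).H i)) n N'
          (fun i hi => by
            have := hN1 i hi
            exact hrk_sub ε _) hN2
          (fun i hi => by
            have h4 : Subsingleton (U.P i) := U.bdd i (by omega)
            have h5 : Subsingleton ((gc U).H i) := by
              refine ⟨fun a b => ?_⟩
              obtain ⟨a, rfl⟩ := Submodule.Quotient.mk_surjective _ a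
              obtain ⟨b, rfl⟩ := Submodule.Quotient.mk_surjective _ b
              congr 1
              exact Subtype.ext (Subsingleton.elim (α := U.P i) _ _)
            exact hrk_sub ε _)
        change ∑ j ∈ Finset.range (2 * n), hrk ε (Hc (ND U n) (2 * j)) =
          ∑ j ∈ Finset.range (2 * n), hrk ε (Hc (ND U n) (2 * j + 1))
        rw [Finset.sum_congr rfl fun j _ => hw (2 * j), Finset.sum_congr rfl fun j _ => hw (2 * j + 1)]
        exact h3

end HHx
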