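import Pool.Agent.Lib.MP_181146_gt.HH.SpecZ

/-!
# Project HH, task ZShf: the complex indexed by `ℕ`
-/

set_option linter.unusedVariables false
set_option autoImplicit false

namespace HHx

open HEp HBx
open scoped TensorProduct

section

variable {R : Type} [CommRing R]

private lemma zs_cyc {U : ZCx R} {a b : ℤ} (hb : b + 1 = a) (x : U.P a) :
    U.d a b x = 0 ↔ U.Cyc a x := by
  refine ⟨fun h j => ?_, fun h => h b⟩
  by_cases hj : j + 1 = a
  · obtain rfl : j = b := by omega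
    exact h
  · rw [U.shape a j hj]
    rfl

private lemma zs_cyc0 {U : ZCx R} {a : ℤ} (ha : (U.N : ℤ) < |a - 1|) (x : U.P a) :
    U.Cyc a x := by
  haveI : Subsingleton (U.P (a - 1)) := U.bdd (a - 1) ha
  rw [← zs_cyc (U := U) (a := a) (b := a - 1) (by omega) x]
  exact Subsingleton.elim _ _

private lemma zs_bdy {U : ZCx R} {a k : ℤ} (hk : a + 1 = k) (x : U.P a) :
    (∃ y : U.P k, U.d k a y = x) ↔ U.Bdy a x := by
  refine ⟨fun ⟨y, hy⟩ => ⟨k, y, hy⟩, fun ⟨l, y, hy⟩ => ?_⟩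
  by_cases hl : a + 1 = l
  · obtain rfl : l = k := by omega
    exact ⟨y, hy⟩
  · rw [U.shape l a hl] at hy
    refine ⟨0, ?_⟩
    rw [map_zero, ← hy]
    rfl

end

theorem sZShf : S_ZShf := by
  intro R _ U n hn
  refine ⟨fun i hi => ?_, ?_, fun i x => ?_, fun i x => ?_, fun i x => ?_⟩
  · refine U.bdd ((i : ℤ) - 2 * n) ?_
    rw [abs_of_nonneg (by omega)]
    omega
  · refine U.bdd (((0 : ℕ) : ℤ) - 2 * n) ?_
    rw [abs_of_nonpos (by omega)]
    omega
  · exact U.dd (((i + 1 + 1 : ℕ) : ℤ) - 2 * n) (((i + 1 : ℕ) : ℤ) - 2 * n) ((i : ℤ) - 2 * n) x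
  · cases i with
    | zero =>
      refine ⟨fun _ => ?_, fun _ => Submodule.mem_top⟩
      refine zs_cyc0 (U := U) (a := ((0 : ℕ) : ℤ) - 2 * n) ?_ x
      rw [abs_of_nonpos (by omega)]
      omega
    | succ i =>
      exact zs_cyc (U := U) (a := ((i + 1 : ℕ) : ℤ) - 2 * n) (b := (i : ℤ) - 2 * n)
        (by push_cast; ring) x
  · exact zs_bdy (U := U) (a := (i : ℤ) - 2 * n) (k := ((i + 1 : ℕ) : ℤ) - 2 * n)
      (by push_cast; ring) x

end HHx
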