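import Pool.Agent.Lib.MP_181146_gt.HH.ALoc
import Pool.Agent.Lib.MP_181146_gt.HH.ADvd
import Pool.Agent.Lib.MP_181146_gt.HH.AMin
import Pool.Agent.Lib.MP_181146_gt.HH.BOrd
import Pool.Agent.Lib.MP_181146_gt.HH.BLen
import Pool.Agent.Lib.MP_181146_gt.HH.BNil
import Pool.Agent.Lib.MP_181146_gt.HH.BCmp
import Pool.Agent.Lib.MP_181146_gt.HH.BPair
import Pool.Agent.Lib.MP_181146_gt.HH.CSpl
import Pool.Agent.Lib.MP_181146_gt.HH.CPj
import Pool.Agent.Lib.MP_181146_gt.HH.CYX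
import Pool.Agent.Lib.MP_181146_gt.HH.CFn
import Pool.Agent.Lib.MP_181146_gt.HH.CCok
import Pool.Agent.Lib.MP_181146_gt.HH.CZR
import Pool.Agent.Lib.MP_181146_gt.HH.CFin
import Pool.Agent.Lib.MP_181146_gt.HH.LzE
import Pool.Agent.Lib.MP_181146_gt.HH.LzQ
import Pool.Agent.Lib.MP_181146_gt.HH.LzP
import Pool.Agent.Lib.MP_181146_gt.HH.LCx
import Pool.Agent.Lib.MP_181146_gt.HH.LCk
import Pool.Agent.Lib.MP_181146_gt.HH.DGh
import Pool.Agent.Lib.MP_181146_gt.HH.FK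
import Pool.Agent.Lib.MP_181146_gt.HH.FSL
import Pool.Agent.Lib.MP_181146_gt.HH.FFac
import Pool.Agent.Lib.MP_181146_gt.HH.FMat
import Pool.Agent.Lib.MP_181146_gt.HH.FPat
import Pool.Agent.Lib.MP_181146_gt.HH.ERk
import Pool.Agent.Lib.MP_181146_gt.HH.ERd
import Pool.Agent.Lib.MP_181146_gt.HH.EBas
import Pool.Agent.Lib.MP_181146_gt.HH.EVal
import Pool.Agent.Lib.MP_181146_gt.HH.EDiv
import Pool.Agent.Lib.MP_181146_gt.HH.ECore
import Pool.Agent.Lib.MP_181146_gt.HH.GRk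
import Pool.Agent.Lib.MP_181146_gt.HH.GLen
import Pool.Agent.Lib.MP_181146_gt.HH.GLoc
import Pool.Agent.Lib.MP_181146_gt.HH.GMain
import Pool.Agent.Lib.MP_181146_gt.HH.TRed
import Pool.Agent.Lib.MP_181146_gt.HH.TGood
import Pool.Agent.Lib.MP_181146_gt.HH.ZShf
import Pool.Agent.Lib.MP_181146_gt.HH.ZHc
import Pool.Agent.Lib.MP_181146_gt.HH.ZEC
import Pool.Agent.Lib.MP_181146_gt.HH.ZLen
import Pool.Agent.Lib.MP_181146_gt.HH.ZMain

/-!
# Project HH: Theorem H, assembled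
-/

set_option autoImplicit false

namespace HHx

/-- The determinants at the minimal primes. -/
theorem eVal : S_EVal := sEVal sALoc (sBPair (sBLen sBOrd) sBNil) sLzE sLzQ sLzP

/-- The core of Theorem H. -/
theorem eCore : S_ECore :=
  sECore (sERk sAMin) sERd sEBas eVal (sEDiv sALoc (sADvd sALoc)) (sFPat (sFMat sFK (sFFac sFSL)))

/-- Complexes over a discrete valuation ring. -/
theorem cFin : S_CFin :=
  sCFin (sCPj sCSpl) sCYX sCFn sCCok (sCZR sBOrd) (sBCmp (sBLen sBOrd) sBNil)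

theorem gLen : S_GLen := sGLen sALoc sBOrd sLzE sLzQ

/-- Theorem H for complexes indexed by `ℕ`. -/
theorem gMain : S_GMain :=
  sGMain sDGh sCYX sCFn (sGLoc sALoc (sLCx sLzE sLzQ sLzP) cFin (sCZR sBOrd) gLen) sGRk gLen
    (sLCk sLzE sLzQ sLzP) sERd eCore

/-- The twisted group ring satisfies the hypotheses of Theorem H. -/
theorem tGood : S_TGood := sTGood sTRed

/-- THEOREM H. -/
theorem zMain : S_ZMain :=
  sZMain gMain sZShf (sZHc sZShf) (sZEC sZShf) (sZLen sALoc sLzE) sLzE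

end HHx
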