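import Pool.Agent.Lib.MP_181146_gt.HH.SpecH

/-!
# Project HH, ALoc

The local ring `S_𝔭` is a discrete valuation ring with uniformizer `s`.
-/

set_option autoImplicit false

namespace HHx

open HEp HBx
open scoped TensorProduct

namespace ALoc

/-- In a reduced ring an element of a minimal prime is killed by an element outside of it. -/
private lemma exists_ann {B : Type} [CommRing B] [IsReduced B] (q : Ideal B) [hqp : q.IsPrime]
    (hq : q ∈ minimalPrimes B) (b : B) (hb : b ∈ q) : ∃ t, t ∉ q ∧ t * b = 0 := by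
  by_contra hcon
  push Not at hcon
  have hdis : Disjoint ((⊥ : Ideal B) : Set B)
      ((q.primeCompl ⊔ Submonoid.powers b : Submonoid B) : Set B) := by
    rw [Set.disjoint_left]
    intro x hx hx2
    have hx0 : x = 0 := by simpa using hx
    subst hx0
    obtain ⟨t, ht, y, hy, hty⟩ := Submonoid.mem_sup.1 hx2
    obtain ⟨n, rfl⟩ := hy
    simp only at hty
    apply hcon t ht
    have h1 : (t * b) ^ (n + 1) = 0 := by
      calc (t * b) ^ (n + 1) = (t * b ^ n) * (t ^ n * b) := by ring
        _ = 0 := by rw [hty, zero_mul]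
    exact pow_eq_zero_iff (Nat.succ_ne_zero n) |>.1 h1
  obtain ⟨p, hp, -, hpd⟩ := Ideal.exists_le_prime_disjoint _ _ hdis
  have hpq : p ≤ q := by
    intro x hx
    by_contra hxq
    exact Set.disjoint_left.1 hpd hx ((le_sup_left : q.primeCompl ≤ _) hxq)
  have hqle : q ≤ p := hq.2 ⟨hp, bot_le⟩ hpq
  exact Set.disjoint_left.1 hpd (hqle hb)
    ((le_sup_right : Submonoid.powers b ≤ _) (Submonoid.mem_powers b))

end ALoc

open ALoc in
/-- The statement ALoc. -/
theorem sALoc : S_ALoc := by
  intro S B _ _ s φ hg q hqp hq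
  have := hg.noeth
  have := hg.red
  have hloc : IsLocalization.AtPrime (Lq φ q) (q.comap φ) :=
    inferInstanceAs (IsLocalization.AtPrime (Localization.AtPrime (q.comap φ)) (q.comap φ))
  have hA : IsLocalRing (Lq φ q) :=
    inferInstanceAs (IsLocalRing (Localization.AtPrime (q.comap φ)))
  have hN : IsNoetherianRing (Lq φ q) :=
    IsLocalization.isNoetherianRing (q.comap φ).primeCompl (Lq φ q) hg.noeth
  have hunit : ∀ x : S, IsUnit (algebraMap S (Lq φ q) x) ↔ φ x ∉ q := by
    intro x
    rw [IsLocalization.AtPrime.isUnit_to_map_iff (Lq φ q) (q.comap φ) x]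
    rfl
  have hφs : φ s = 0 := (hg.ker s).2 ⟨1, by rw [mul_one]⟩
  have hπn : ¬ IsUnit (algebraMap S (Lq φ q) s) := by
    rw [hunit, hφs]
    exact fun h => h q.zero_mem
  -- `s` is a non zero divisor
  have hnzd : ∀ z : Lq φ q, algebraMap S (Lq φ q) s * z = 0 → z = 0 := by
    intro z hz
    obtain ⟨x, t, rfl⟩ := IsLocalization.exists_mk'_eq (q.comap φ).primeCompl z
    rw [← IsLocalization.mk'_one (M := (q.comap φ).primeCompl) (Lq φ q) s,
      ← IsLocalization.mk'_mul, IsLocalization.mk'_eq_zero_iff] at hz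
    obtain ⟨m, hm⟩ := hz
    rw [IsLocalization.mk'_eq_zero_iff]
    refine ⟨m, hg.nzd _ ?_⟩
    rw [← hm]; ring
  -- the maximal ideal is generated by `s`
  have hdvd : ∀ z : Lq φ q, ¬ IsUnit z → ∃ w, z = algebraMap S (Lq φ q) s * w := by
    intro z hz
    obtain ⟨x, t, rfl⟩ := IsLocalization.exists_mk'_eq (q.comap φ).primeCompl z
    have hx : φ x ∈ q := by
      by_contra hx
      apply hz
      have h1 := (hunit x).2 hx
      have h2 : IsUnit (algebraMap S (Lq φ q) (t : S)) :=
        IsLocalization.map_units (Lq φ q) t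
      have h3 : IsLocalization.mk' (Lq φ q) x t * algebraMap S (Lq φ q) (t : S) =
          algebraMap S (Lq φ q) x := IsLocalization.mk'_spec (Lq φ q) x t
      rw [← h3] at h1
      exact isUnit_of_mul_isUnit_left h1
    obtain ⟨t', ht', htx⟩ := exists_ann q hq (φ x) hx
    obtain ⟨r, rfl⟩ := hg.surj t'
    rw [← map_mul] at htx
    obtain ⟨y, hy⟩ := (hg.ker _).1 htx
    have hru : IsUnit (algebraMap S (Lq φ q) r) := (hunit r).2 ht'
    obtain ⟨u, hu⟩ := hru
    have h2 : IsUnit (algebraMap S (Lq φ q) (t : S)) := IsLocalization.map_units (Lq φ q) t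
    have h3 : IsLocalization.mk' (Lq φ q) x t * algebraMap S (Lq φ q) (t : S) =
      algebraMap S (Lq φ q) x := IsLocalization.mk'_spec (Lq φ q) x t
    obtain ⟨v, hv⟩ := h2
    refine ⟨algebraMap S (Lq φ q) y * ((u⁻¹ : (Lq φ q)ˣ) : Lq φ q) * ((v⁻¹ : (Lq φ q)ˣ) : Lq φ q),
      ?_⟩
    have h4 : algebraMap S (Lq φ q) r * algebraMap S (Lq φ q) x =
        algebraMap S (Lq φ q) s * algebraMap S (Lq φ q) y := by
      rw [← map_mul, ← map_mul, hy]
    have h5 : IsLocalization.mk' (Lq φ q) x t =
        algebraMap S (Lq φ q) x * ((v⁻¹ : (Lq φ q)ˣ) : Lq φ q) := by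
      rw [← h3, ← hv, mul_assoc, Units.mul_inv, mul_one]
    have h6 : algebraMap S (Lq φ q) x =
        algebraMap S (Lq φ q) s * algebraMap S (Lq φ q) y * ((u⁻¹ : (Lq φ q)ˣ) : Lq φ q) := by
      rw [← h4, ← hu, mul_comm (u : Lq φ q), mul_assoc, Units.mul_inv, mul_one]
    rw [h5, h6]
    ring
  -- factorization
  have hfac : ∀ z : Lq φ q, z ≠ 0 → ∃ n : ℕ, ∃ u : (Lq φ q)ˣ,
      z = algebraMap S (Lq φ q) s ^ n * u := by
    intro z hz
    have hex : ∃ n : ℕ, ¬ (algebraMap S (Lq φ q) s ^ (n + 1) ∣ z) := by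
      by_contra hcon
      push Not at hcon
      apply hz
      have hkr := Ideal.iInf_pow_eq_bot_of_isLocalRing
        (Ideal.span {algebraMap S (Lq φ q) s}) (by
          intro htop
          exact hπn (Ideal.span_singleton_eq_top.1 htop))
      have hmem : z ∈ ⨅ i : ℕ, Ideal.span {algebraMap S (Lq φ q) s} ^ i := by
        rw [Ideal.mem_iInf]
        intro i
        rw [Ideal.span_singleton_pow, Ideal.mem_span_singleton]
        exact (pow_dvd_pow _ (Nat.le_succ i)).trans (hcon i)
      rw [hkr] at hmem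
      exact hmem
    classical
    have hspec := Nat.find_spec hex
    have hn : algebraMap S (Lq φ q) s ^ (Nat.find hex) ∣ z := by
      rcases Nat.eq_zero_or_pos (Nat.find hex) with h0 | h0
      · rw [h0, pow_zero]; exact one_dvd z
      · have h1 := Nat.find_min hex (m := Nat.find hex - 1) (by omega)
        rw [not_not] at h1
        rwa [Nat.sub_add_cancel h0] at h1
    obtain ⟨w, hw⟩ := hn
    have hwu : IsUnit w := by
      by_contra hwn
      obtain ⟨w', hw'⟩ := hdvd w hwn
      apply hspec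
      refine ⟨w', ?_⟩
      rw [pow_succ, mul_assoc, ← hw']
      exact hw
    obtain ⟨u, hu⟩ := hwu
    exact ⟨Nat.find hex, u, by rw [hu]; exact hw⟩
  have hpow : ∀ (n : ℕ) (z : Lq φ q), algebraMap S (Lq φ q) s ^ n * z = 0 → z = 0 := by
    intro n
    induction n with
    | zero => intro z hz; simpa using hz
    | succ n ih =>
      intro z hz
      apply hnzd
      apply ih
      rw [← mul_assoc, ← pow_succ]
      exact hz
  have hNZ : NoZeroDivisors (Lq φ q) := by
    constructor
    intro a b hab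
    by_contra hcon
    push Not at hcon
    obtain ⟨n, u, hu⟩ := hfac a hcon.1
    obtain ⟨m, v, hv⟩ := hfac b hcon.2
    have h1 : algebraMap S (Lq φ q) s ^ (n + m) * ((u * v : (Lq φ q)ˣ) : Lq φ q) = 0 := by
      rw [← hab, hu, hv, Units.val_mul]; ring
    have h2 := hpow _ _ h1
    exact (u * v).ne_zero h2
  have hD : IsDomain (Lq φ q) := NoZeroDivisors.to_isDomain _
  have hirr : Irreducible (algebraMap S (Lq φ q) s) := by
    rw [irreducible_iff]
    refine ⟨hπn, ?_⟩
    intro a b hab
    by_contra hcon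
    push Not at hcon
    obtain ⟨a', ha'⟩ := hdvd a hcon.1
    obtain ⟨b', hb'⟩ := hdvd b hcon.2
    apply hπn
    have h1 : algebraMap S (Lq φ q) s *
        (algebraMap S (Lq φ q) s * (a' * b') - 1) = 0 := by
      have h2 : algebraMap S (Lq φ q) s = algebraMap S (Lq φ q) s * a' *
          (algebraMap S (Lq φ q) s * b') := by
        rw [← ha', ← hb']; exact hab
      linear_combination -h2
    have h3 := hnzd _ h1
    exact IsUnit.of_mul_eq_one _ (sub_eq_zero.1 h3)
  refine ⟨⟨hD, ?_⟩, hirr, ?_, hunit⟩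
  · apply IsDiscreteValuationRing.ofHasUnitMulPowIrreducibleFactorization
    refine ⟨algebraMap S (Lq φ q) s, hirr, ?_⟩
    intro x hx
    obtain ⟨n, u, hu⟩ := hfac x hx
    exact ⟨n, u, hu.symm⟩
  · intro n hn
    have h1 : ((n : ℤ) : Lq φ q) = algebraMap S (Lq φ q) ((n : ℤ) : S) := by
      rw [map_intCast]
    rw [h1, hunit, map_intCast]
    intro hnq
    obtain ⟨t, ht, htn⟩ := exists_ann q hq _ hnq
    apply ht
    have h2 : t = 0 := by
      apply hg.tf n t hn
      rw [zsmul_eq_mul, mul_comm]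
      exact htn
    rw [h2]
    exact q.zero_mem

end HHx
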