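import Pool.Agent.Lib.MP_181146_gt.HH.SpecH

/-!
# Project HH, module CYX: the operators `XX`, `YY`
-/

set_option autoImplicit false

namespace HHx

open HEp HBx
open scoped TensorProduct

namespace CYX

/-- A locally finite endomorphism whose square improves the order of vanishing is nilpotent. -/
private theorem nil {A : Type} [CommRing A] {W : ℕ → Type} [∀ i, AddCommGroup (W i)]
    [∀ i, Module A (W i)] (K : ℕ) (hK : ∀ j, K ≤ j → Subsingleton (W j))
    (N : Module.End A (∀ j, W j))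
    (hN : ∀ (m : ℕ) (x : ∀ j, W j), (∀ j < m, x j = 0) → ∀ j < m + 1, N (N x) j = 0) :
    IsNilpotent N := by
  have key : ∀ (m : ℕ) (x : ∀ j, W j), ∀ j < m, (N ^ (2 * m)) x j = 0 := by
    intro m
    induction m with
    | zero => exact fun x j hj => absurd hj (Nat.not_lt_zero j)
    | succ m ih =>
      intro x j hj
      have e : (N ^ (2 * (m + 1))) x = N (N ((N ^ (2 * m)) x)) := by
        rw [show 2 * (m + 1) = 1 + (1 + 2 * m) by ring, pow_add, pow_one, pow_add, pow_one]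
        rfl
      rw [e]
      exact hN m _ (ih x) j hj
  refine ⟨2 * K, ?_⟩
  apply LinearMap.ext
  intro x
  funext j
  rcases lt_or_ge j K with h | h
  · exact key K x j h
  · have := hK j h
    exact Subsingleton.elim _ _

section

variable {A : Type} [CommRing A] {V : ℕ → Type} [∀ i, AddCommGroup (V i)] [∀ i, Module A (V i)]
  {a : A} {D : ∀ i, V (i + 1) →ₗ[A] V i} {h h' : ∀ i, V i →ₗ[A] V (i + 1)}

private theorem dhd (hc : Ctr a D h) : ∀ (i : ℕ) (y : V (i + 1)), D i (h i (D i y)) = a • D i y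
  | 0, y => hc.c0 _
  | i + 1, y => by
    have h1 := hc.c1 i (D (i + 1) y)
    rw [hc.dd, map_zero, add_zero] at h1
    exact h1

private theorem ev0 (hc : Ctr a D h) (x : Ev V) : YY D h' (XX D h x) 0 = a • x 0 := by
  rw [YY_zero, XX_apply, map_add]
  have h1 : D 0 (D (2 * 0 + 1) (x (0 + 1))) = 0 := hc.dd 0 _
  have h2 : D 0 (h (2 * 0) (x 0)) = a • x 0 := hc.c0 _
  rw [h1, h2, add_zero]

private theorem ev1 (hc : Ctr a D h) (hc' : Ctr a D h') (x : Ev V) (m : ℕ) :
    YY D h' (XX D h x) (m + 1) = a • x (m + 1) +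
      (D (2 * (m + 1)) (h (2 * (m + 1)) (x (m + 1))) - D (2 * (m + 1)) (h' (2 * (m + 1)) (x (m + 1)))
        + h' (2 * m + 1) (h (2 * m) (x m))) := by
  rw [YY_succ, XX_apply, XX_apply, map_add, map_add]
  have h1 : D (2 * (m + 1)) (D (2 * (m + 1) + 1) (x (m + 1 + 1))) = 0 := hc.dd (2 * (m + 1)) _
  have h2 : D (2 * (m + 1)) (h' (2 * (m + 1)) (x (m + 1))) + h' (2 * m + 1) (D (2 * m + 1) (x (m + 1)))
      = a • x (m + 1) := hc'.c1 (2 * m + 1) (x (m + 1))
  rw [h1, ← h2]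
  abel

private theorem od0 (hc : Ctr a D h) (hc' : Ctr a D h') (y : Od V) :
    XX D h (YY D h' y) 0 = a • y 0 + (h 0 (D 0 (y 0)) - h' 0 (D 0 (y 0))) := by
  rw [XX_apply, YY_zero, YY_succ, map_add]
  have h1 : D (2 * 0 + 1) (D (2 * (0 + 1)) (y (0 + 1))) = 0 := hc.dd 1 _
  have h2 : D (2 * 0 + 1) (h' (2 * 0 + 1) (y 0)) + h' 0 (D 0 (y 0)) = a • y 0 := hc'.c1 0 _
  rw [h1, ← h2]
  change h 0 (D 0 (y 0)) + (0 + D (2 * 0 + 1) (h' (2 * 0 + 1) (y 0))) = _
  abel

private theorem od1 (hc : Ctr a D h) (hc' : Ctr a D h') (y : Od V) (m : ℕ) :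
    XX D h (YY D h' y) (m + 1) = a • y (m + 1) +
      (h (2 * (m + 1)) (D (2 * (m + 1)) (y (m + 1))) - h' (2 * (m + 1)) (D (2 * (m + 1)) (y (m + 1)))
        + h (2 * (m + 1)) (h' (2 * m + 1) (y m))) := by
  rw [XX_apply, YY_succ, YY_succ, map_add, map_add]
  have h1 : D (2 * (m + 1) + 1) (D (2 * (m + 1 + 1)) (y (m + 1 + 1))) = 0 := hc.dd (2 * (m + 1) + 1) _
  have h2 : D (2 * (m + 1) + 1) (h' (2 * (m + 1) + 1) (y (m + 1))) +
      h' (2 * (m + 1)) (D (2 * (m + 1)) (y (m + 1))) = a • y (m + 1) := hc'.c1 (2 * (m + 1)) _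
  rw [h1, ← h2]
  abel

/-- The operator on the even part. -/
private theorem nilEv (K : ℕ) (hK : ∀ i, 2 * K ≤ i → Subsingleton (V i)) (hc : Ctr a D h)
    (hc' : Ctr a D h') :
    IsNilpotent ((YY D h' ∘ₗ XX D h : Ev V →ₗ[A] Ev V) - a • (LinearMap.id : Ev V →ₗ[A] Ev V) :
      Module.End A (Ev V)) := by
  have e0 : ∀ x : Ev V, ((YY D h' ∘ₗ XX D h : Ev V →ₗ[A] Ev V) -
      a • (LinearMap.id : Ev V →ₗ[A] Ev V) : Module.End A (Ev V)) x 0 = 0 := by
    intro x
    change YY D h' (XX D h x) 0 - a • x 0 = 0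
    rw [ev0 hc, sub_self]
  have e1 : ∀ (x : Ev V) (m : ℕ), ((YY D h' ∘ₗ XX D h : Ev V →ₗ[A] Ev V) -
      a • (LinearMap.id : Ev V →ₗ[A] Ev V) : Module.End A (Ev V)) x (m + 1) =
      D (2 * (m + 1)) (h (2 * (m + 1)) (x (m + 1))) - D (2 * (m + 1)) (h' (2 * (m + 1)) (x (m + 1)))
        + h' (2 * m + 1) (h (2 * m) (x m)) := by
    intro x m
    change YY D h' (XX D h x) (m + 1) - a • x (m + 1) = _
    rw [ev1 hc hc', add_sub_cancel_left]
  refine nil K (fun j hj => hK _ (by omega)) _ ?_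
  intro m x hx j hj
  -- `N x` vanishes below `m`
  have e2 : ∀ i < m, ((YY D h' ∘ₗ XX D h : Ev V →ₗ[A] Ev V) -
      a • (LinearMap.id : Ev V →ₗ[A] Ev V) : Module.End A (Ev V)) x i = 0 := by
    intro i hi
    cases i with
    | zero => exact e0 x
    | succ i =>
      rw [e1, hx (i + 1) hi, hx i (by omega)]
      simp
  cases j with
  | zero => exact e0 _
  | succ j =>
    rw [e1, e2 j (by omega)]
    rcases Nat.lt_or_ge (j + 1) m with h3 | h3
    · rw [e2 (j + 1) h3]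
      simp
    · rw [e1, hx j (by omega)]
      simp only [map_zero, add_zero]
      have hz : D (2 * (j + 1)) (h (2 * (j + 1)) (x (j + 1))) -
          D (2 * (j + 1)) (h' (2 * (j + 1)) (x (j + 1))) =
          D (2 * (j + 1)) (h (2 * (j + 1)) (x (j + 1)) - h' (2 * (j + 1)) (x (j + 1))) :=
        (map_sub _ _ _).symm
      rw [hz, dhd hc (2 * (j + 1)), dhd hc' (2 * (j + 1)), sub_self]

/-- The operator on the odd part. -/
private theorem nilOd (K : ℕ) (hK : ∀ i, 2 * K ≤ i → Subsingleton (V i)) (hc : Ctr a D h)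
    (hc' : Ctr a D h') :
    IsNilpotent ((XX D h ∘ₗ YY D h' : Od V →ₗ[A] Od V) - a • (LinearMap.id : Od V →ₗ[A] Od V) :
      Module.End A (Od V)) := by
  have e0 : ∀ x : Od V, ((XX D h ∘ₗ YY D h' : Od V →ₗ[A] Od V) -
      a • (LinearMap.id : Od V →ₗ[A] Od V) : Module.End A (Od V)) x 0 =
      h 0 (D 0 (x 0)) - h' 0 (D 0 (x 0)) := by
    intro x
    change XX D h (YY D h' x) 0 - a • x 0 = _
    rw [od0 hc hc', add_sub_cancel_left]
  have e1 : ∀ (x : Od V) (m : ℕ), ((XX D h ∘ₗ YY D h' : Od V →ₗ[A] Od V) -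
      a • (LinearMap.id : Od V →ₗ[A] Od V) : Module.End A (Od V)) x (m + 1) =
      h (2 * (m + 1)) (D (2 * (m + 1)) (x (m + 1))) - h' (2 * (m + 1)) (D (2 * (m + 1)) (x (m + 1)))
        + h (2 * (m + 1)) (h' (2 * m + 1) (x m)) := by
    intro x m
    change XX D h (YY D h' x) (m + 1) - a • x (m + 1) = _
    rw [od1 hc hc', add_sub_cancel_left]
  refine nil K (fun j hj => hK _ (by omega)) _ ?_
  intro m x hx j hj
  have e2 : ∀ i < m, ((XX D h ∘ₗ YY D h' : Od V →ₗ[A] Od V) -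
      a • (LinearMap.id : Od V →ₗ[A] Od V) : Module.End A (Od V)) x i = 0 := by
    intro i hi
    cases i with
    | zero =>
      rw [e0, hx 0 hi]
      simp
    | succ i =>
      rw [e1, hx (i + 1) hi, hx i (by omega)]
      simp
  cases j with
  | zero =>
    rcases Nat.lt_or_ge 0 m with h3 | h3
    · rw [e0, e2 0 h3]
      simp
    · rw [e0, e0, map_sub (D 0)]
      have h4 : D 0 (h 0 (D 0 (x 0))) = a • D 0 (x 0) := dhd hc 0 _
      have h5 : D 0 (h' 0 (D 0 (x 0))) = a • D 0 (x 0) := dhd hc' 0 _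
      rw [h4, h5, sub_self, map_zero, map_zero, sub_self]
  | succ j =>
    rw [e1, e2 j (by omega)]
    rcases Nat.lt_or_ge (j + 1) m with h3 | h3
    · rw [e2 (j + 1) h3]
      simp
    · rw [e1, hx j (by omega)]
      simp only [map_zero, add_zero]
      rw [map_sub (D (2 * (j + 1))), dhd hc (2 * (j + 1)), dhd hc' (2 * (j + 1)), sub_self, map_zero,
        map_zero, sub_self]

end

end CYX

theorem sCYX : S_CYX := by
  intro A _ V _ _ K hK a D h h' hc hc'
  refine ⟨CYX.nilEv K hK hc hc', CYX.nilOd K hK hc hc', fun h0 => ⟨fun x => ?_, fun y => ?_⟩⟩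
  · funext j
    cases j with
    | zero => exact CYX.ev0 hc' x
    | succ j =>
      rw [CYX.ev1 hc' hc' x j, sub_self, zero_add]
      have h1 : h' (2 * j + 1) (h' (2 * j) (x j)) = 0 := h0 (2 * j) _
      rw [h1, add_zero]
      rfl
  · funext j
    cases j with
    | zero =>
      rw [CYX.od0 hc' hc' y, sub_self, add_zero]
      rfl
    | succ j =>
      rw [CYX.od1 hc' hc' y j, sub_self, zero_add]
      have h1 : h' (2 * (j + 1)) (h' (2 * j + 1) (y j)) = 0 := h0 (2 * j + 1) _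
      rw [h1, add_zero]
      rfl

end HHx
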