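import Pool.Agent.Lib.MP_181146_gt.HB.DefsB

/-!
# Project HH (Theorem H): definitions

`Good s φ`: `S` is a noetherian ring, `s` a non zero divisor in the Jacobson radical, `φ : S → B` onto
with kernel `s S`, `B` reduced, finite and torsion free over `ℤ`.  Complexes indexed by `ℕ`:
`Ctr a D h` (`h` is a null homotopy of `a`), `XX = D + h` from the even part to the odd part, `YY = D + h`
from the odd part to the even part.  `Lz`: localization of a module.  `Rd`: reduction modulo `s`.
-/

set_option autoImplicit false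

namespace HHx

open HEp HBx
open scoped TensorProduct

/-! ## A. The rings -/

/-- The conditions on the ring `S`, the element `s` and `φ : S → B = S / s`. -/
structure Good {S B : Type} [CommRing S] [CommRing B] (s : S) (φ : S →+* B) : Prop where
  noeth : IsNoetherianRing S
  nzd : ∀ x, s * x = 0 → x = 0
  jac : ∀ x, IsUnit (1 + s * x)
  surj : Function.Surjective φ
  ker : ∀ x, φ x = 0 ↔ ∃ y, x = s * y
  fin : Module.Finite ℤ B
  tf : ∀ (n : ℤ) (x : B), n ≠ 0 → n • x = 0 → x = 0
  red : IsReduced B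

/-- The local ring of `S` at the inverse image of the prime ideal `q` of `B`. -/
abbrev Lq {S B : Type} [CommRing S] [CommRing B] (φ : S →+* B) (q : Ideal B) [q.IsPrime] : Type :=
  Localization (q.comap φ).primeCompl

/-- The localization of the module `M` at the inverse image of the prime ideal `q` of `B`. -/
abbrev Mq {S B : Type} [CommRing S] [CommRing B] (φ : S →+* B) (q : Ideal B) [q.IsPrime] (M : Type)
    [AddCommGroup M] [Module S M] : Type :=
  LocalizedModule (q.comap φ).primeCompl M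

/-- The rank of `M` at the inverse image of the prime ideal `q` of `B`. -/
noncomputable def rq {S B : Type} [CommRing S] [CommRing B] (φ : S →+* B) (q : Ideal B) [q.IsPrime]
    (M : Type) [AddCommGroup M] [Module S M] : ℕ :=
  Module.finrank (Lq φ q) (Mq φ q M)

/-- `Ub` is the reduction of the `S`-module `U` modulo `s`. -/
structure Rd {S B : Type} [CommRing S] [CommRing B] (φ : S →+* B) (s : S) (U Ub : Type)
    [AddCommGroup U] [Module S U] [AddCommGroup Ub] [Module B Ub] where
  c : U →+ Ub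
  sl : ∀ (a : S) (x : U), c (a • x) = φ a • c x
  surj : Function.Surjective c
  ker : ∀ x, c x = 0 ↔ ∃ y, x = s • y

/-- `V` is the localization of the `S`-module `U` at the multiplicative set `T`. -/
structure Lz {S : Type} [CommRing S] (T : Submonoid S) (U V : Type) [AddCommGroup U] [Module S U]
    [AddCommGroup V] [Module (Localization T) V] where
  l : U →+ V
  sl : ∀ (a : S) (x : U), l (a • x) = algebraMap S (Localization T) a • l x
  surj : ∀ v : V, ∃ t ∈ T, ∃ u : U, algebraMap S (Localization T) t • v = l u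
  ker : ∀ u : U, l u = 0 → ∃ t ∈ T, t • u = 0

/-! ## B. Complexes indexed by `ℕ` -/

section

variable {A : Type} [CommRing A] {V : ℕ → Type} [∀ i, AddCommGroup (V i)] [∀ i, Module A (V i)]

/-- `D` is a differential, `h` is a null homotopy of the multiplication by `a`. -/
structure Ctr (a : A) (D : ∀ i, V (i + 1) →ₗ[A] V i) (h : ∀ i, V i →ₗ[A] V (i + 1)) : Prop where
  dd : ∀ i x, D i (D (i + 1) x) = 0
  c0 : ∀ x : V 0, D 0 (h 0 x) = a • x
  c1 : ∀ i (x : V (i + 1)), D (i + 1) (h (i + 1) x) + h i (D i x) = a • x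

/-- The cycles of degree `i`. -/
def Zc (D : ∀ i, V (i + 1) →ₗ[A] V i) : ∀ i, Submodule A (V i)
  | 0 => ⊤
  | i + 1 => LinearMap.ker (D i)

/-- The homology in degree `i`. -/
abbrev Hc (D : ∀ i, V (i + 1) →ₗ[A] V i) (i : ℕ) : Type :=
  Zc D i ⧸ (LinearMap.range (D i)).comap (Zc D i).subtype

/-- The quotient `B_i / a Z_i` (boundaries modulo `a` times cycles). -/
abbrev Gc (D : ∀ i, V (i + 1) →ₗ[A] V i) (a : A) (i : ℕ) : Type :=
  LinearMap.range (D i) ⧸
    ((Zc D i).map (a • (LinearMap.id : V i →ₗ[A] V i))).comap (LinearMap.range (D i)).subtype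

variable (V)

/-- The even part. -/
abbrev Ev : Type := ∀ j : ℕ, V (2 * j)

/-- The odd part. -/
abbrev Od : Type := ∀ j : ℕ, V (2 * j + 1)

variable {V}

/-- The operator `D + h` from the even part to the odd part. -/
def XX (D : ∀ i, V (i + 1) →ₗ[A] V i) (h : ∀ i, V i →ₗ[A] V (i + 1)) : Ev V →ₗ[A] Od V :=
  LinearMap.pi (fun j => h (2 * j) ∘ₗ LinearMap.proj j + D (2 * j + 1) ∘ₗ
    (LinearMap.proj (j + 1) : Ev V →ₗ[A] V (2 * (j + 1))))

/-- The operator `D + h` from the odd part to the even part. -/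
def YY (D : ∀ i, V (i + 1) →ₗ[A] V i) (h : ∀ i, V i →ₗ[A] V (i + 1)) : Od V →ₗ[A] Ev V :=
  LinearMap.pi (fun j => match j with
    | 0 => D 0 ∘ₗ (LinearMap.proj 0 : Od V →ₗ[A] V (2 * 0 + 1))
    | j + 1 => D (2 * (j + 1)) ∘ₗ (LinearMap.proj (j + 1) : Od V →ₗ[A] V (2 * (j + 1) + 1)) +
      h (2 * j + 1) ∘ₗ (LinearMap.proj j : Od V →ₗ[A] V (2 * j + 1)))

lemma XX_apply (D : ∀ i, V (i + 1) →ₗ[A] V i) (h : ∀ i, V i →ₗ[A] V (i + 1)) (x : Ev V) (j : ℕ) :
    XX D h x j = h (2 * j) (x j) + D (2 * j + 1) (x (j + 1)) := rfl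

lemma YY_zero (D : ∀ i, V (i + 1) →ₗ[A] V i) (h : ∀ i, V i →ₗ[A] V (i + 1)) (y : Od V) :
    YY D h y 0 = D 0 (y 0) := rfl

lemma YY_succ (D : ∀ i, V (i + 1) →ₗ[A] V i) (h : ∀ i, V i →ₗ[A] V (i + 1)) (y : Od V) (j : ℕ) :
    YY D h y (j + 1) = D (2 * (j + 1)) (y (j + 1)) + h (2 * j + 1) (y j) := rfl

end

end HHx
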