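import Pool.Agent.Lib.MP_181146_gt.HH.SpecH

/-!
# Project HH, module FK: the total ring of fractions
-/

set_option autoImplicit false

namespace HHx

open HEp HBx
open scoped TensorProduct

theorem sFK : S_FK := by
  intro B _ _ _ tf
  let M : Submonoid B := Algebra.algebraMapSubmonoid B (nonZeroDivisors ℤ)
  have hM : ∀ s : M, ∃ n : ℤ, n ≠ 0 ∧ (s : B) = (n : B) := by
    rintro ⟨s, n, hn, rfl⟩
    exact ⟨n, nonZeroDivisors.ne_zero hn, rfl⟩
  have hM' : ∀ n : ℤ, n ≠ 0 → (n : B) ∈ M := fun n hn =>
    ⟨n, mem_nonZeroDivisors_of_ne_zero hn, rfl⟩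
  have hle : M ≤ nonZeroDivisors B := by
    rintro s hs
    obtain ⟨n, hn, e⟩ := hM ⟨s, hs⟩
    change s = (n : B) at e
    rw [mem_nonZeroDivisors_iff_right]
    intro x hx
    refine tf n x hn ?_
    rw [e] at hx
    rw [zsmul_eq_mul, mul_comm]
    exact hx
  refine ⟨Localization M, inferInstance, algebraMap B (Localization M),
    IsLocalization.injective (Localization M) hle, ?_, ?_, ?_, ?_⟩
  · intro x
    obtain ⟨⟨b, s⟩, h⟩ := IsLocalization.surj M x
    obtain ⟨n, hn, e⟩ := hM s
    refine ⟨n, hn, b, ?_⟩
    have h2 : x * algebraMap B (Localization M) (s : B) = algebraMap B (Localization M) b := h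
    rw [e, map_intCast] at h2
    rw [mul_comm]
    exact h2
  · intro n hn
    have h := IsLocalization.map_units (Localization M) (⟨(n : B), hM' n hn⟩ : M)
    rwa [map_intCast] at h
  · exact isReduced_localizationPreserves M (Localization M) inferInstance
  · have h1 : Module.Finite (Localization (nonZeroDivisors ℤ))
        (Localization (Algebra.algebraMapSubmonoid B (nonZeroDivisors ℤ))) :=
      Module.Finite.of_isLocalization ℤ B (nonZeroDivisors ℤ)
    have h2 : IsArtinianRing (FractionRing ℤ) := inferInstance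
    exact IsArtinianRing.of_finite (Localization (nonZeroDivisors ℤ))
      (Localization (Algebra.algebraMapSubmonoid B (nonZeroDivisors ℤ)))

end HHx
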