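import Pool.Agent.Lib.MP_181146_gt.HH.SpecH

/-!
# Project HH: GRk, compensation of the ranks
-/

set_option autoImplicit false

namespace HHx

open HEp HBx
open scoped TensorProduct

namespace GRk

section

variable {S B : Type} [CommRing S] [CommRing B] (φ : S →+* B)

/-- The rank as a rank at a stalk. -/
theorem rq_eq (q : Ideal B) [q.IsPrime] (M : Type) [AddCommGroup M] [Module S M] :
    rq φ q M = Module.rankAtStalk (R := S) M ⟨q.comap φ, inferInstance⟩ := rfl

theorem rq_prod (q : Ideal B) [q.IsPrime] (M N : Type) [AddCommGroup M] [Module S M]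
    [AddCommGroup N] [Module S N] [Module.Finite S M] [Module.Projective S M] [Module.Finite S N]
    [Module.Projective S N] : rq φ q (M × N) = rq φ q M + rq φ q N := by
  rw [rq_eq, rq_eq, rq_eq, Module.rankAtStalk_prod]
  rfl

theorem rq_equiv (q : Ideal B) [q.IsPrime] (M N : Type) [AddCommGroup M] [Module S M]
    [AddCommGroup N] [Module S N] (e : M ≃ₗ[S] N) : rq φ q M = rq φ q N := by
  rw [rq_eq, rq_eq, Module.rankAtStalk_eq_of_equiv e]

theorem rq_fin (q : Ideal B) [q.IsPrime] (n : ℕ) : rq φ q (Fin n → S) = n := by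
  have hS : Nontrivial S := by
    have hp : (q.comap φ).IsPrime := inferInstance
    rcases subsingleton_or_nontrivial S with h | h
    · exact absurd (Subsingleton.elim (q.comap φ) ⊤) hp.ne_top
    · exact h
  rw [rq_eq, Module.rankAtStalk_eq_finrank_of_free]
  exact Module.finrank_fin_fun S

/-- Good functions. -/
def Gf (F : Ideal B → ℤ) : Prop :=
  ∃ (V : FPr S) (c : ℤ), ∀ (q : Ideal B) [q.IsPrime], q ∈ minimalPrimes B →
    F q + (rq φ q V.M : ℤ) = c

/-- Good functions with good negative. -/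
def Gg (F : Ideal B → ℤ) : Prop := Gf φ F ∧ Gf φ (fun q => -F q)

theorem Gf_add {F F' : Ideal B → ℤ} (h : Gf φ F) (h' : Gf φ F') : Gf φ (fun q => F q + F' q) := by
  obtain ⟨V, c, hV⟩ := h
  obtain ⟨V', c', hV'⟩ := h'
  refine ⟨⟨V.M × V'.M⟩, c + c', fun q _ hq => ?_⟩
  have h1 := hV q hq
  have h2 := hV' q hq
  have h3 := rq_prod φ q V.M V'.M
  rw [h3]
  push_cast
  linarith

theorem Gg_add {F F' : Ideal B → ℤ} (h : Gg φ F) (h' : Gg φ F') : Gg φ (fun q => F q + F' q) := by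
  refine ⟨Gf_add φ h.1 h'.1, ?_⟩
  obtain ⟨V, c, hV⟩ := Gf_add φ h.2 h'.2
  refine ⟨V, c, fun q _ hq => ?_⟩
  have h1 := hV q hq
  linarith

theorem Gg_neg {F : Ideal B → ℤ} (h : Gg φ F) : Gg φ (fun q => -F q) := by
  refine ⟨h.2, ?_⟩
  obtain ⟨V, c, hV⟩ := h.1
  refine ⟨V, c, fun q _ hq => ?_⟩
  have h1 := hV q hq
  linarith

theorem Gg_zero : Gg φ (fun _ : Ideal B => (0 : ℤ)) := by
  have h : Gf φ (fun _ : Ideal B => (0 : ℤ)) := by
    refine ⟨⟨Fin 0 → S⟩, 0, fun q _ _ => ?_⟩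
    have h := rq_fin φ q 0
    rw [h]
    norm_num
  exact ⟨h, by simpa using h⟩

theorem Gg_rq {F : Ideal B → ℤ} (M : Type) [AddCommGroup M] [Module S M] [Module.Finite S M]
    [Module.Projective S M]
    (hF : ∀ (q : Ideal B) [q.IsPrime], q ∈ minimalPrimes B → F q = rq φ q M) : Gg φ F := by
  constructor
  · obtain ⟨N, n, ⟨e⟩⟩ := exists_compl (R := S) M
    refine ⟨N, n, fun q _ hq => ?_⟩
    rw [hF q hq]
    have h1 := rq_prod φ q M N.M
    rw [rq_equiv φ q _ _ e, rq_fin] at h1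
    exact_mod_cast h1.symm
  · refine ⟨⟨M⟩, 0, fun q _ hq => ?_⟩
    have h1 := hF q hq
    change -F q + (rq φ q M : ℤ) = 0
    linarith

theorem Gg_sum {F : ℕ → Ideal B → ℤ} (h : ∀ j, Gg φ (F j)) (K : ℕ) :
    Gg φ (fun q => ∑ j ∈ Finset.range K, F j q) := by
  induction K with
  | zero => simpa using Gg_zero φ
  | succ K ih =>
    have h1 := Gg_add φ ih (h K)
    simpa only [Finset.sum_range_succ] using h1

end

end GRk

theorem sGRk : S_GRk := by
  intro S B _ _ φ U _ _ _ _ K zz hz0 hz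
  have h1 : ∀ i, GRk.Gg φ (fun q => (zz q i : ℤ)) := by
    intro i
    induction i with
    | zero => exact GRk.Gg_rq φ (U 0) fun q _ hq => by exact_mod_cast hz0 q hq
    | succ i ih =>
      have h2 : GRk.Gg φ (fun q => ((zz q (i + 1) + zz q i : ℕ) : ℤ)) :=
        GRk.Gg_rq φ (U (i + 1)) fun q _ hq => by exact_mod_cast hz q hq i
      have h3 := GRk.Gg_add φ h2 (GRk.Gg_neg φ ih)
      have h4 : (fun q => ((zz q (i + 1) + zz q i : ℕ) : ℤ) + -(zz q i : ℤ)) =
          fun q : Ideal B => (zz q (i + 1) : ℤ) := by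
        funext q
        push_cast
        ring
      rwa [h4] at h3
  have h2 := (GRk.Gg_sum φ (fun j => h1 (2 * j)) K).1
  obtain ⟨V, c, hV⟩ := h2
  by_cases hq : ∃ q : Ideal B, q ∈ minimalPrimes B
  · obtain ⟨q, hq⟩ := hq
    have hp : q.IsPrime := Ideal.minimalPrimes_isPrime hq
    have hc : 0 ≤ c := by
      rw [← hV q hq]
      positivity
    refine ⟨V, c.toNat, fun q' _ hq' => ?_⟩
    have h3 := hV q' hq'
    zify
    rw [Int.toNat_of_nonneg hc]
    exact h3
  · exact ⟨V, 0, fun q _ hq' => absurd ⟨q, hq'⟩ hq⟩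

end HHx
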