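import Pool.Agent.Lib.MP_181146_gt.HH.DefsH

/-!
# Project HH (Theorem H).  Every statement is a separate task; the proof of each is in the docstring.

THEOREM H (`S_GMain`, `S_ZMain`).  `(S, s, φ : S → B)` good, `U` a bounded complex of f.g. projective
`S`-modules with `s H(U) = 0`, Euler length `0` at all primes `𝔭` minimal over `s`.  Then
`∑ (-1)^i [U_i / s] = 0` in `KT B`.

Proof: `S_𝔭` is a discrete valuation ring with uniformizer `s` (A); `s^k = D h + h D` on `U` (D);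
`X = D + h : U_ev → U_od`, `Y = D + h : U_od → U_ev`; `length coker X_𝔭 = k ∑ z_(2j) - χ` (B, C, L);
add a projective module to make this number independent of `𝔭` and `U_od` free (G); then `det X = s^ρ`
times a unit at every `𝔭`, which is a statement on elements of `S`, and reduction modulo `s` gives the
determinant condition of a patching lemma over `B` (E, F).

Notation: `q` is a minimal prime of `B`, `𝔭 = φ⁻¹ q`, `A = Lq φ q = S_𝔭`, `M_𝔭 = Mq φ q M`.
-/

set_option linter.unusedVariables false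
set_option autoImplicit false

namespace HHx

open HEp HBx
open scoped TensorProduct

/-! ## A. The local rings -/

/-- **ALoc.** `S_𝔭` is a discrete valuation ring with uniformizer `s`; integers `≠ 0` are units.
Proof.  `q` is a minimal prime of the reduced ring `B`: for `b ∈ q` there is `t ∉ q` with `t b = 0` (`B_q` is a
reduced local ring whose only prime is its maximal ideal, so `q B_q = 0`).  So for `x ∈ 𝔭` there is `t ∉ 𝔭` with
`φ (t x) = 0`, `t x ∈ s S`: the maximal ideal of `A = S_𝔭` is generated by `s / 1` (`s ∈ 𝔭` as `φ s = 0`).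
`s / 1` is a non zero divisor of `A` (`s x / t = 0` gives `t' s x = 0`, `t' x = 0`).  `A` is noetherian local;
Krull: `⋂ (s^n) = 0`; so every `x ≠ 0` of `A` is `s^n u`, `u` a unit (choose `n` maximal with `x ∈ (s^n)`), and a
product of two such elements is not zero: `A` is a domain, a local principal domain, not a field.  Integers:
`n ∈ q`, `n ≠ 0` would give `t ∉ q`, `n t = 0`, `t = 0` as `B` is torsion free. -/
def S_ALoc : Prop :=
  ∀ (S B : Type) [CommRing S] [CommRing B] (s : S) (φ : S →+* B) (hg : Good s φ) (q : Ideal B)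
    [q.IsPrime] (hq : q ∈ minimalPrimes B),
    (∃ _ : IsDomain (Lq φ q), IsDiscreteValuationRing (Lq φ q)) ∧
    Irreducible (algebraMap S (Lq φ q) s) ∧
    (∀ n : ℤ, n ≠ 0 → IsUnit (n : Lq φ q)) ∧
    ∀ x : S, IsUnit (algebraMap S (Lq φ q) x) ↔ φ x ∉ q

/-- **ADvd** (from ALoc).  Divisibility by powers of `s` is local.
Proof.  (1) `ρ = 1`: `s ∣ x` in `S_𝔭` gives `t ∉ 𝔭` with `t x ∈ s S`, so `φ t φ x = 0 ∈ q`, `φ x ∈ q`.  For all `q`:
`φ x` is nilpotent, so `0` (`B` reduced), `x = s x'`.  Induction on `ρ` (`s` is a non zero divisor in the domains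
`S_𝔭`; if there is no minimal prime then `B` is trivial, and `s` is a unit: `φ 1 = 0`).
(2) If `x = 0` in all `S_𝔭`, then `s^ρ ∣ x` for all `ρ` by (1); Krull's intersection theorem (`S` noetherian,
`s` in the Jacobson radical: `Ideal.iInf_pow_smul_eq_bot_of_le_jacobson` or similar) gives `x = 0`. -/
def S_ADvd : Prop :=
  ∀ (S B : Type) [CommRing S] [CommRing B] (s : S) (φ : S →+* B) (hg : Good s φ),
    (∀ (x : S) (ρ : ℕ), (∀ (q : Ideal B) [q.IsPrime], q ∈ minimalPrimes B →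
      algebraMap S (Lq φ q) s ^ ρ ∣ algebraMap S (Lq φ q) x) → s ^ ρ ∣ x) ∧
    ∀ x : S, (∀ (q : Ideal B) [q.IsPrime], q ∈ minimalPrimes B →
      algebraMap S (Lq φ q) x = 0) → x = 0

/-- **AMin.** Every prime ideal of `S` contains a prime ideal which does not contain the non zero divisor
`s`.
Proof: it contains a minimal prime of `S`; minimal primes consist of zero divisors
(`Ideal.disjoint_nonZeroDivisors_of_mem_minimalPrimes` or similar), `s` is a non zero divisor. -/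
def S_AMin : Prop :=
  ∀ (S : Type) [CommRing S] (s : S) (hs : ∀ x, s * x = 0 → x = 0) (p : Ideal S) [p.IsPrime],
    ∃ p0 : Ideal S, p0.IsPrime ∧ p0 ≤ p ∧ s ∉ p0

/-! ## B. Lengths and determinants over a discrete valuation ring -/

/-- **BOrd.** `length (A / ϖ^k) = k`, and `length (V / ϖ^k V) = k · rank V` for `V` f.g. free.
Proof: `A / ϖ` is a simple module; `0 → A/ϖ → A/ϖ^(k+1) → A/ϖ^k → 0` (`Module.length_eq_add_of_exact`); then a
basis of `V` and `Module.length_pi` (or induction on the rank). -/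
def S_BOrd : Prop :=
  ∀ (A : Type) [CommRing A] [IsDomain A] [IsDiscreteValuationRing A] (ϖ : A) (hϖ : Irreducible ϖ)
    (k : ℕ), Module.length A (A ⧸ Ideal.span {ϖ ^ k}) = k ∧
    ∀ (V : Type) [AddCommGroup V] [Module A V] [Module.Finite A V] [Module.Free A V],
      Module.length A (V ⧸ LinearMap.range (ϖ ^ k • (LinearMap.id : V →ₗ[A] V))) =
        (k * Module.finrank A V : ℕ)

/-- **BLen** (from BOrd).  The length of the cokernel is the valuation of the determinant.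
Proof: `N = range g ≤ V = A^r` has rank `r` (`g` injective as `det g ≠ 0`).  Smith normal form
(`Submodule.exists_smith_normal_form_of_rank_eq`, `Submodule.quotientEquivPiSpan`): bases `b` of `V`, `b'` of `N`
with `b'_i = a_i b_i`, `V / N ≃ ∏ A / a_i`, `a_i ≠ 0`, `a_i = ϖ^(k_i) u_i`; `length = ∑ k_i`.  `g = incl ∘ e` with
`e : V ≃ N`.  Let `δ b_i = a_i b_i` and let `θ : V → V` be the automorphism with `θ (e⁻¹ b'_i) = b_i`; then `g = δ ∘ θ` (check on the basis `e⁻¹ b'_i`: `g (e⁻¹ b'_i) = b'_i = a_i b_i = δ b_i`), so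
`det g = (∏ a_i) det θ`, `det θ` a unit. -/
def S_BLen : Prop :=
  ∀ (A : Type) [CommRing A] [IsDomain A] [IsDiscreteValuationRing A] (ϖ : A) (hϖ : Irreducible ϖ)
    (r : ℕ) (g : (Fin r → A) →ₗ[A] (Fin r → A)) (hg : LinearMap.det g ≠ 0),
    ∃ l : ℕ, Module.length A ((Fin r → A) ⧸ LinearMap.range g) = l ∧
      Associated (LinearMap.det g) (ϖ ^ l)

/-- **BNil.** `det (a + N) = a^r` for a nilpotent endomorphism of a free module over a domain.
Proof: the characteristic polynomial of the nilpotent `-N` is `X^r`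
(`LinearMap.charpoly_nilpotent_tfae`, `LinearMap.charpoly_eq_X_pow_iff` or `Matrix` versions), evaluate it at `a`:
`det (a - (-N)) = a^r` (`Matrix.eval_charpoly`-type lemma; or pass to the fraction field). -/
def S_BNil : Prop :=
  ∀ (A : Type) [CommRing A] [IsDomain A] (V : Type) [AddCommGroup V] [Module A V]
    [Module.Finite A V] [Module.Free A V] (a : A) (N : Module.End A V) (hN : IsNilpotent N),
    LinearMap.det (a • (1 : Module.End A V) + N) = a ^ Module.finrank A V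

/-- **BCmp** (from BLen, BNil).  Two maps with the same partner have cokernels of the same length.
Proof.  `X' Y' = a = Y' X'`, `a = ϖ^k ≠ 0`: `X'`, `Y'` are injective, so `P`, `Q` have the same rank `r`; choose
`P ≃ A^r`, `Q ≃ A^r` and replace `P`, `Q` by `A^r` (the cokernels do not change).  `det Y' det X = a^r` (BNil) `=
det Y' det X'`, so `det Y' ≠ 0`, `det X = det X' ≠ 0`; BLen for both: `ϖ^l ~ ϖ^l'` gives `l = l'`. -/
def S_BCmp : Prop :=
  ∀ (A : Type) [CommRing A] [IsDomain A] [IsDiscreteValuationRing A] (ϖ : A) (hϖ : Irreducible ϖ)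
    (k : ℕ) (P Q : Type) [AddCommGroup P] [Module A P] [Module.Finite A P] [Module.Free A P]
    [AddCommGroup Q] [Module A Q] [Module.Finite A Q] [Module.Free A Q] (X X' : P →ₗ[A] Q)
    (Y' : Q →ₗ[A] P)
    (h : IsNilpotent ((Y' ∘ₗ X : P →ₗ[A] P) - ϖ ^ k • (LinearMap.id : P →ₗ[A] P) : Module.End A P))
    (h1 : ∀ x, Y' (X' x) = ϖ ^ k • x) (h2 : ∀ y, X' (Y' y) = ϖ ^ k • y),
    Module.length A (Q ⧸ LinearMap.range X) = Module.length A (Q ⧸ LinearMap.range X')

/-- **BPair** (from BLen, BNil).  The determinant identities over a discrete valuation ring.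
Proof.  `β α` is bijective (unit determinant), so `α` is injective, and onto: `α` is an isomorphism.
(2) `det (X α) det (β Y) = det (β Y X α) = det ((β α) (α⁻¹ (a + ν) α)) = det (β α) det (a + α⁻¹ ν α) =
det (β α) a^r` (BNil).  (1) `range (X α) = range X`; `det (X α) ≠ 0` by (2); BLen.
(3) `α2 = α γ`, `γ = α⁻¹ α2`: `det (X α2) = det (X α) det γ`, `det (β α2) = det (β α) det γ`. -/
def S_BPair : Prop :=
  ∀ (A : Type) [CommRing A] [IsDomain A] [IsDiscreteValuationRing A] (ϖ : A) (hϖ : Irreducible ϖ)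
    (k r ρ : ℕ) (P : Type) [AddCommGroup P] [Module A P] (X : P →ₗ[A] (Fin r → A))
    (Y : (Fin r → A) →ₗ[A] P) (ν : Module.End A P) (hν : IsNilpotent ν)
    (hYX : ∀ x, Y (X x) = ϖ ^ k • x + ν x)
    (hρ : Module.length A ((Fin r → A) ⧸ LinearMap.range X) = ρ)
    (α : (Fin r → A) →ₗ[A] P) (β : P →ₗ[A] (Fin r → A)) (hα : Function.Surjective α)
    (hβα : IsUnit (LinearMap.det (β ∘ₗ α))),
    Associated (LinearMap.det (X ∘ₗ α)) (ϖ ^ ρ) ∧
    LinearMap.det (X ∘ₗ α) * LinearMap.det (β ∘ₗ Y) = LinearMap.det (β ∘ₗ α) * ϖ ^ (k * r) ∧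
    ∀ α2 : (Fin r → A) →ₗ[A] P,
      LinearMap.det (β ∘ₗ α) * LinearMap.det (X ∘ₗ α2) =
        LinearMap.det (X ∘ₗ α) * LinearMap.det (β ∘ₗ α2)

/-! ## C. Complexes over a discrete valuation ring -/

/-- **CSpl.** The kernel of a map of f.g. free modules over a principal ideal domain is a direct summand.
Proof: `range D` is a submodule of the free module `W`, so free, hence projective: there is `σ : range D → V` with
`D (σ y) = y`; `p x = x - σ (D x)`. -/
def S_CSpl : Prop :=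
  ∀ (A : Type) [CommRing A] [IsDomain A] [IsPrincipalIdealRing A] (V W : Type) [AddCommGroup V]
    [Module A V] [AddCommGroup W] [Module A W] [Module.Finite A W] [Module.Free A W]
    (D : V →ₗ[A] W),
    ∃ p : V →ₗ[A] V, (∀ x, D (p x) = 0) ∧ ∀ x, D x = 0 → p x = x

/-- **CPj** (from CSpl).  Projections `p_i` onto the cycles, and the new homotopy
`h'_i = (1 - p_(i+1)) h_i p_i`, with `h' h' = 0`.
Proof.  `p_0 = id`, `p_(i+1)` from CSpl for `D i`; `p_i x ∈ Z_i`, `p_i x = x` on `Z_i`; so `D p = 0`, `p D = D`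
(`D D = 0`), `p p = p`.  `D h' + h' D = D h p + (1 - p) h D` (as `D p = 0`, `p D = D`) `= (a - h D) p + (1 - p) (a - D h) =
a` (as `D p = 0`, `(1 - p) D = 0`); in degree `0`: `D h' x = D h x = a x`.  `h' h' = (1-p) h p (1-p) h p = 0`. -/
def S_CPj : Prop :=
  ∀ (A : Type) [CommRing A] [IsDomain A] [IsPrincipalIdealRing A] (V : ℕ → Type)
    [∀ i, AddCommGroup (V i)] [∀ i, Module A (V i)] [∀ i, Module.Finite A (V i)]
    [∀ i, Module.Free A (V i)] (a : A) (D : ∀ i, V (i + 1) →ₗ[A] V i)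
    (h : ∀ i, V i →ₗ[A] V (i + 1)) (hc : Ctr a D h),
    ∃ (p : ∀ i, V i →ₗ[A] V i) (h' : ∀ i, V i →ₗ[A] V (i + 1)),
      (∀ i x, p i x ∈ Zc D i) ∧ (∀ i, ∀ x ∈ Zc D i, p i x = x) ∧ Ctr a D h' ∧
      (∀ i x, h' i (p i x) = h' i x) ∧ (∀ i x, p (i + 1) (h' i x) = 0) ∧
      ∀ i x, h' (i + 1) (h' i x) = 0

/-- **CYX.** The operators `XX`, `YY`.
Proof.  `(YY' XX x)_j = D h x_j + h' D x_j + h' h x_(j-1) = a x_j + D δ x_j + h' h x_(j-1)`, `δ = h - h'`,
`D δ + δ D = 0` (and `D δ = 0` on `V 0`).  Put `N x = (D δ x_j + h' h x_(j-1))_j`; `(D δ)² = - D D δ δ = 0`; so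
`(N² x)_j` depends only on `x_(j-1)`, `x_(j-2)`: if `x_j = 0` for `j < m` then `(N² x)_j = 0` for `j < m + 1`
(also `(N x)_j = 0` for `j < m`).  `N^(2 K) x` vanishes for `j < K`, and `V (2 j)` is trivial for `j ≥ K`.
The second part is the same computation with `h = h'`, `h' h' = 0` (`(XX YY y)_j = h' D y_j + D h' y_j +
h' h' y_(j-1) + D D y_(j+1)`). -/
def S_CYX : Prop :=
  ∀ (A : Type) [CommRing A] (V : ℕ → Type) [∀ i, AddCommGroup (V i)] [∀ i, Module A (V i)] (K : ℕ)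
    (hK : ∀ i, 2 * K ≤ i → Subsingleton (V i)) (a : A) (D : ∀ i, V (i + 1) →ₗ[A] V i)
    (h h' : ∀ i, V i →ₗ[A] V (i + 1)) (hc : Ctr a D h) (hc' : Ctr a D h'),
    IsNilpotent ((YY D h' ∘ₗ XX D h : Ev V →ₗ[A] Ev V) - a • (LinearMap.id : Ev V →ₗ[A] Ev V) :
      Module.End A (Ev V)) ∧
    IsNilpotent ((XX D h ∘ₗ YY D h' : Od V →ₗ[A] Od V) - a • (LinearMap.id : Od V →ₗ[A] Od V) :
      Module.End A (Od V)) ∧
    ((∀ i x, h' (i + 1) (h' i x) = 0) →
      (∀ x, YY D h' (XX D h' x) = a • x) ∧ ∀ y, XX D h' (YY D h' y) = a • y)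

/-- **CFn.** The even and the odd part as finite products; they are finitely generated, projective, free.
Proof: `x ↦ (j ↦ x j)`, inverse: extend by `0` (the modules `V (2 j)`, `j ≥ K`, are trivial).  `HEp.projPi`. -/
def S_CFn : Prop :=
  ∀ (A : Type) [CommRing A] (V : ℕ → Type) [∀ i, AddCommGroup (V i)] [∀ i, Module A (V i)] (K : ℕ)
    (hK : ∀ i, 2 * K ≤ i → Subsingleton (V i)),
    (∃ e : Ev V ≃ₗ[A] (∀ j : Fin K, V (2 * (j : ℕ))), ∀ x j, e x j = x j) ∧
    (∃ e : Od V ≃ₗ[A] (∀ j : Fin K, V (2 * (j : ℕ) + 1)), ∀ x j, e x j = x j) ∧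
    ((∀ i, Module.Finite A (V i)) → Module.Finite A (Ev V) ∧ Module.Finite A (Od V)) ∧
    ((∀ i, Module.Projective A (V i)) → Module.Projective A (Ev V) ∧ Module.Projective A (Od V)) ∧
    ((∀ i, Module.Free A (V i)) → Module.Free A (Ev V) ∧ Module.Free A (Od V))

/-- **CCok.** The cokernel of `XX D h'`.
Proof.  `y ↦ ([p y_j], [D y_j])_j`.  Well defined: `y = XX x`, `y_j = h' x_j + D x_(j+1)`: `p y_j = D x_(j+1)` is a
boundary; `D y_j = D h' x_j = D h' (p x_j) = a p x_j - h' D p x_j = a p x_j`.  Injective: `p y_j = D u_j`,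
`D y_j = a z_j`, `z_j ∈ Z_(2j)`; `y_j = p y_j + (y_j - p y_j)`; `w = y_j - p y_j - h' z_j` satisfies
`D w = a z_j - D h' z_j = h' D z_j = 0` (Ctr; `z_j` is a cycle; in degree `0` `D h' z = a z`), so `w = p w = - p h' z_j = 0`
(`p y_j - p p y_j = 0`): `y_j = D u_j + h' z_j`; choose `x_j = z_j + u'_j` with `u'_0 = 0`, `u'_(j+1) = u_j - p u_j`:
`h' u' = h' p u' = 0`, `D u'_(j+1) = D u_j`, `D z_j = 0`.  So `y = XX x`.  Onto: given cycles `z_j ∈ Z_(2j+1)` and
`D v_j`, take `y_j = z_j + (v_j - p v_j)`.  (For `j ≥ K` everything is trivial.) -/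
def S_CCok : Prop :=
  ∀ (A : Type) [CommRing A] (V : ℕ → Type) [∀ i, AddCommGroup (V i)] [∀ i, Module A (V i)] (K : ℕ)
    (hK : ∀ i, 2 * K ≤ i → Subsingleton (V i)) (a : A) (D : ∀ i, V (i + 1) →ₗ[A] V i)
    (p : ∀ i, V i →ₗ[A] V i) (h' : ∀ i, V i →ₗ[A] V (i + 1)) (hp : ∀ i x, p i x ∈ Zc D i)
    (hp' : ∀ i, ∀ x ∈ Zc D i, p i x = x) (hc : Ctr a D h') (hh : ∀ i x, h' i (p i x) = h' i x)
    (hph : ∀ i x, p (i + 1) (h' i x) = 0),
    Nonempty ((Od V ⧸ LinearMap.range (XX D h')) ≃ₗ[A]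
      (∀ j : Fin K, Hc D (2 * (j : ℕ) + 1) × Gc D a (2 * (j : ℕ))))

/-- **CZR** (from BOrd).  Ranks and lengths of cycles.
Proof.  `a Z_i ≤ B_i ≤ Z_i` (`a z = D h z + h D z`), so `0 → B_i/aZ_i → Z_i/aZ_i → H_i → 0` and BOrd for the free
module `Z_i` (submodule of a free module over a PID; finite).  `rank B_i = rank Z_i` as `a Z_i ≤ B_i ≤ Z_i`, `a ≠ 0`;
rank-nullity for `D i`: `rank V (i+1) = rank Z_(i+1) + rank B_i`; `Z_0 = V 0`. -/
def S_CZR : Prop :=
  ∀ (A : Type) [CommRing A] [IsDomain A] [IsDiscreteValuationRing A] (ϖ : A) (hϖ : Irreducible ϖ)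
    (k : ℕ) (V : ℕ → Type) [∀ i, AddCommGroup (V i)] [∀ i, Module A (V i)]
    [∀ i, Module.Finite A (V i)] [∀ i, Module.Free A (V i)] (D : ∀ i, V (i + 1) →ₗ[A] V i)
    (h : ∀ i, V i →ₗ[A] V (i + 1)) (hc : Ctr (ϖ ^ k) D h),
    (∀ i, Module.length A (Hc D i) + Module.length A (Gc D (ϖ ^ k) i) =
      (k * Module.finrank A (Zc D i) : ℕ)) ∧
    Module.finrank A (Zc D 0) = Module.finrank A (V 0) ∧
    ∀ i, Module.finrank A (Zc D (i + 1)) + Module.finrank A (Zc D i) = Module.finrank A (V (i + 1))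

/-- **CFin** (from CPj, CYX, CFn, CCok, CZR, BCmp).  The length of the cokernel of `D + h`.
Proof.  CPj gives `p`, `h'`; by BCmp and CYX `length coker (XX D h) = length coker (XX D h')`, which is
`∑_j (length H_(2j+1) + length G_(2j))` (CCok, `Module.length_pi`, `Module.length_prod`), and
`length H_(2j) + length G_(2j) = k z_(2j)` (CZR; `z_i = finrank Z_i` by induction). -/
def S_CFin : Prop :=
  ∀ (A : Type) [CommRing A] [IsDomain A] [IsDiscreteValuationRing A] (ϖ : A) (hϖ : Irreducible ϖ)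
    (k : ℕ) (V : ℕ → Type) [∀ i, AddCommGroup (V i)] [∀ i, Module A (V i)]
    [∀ i, Module.Finite A (V i)] [∀ i, Module.Free A (V i)] (K : ℕ)
    (hK : ∀ i, 2 * K ≤ i → Subsingleton (V i)) (D : ∀ i, V (i + 1) →ₗ[A] V i)
    (h : ∀ i, V i →ₗ[A] V (i + 1)) (hc : Ctr (ϖ ^ k) D h) (hh zz : ℕ → ℕ)
    (hH : ∀ i, Module.length A (Hc D i) = hh i) (hz0 : zz 0 = Module.finrank A (V 0))
    (hz : ∀ i, zz (i + 1) + zz i = Module.finrank A (V (i + 1))),
    ∃ ρ : ℕ, Module.length A (Od V ⧸ LinearMap.range (XX D h)) = ρ ∧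
      ρ + ∑ j ∈ Finset.range K, hh (2 * j) =
        ∑ j ∈ Finset.range K, hh (2 * j + 1) + k * ∑ j ∈ Finset.range K, zz (2 * j)

/-! ## L. Localization of modules -/

/-- **LzE.** Existence and uniqueness of localizations; localization of maps.
Proof: Mathlib (`LocalizedModule.mkLinearMap`, `IsLocalizedModule`): a `Lz T U V` gives an
`IsLocalizedModule T` structure for the `S`-module `V` (`Module.compHom`), or construct the maps by hand
(`V → V'`: for `v` choose `t v = l u` and send `v` to `t⁻¹ l' u`). -/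
def S_LzE : Prop :=
  ∀ (S : Type) [CommRing S] (T : Submonoid S) (U U' V V' : Type) [AddCommGroup U] [Module S U]
    [AddCommGroup U'] [Module S U'] [AddCommGroup V] [Module (Localization T) V] [AddCommGroup V']
    [Module (Localization T) V'],
    (∃ b : Lz T U (LocalizedModule T U), ∀ u, b.l u = LocalizedModule.mkLinearMap T U u) ∧
    ∀ (b : Lz T U V) (b' : Lz T U' V') (f : U →ₗ[S] U'),
      (∃ F : V →ₗ[Localization T] V', ∀ u, F (b.l u) = b'.l (f u)) ∧
      (∀ F F' : V →ₗ[Localization T] V', (∀ u, F (b.l u) = F' (b.l u)) → F = F') ∧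
      (Function.Bijective f → Nonempty (V ≃ₗ[Localization T] V'))

/-- **LzQ.** Localization of a subquotient.  `Z`, `R` submodules of `U`; `Z'`, `R'` submodules of `V` which are
their localizations.
Proof: `Z ⧸ (R ∩ Z) → Z' ⧸ (R' ∩ Z')`, `[z] ↦ [l z]`.  Semilinear, well defined.  Surjectivity up to `t`: `hZ2`.
Kernel: `l z ∈ R'` gives `t ∈ T` with `t l z = l r`, `r ∈ R`, so `t' (t z - r) = 0`, `t' t z = t' r ∈ R`. -/
def S_LzQ : Prop :=
  ∀ (S : Type) [CommRing S] (T : Submonoid S) (U V : Type) [AddCommGroup U] [Module S U]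
    [AddCommGroup V] [Module (Localization T) V] (b : Lz T U V) (Z R : Submodule S U)
    (Z' R' : Submodule (Localization T) V) (hZ1 : ∀ z ∈ Z, b.l z ∈ Z')
    (hZ2 : ∀ v ∈ Z', ∃ t ∈ T, ∃ z ∈ Z, algebraMap S (Localization T) t • v = b.l z)
    (hR1 : ∀ z ∈ R, b.l z ∈ R')
    (hR2 : ∀ v ∈ R', ∃ t ∈ T, ∃ z ∈ R, algebraMap S (Localization T) t • v = b.l z),
    Nonempty (Lz T (Z ⧸ R.comap Z.subtype) (Z' ⧸ R'.comap Z'.subtype)) ∧
    Nonempty (Lz T (U ⧸ R) (V ⧸ R'))

/-- **LzP.** Localization of (essentially finite) products and of `Fin r → S`.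
Proof: common denominators of the finitely many components `i < K`; the other ones are trivial. -/
def S_LzP : Prop :=
  ∀ (S : Type) [CommRing S] (T : Submonoid S),
    (∀ (U V : ℕ → Type) [∀ i, AddCommGroup (U i)] [∀ i, Module S (U i)] [∀ i, AddCommGroup (V i)]
      [∀ i, Module (Localization T) (V i)] (b : ∀ i, Lz T (U i) (V i)) (K : ℕ)
      (hK : ∀ i, K ≤ i → Subsingleton (U i)),
      ∃ c : Lz T (∀ i, U i) (∀ i, V i), ∀ u i, c.l u i = (b i).l (u i)) ∧
    (∀ (U U' V V' : Type) [AddCommGroup U] [Module S U] [AddCommGroup U'] [Module S U']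
      [AddCommGroup V] [Module (Localization T) V] [AddCommGroup V'] [Module (Localization T) V']
      (b : Lz T U V) (b' : Lz T U' V'),
      ∃ c : Lz T (U × U') (V × V'), ∀ u, c.l u = (b.l u.1, b'.l u.2)) ∧
    ∀ r : ℕ, ∃ c : Lz T (Fin r → S) (Fin r → Localization T), ∀ u i, c.l u i = algebraMap S _ (u i)

/-- **LCx** (from LzE, LzQ, LzP).  Localization of a complex.
Proof.  `V i = LocalizedModule T (U i)`; `D'`, `h'` by LzE; the relations hold on the elements `l u`, so everywhere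
(uniqueness in LzE, the composites are linear).  `XX D' h'` is the localization of `XX D h` with respect to the
localization maps `Ev U → Ev V`, `Od U → Od V` (LzP); its range is the localization of the range; LzQ, and LzE for
the comparison with `LocalizedModule T (Od U ⧸ range)`.  The same for `Hc` (the kernel of `D'` is the localization
of the kernel of `D`: `D' v = 0`, `t v = l u`, `l (D u) = 0`, `t' D u = 0`). -/
def S_LCx : Prop :=
  ∀ (S : Type) [CommRing S] (T : Submonoid S) (U : ℕ → Type) [∀ i, AddCommGroup (U i)]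
    [∀ i, Module S (U i)] (K : ℕ) (hK : ∀ i, 2 * K ≤ i → Subsingleton (U i)) (a : S)
    (D : ∀ i, U (i + 1) →ₗ[S] U i) (h : ∀ i, U i →ₗ[S] U (i + 1)) (hc : Ctr a D h),
    ∃ (D' : ∀ i, LocalizedModule T (U (i + 1)) →ₗ[Localization T] LocalizedModule T (U i))
      (h' : ∀ i, LocalizedModule T (U i) →ₗ[Localization T] LocalizedModule T (U (i + 1))),
      Ctr (algebraMap S (Localization T) a) D' h' ∧
      Module.length (Localization T) (LocalizedModule T (Od U ⧸ LinearMap.range (XX D h))) =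
        Module.length (Localization T)
          (Od (fun i => LocalizedModule T (U i)) ⧸ LinearMap.range (XX D' h')) ∧
      ∀ i, Module.length (Localization T) (LocalizedModule T (Hc D i)) =
        Module.length (Localization T) (Hc (V := fun i => LocalizedModule T (U i)) D' i)

/-- **LCk** (from LzE, LzQ).  Lengths of localized cokernels.
Proof: `range (X ⊕ X') = range X × range X'`; localization commutes with products; `Module.length_prod`;
invariance under isomorphisms. -/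
def S_LCk : Prop :=
  ∀ (S : Type) [CommRing S] (T : Submonoid S) (P Q P' Q' : Type) [AddCommGroup P] [Module S P]
    [AddCommGroup Q] [Module S Q] [AddCommGroup P'] [Module S P'] [AddCommGroup Q'] [Module S Q']
    (X : P →ₗ[S] Q) (X' : P' →ₗ[S] Q'),
    Module.length (Localization T) (LocalizedModule T ((Q × Q') ⧸
      LinearMap.range (X.prodMap X'))) =
      Module.length (Localization T) (LocalizedModule T (Q ⧸ LinearMap.range X)) +
        Module.length (Localization T) (LocalizedModule T (Q' ⧸ LinearMap.range X')) ∧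
    ∀ (e : P' ≃ₗ[S] P) (f : Q ≃ₗ[S] Q'),
      Module.length (Localization T) (LocalizedModule T (Q' ⧸
        LinearMap.range (f.toLinearMap ∘ₗ X ∘ₗ e.toLinearMap))) =
        Module.length (Localization T) (LocalizedModule T (Q ⧸ LinearMap.range X))

/-! ## D. From homology to chains -/

/-- **DGh.** If `a` kills the homology of a bounded complex of projective modules, then `a^(2K)` is null
homotopic.
Proof.  Induction on `i`: there is `h` with `D h + h D = a^i` in the degrees `< i`.  Step: in degree `i` the map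
`a^i - h D : U_i → U_i` has values in the cycles (`D (a^i - h D) = a^i D - (a^i - h D) D = 0`, for `i = 0` every
element is a cycle), so `a (a^i - h D)` has values in the boundaries; `U_i` is projective: it is `D ∘ h'_i` for some
`h'_i : U_i → U_(i+1)`; replace `h_j` by `a h_j` for `j < i`, `h_i` by `h'_i`.  For `i = 2 K` all further modules
are trivial. -/
def S_DGh : Prop :=
  ∀ (S : Type) [CommRing S] (U : ℕ → Type) [∀ i, AddCommGroup (U i)] [∀ i, Module S (U i)]
    [∀ i, Module.Projective S (U i)] (K : ℕ) (hK : ∀ i, 2 * K ≤ i → Subsingleton (U i)) (a : S)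
    (D : ∀ i, U (i + 1) →ₗ[S] U i) (dd : ∀ i x, D i (D (i + 1) x) = 0)
    (ha : ∀ i, ∀ x ∈ Zc D i, ∃ y, D i y = a • x),
    ∃ h : ∀ i, U i →ₗ[S] U (i + 1), Ctr (a ^ (2 * K)) D h

/-! ## F. Patching over `B` -/

/-- **FK.** The total ring of fractions `K = B ⊗ ℚ`.
Proof: `K = Localization (Algebra.algebraMapSubmonoid B (nonZeroDivisors ℤ))` (or `ℚ ⊗ B`): finite over `ℚ`, so
artinian; reduced as a localization of a reduced ring; `B → K` is injective as `B` is torsion free. -/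
def S_FK : Prop :=
  ∀ (B : Type) [CommRing B] [IsReduced B] [Module.Finite ℤ B]
    (tf : ∀ (n : ℤ) (x : B), n ≠ 0 → n • x = 0 → x = 0),
    ∃ (K : Type) (_ : CommRing K) (f : B →+* K), Function.Injective f ∧
      (∀ x : K, ∃ n : ℤ, n ≠ 0 ∧ ∃ b : B, (n : K) * x = f b) ∧
      (∀ n : ℤ, n ≠ 0 → IsUnit (n : K)) ∧ IsReduced K ∧ IsArtinianRing K

/-- **FSL.** `SL_r` of a finite product of fields is generated by elementary matrices.
Proof.  `IsArtinianRing.equivPi`: `K ≃ ∏_m K/m` (fields).  For a field: `Matrix.Pivot`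
(`exists_list_transvec_mul_diagonal_mul_list_transvec`) and a diagonal matrix of determinant `1` is a product
of the matrices `diag(.., a, .., a⁻¹, ..)`, each a product of 4 or 6 transvections (Whitehead).  For the product: a
matrix of determinant `1` is the product over `m` of matrices which are equal to `1` in the other components, and a
transvection of `K/m` lifts to a transvection of `K` with the other components trivial. -/
def S_FSL : Prop :=
  ∀ (K : Type) [CommRing K] [IsReduced K] [IsArtinianRing K] (r : ℕ)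
    (Q : Matrix (Fin r) (Fin r) K → Prop) (h1 : Q 1) (hm : ∀ M N, Q M → Q N → Q (M * N))
    (ht : ∀ (i j : Fin r) (c : K), i ≠ j → Q (Matrix.transvection i j c))
    (M : Matrix (Fin r) (Fin r) K), M.det = 1 → Q M

/-- **FFac** (from FSL).  Strong approximation: `SL_r(K) = (matrices invertible at N) (matrices over B[1/N])`.
Proof.  Let `Q M` be: for all `k` there are `c` prime to `N`, `j`, and matrices `E, G, G'` over `B` with `det G = N^(jr)`,
`G G' = N^(2j)`, and `c N^j M = (c + N^k E) G` in `K`.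
Include `c ≠ 0` and `G' G = N^(2j)` in `Q`.
Product: `M1 M2 = (1 + N^k E1/c1) (G1/N^j1) (1 + N^(k2) E2/c2) (G2/N^j2)
= (1 + N^k E1/c1) (1 + N^(k2) g E2 g⁻¹/c2) g (G2/N^j2)`, `g = G1/N^j1`, `g⁻¹ = G1'/N^j1`; `g E2 g⁻¹ = G1 E2 G1'/N^(2 j1)`,
so `k2 = k + 2 j1` is enough; the product of the two first factors is `1 + N^k E/(c1 c2)`.
Transvections: `x ∈ K`, `n x = b`, `n = n1 n2` with `n1 ∣ N^a`, `n2` prime to `N` (`n ≠ 0`); so `x = b'/(N^a n2)`;
`u n2 + v N^(a+k) = 1`: `x = u b'/N^a + N^k v b'/n2`; `t(x) = t(N^k v b'/n2) t(u b'/N^a)`, `c = n2`, `j = a`,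
`E = v b' e_ij`, `G = N^a + u b' e_ij`, `G' = N^a - u b' e_ij`, `det G = N^(a r)`.
By FSL every `M` with `det M = 1` satisfies `Q` (`N` is a unit of `K`; `Q` is used for `r`, `det` multiplicative).
Conclusion from `Q M` for `k = 0`: `C = c + E`; `c^r N^(jr) = det C det G` (as `det M = 1`) so `det C = c^r` (`B` torsion
free), `C' = adj C`, `c1 = c^r`, `b = 2 j`. -/
def S_FFac : Prop :=
  ∀ (B K : Type) [CommRing B] [CommRing K] [IsReduced K] [IsArtinianRing K]
    (tf : ∀ (n : ℤ) (x : B), n ≠ 0 → n • x = 0 → x = 0) (f : B →+* K)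
    (hf : Function.Injective f) (hd : ∀ x : K, ∃ n : ℤ, n ≠ 0 ∧ ∃ b : B, (n : K) * x = f b)
    (hu : ∀ n : ℤ, n ≠ 0 → IsUnit (n : K)) (N : ℤ) (hN : N ≠ 0) (r : ℕ)
    (M : Matrix (Fin r) (Fin r) K) (hM : M.det = 1),
    ∃ (c c1 : ℤ) (j b : ℕ) (C C' G G' : Matrix (Fin r) (Fin r) B), c ≠ 0 ∧ c1 ≠ 0 ∧
      IsCoprime c N ∧ IsCoprime c1 N ∧ C * C' = (c1 : Matrix (Fin r) (Fin r) B) ∧
      C' * C = (c1 : Matrix (Fin r) (Fin r) B) ∧ G * G' = ((N ^ b : ℤ) : Matrix (Fin r) (Fin r) B) ∧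
      G' * G = ((N ^ b : ℤ) : Matrix (Fin r) (Fin r) B) ∧
      ((c * N ^ j : ℤ) : K) • M = (C * G).map f

/-- **FMat** (from FK, FFac).  The matrix form of the patching lemma.
Proof.  `K` from FK, `f : B → K`.  `x1`, `x2`, `n`, `N` are units in `K`.  `T = A/n`, `Δ(x) = diag(x, 1, .., 1)`,
`T1 = Δ(x1) T Δ(x2)⁻¹` has determinant `x1 (det A / n^(r+1)) / x2 = 1`.  FFac: `c N^j T1 = C G`.  So
`T = Δ(x1)⁻¹ C G Δ(x2) / (c N^j)`; `n^a Δ(x1)⁻¹ = diag(y1, n^a, ..)`.  Put `E = diag(y1, n^a, .., n^a) C`,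
`c' = c n^a`, `E' = C' diag(x1, 1, .., 1)`: `E E' = E' E = n^a c1`; `H = G Δ(x2)`,
`H' = diag(y2, N^a, ..) G'`, `H H' = H' H = N^(a+b)`.  `c' N^j A = n E H` in `K`, so in `B`. -/
def S_FMat : Prop :=
  ∀ (B : Type) [CommRing B] [IsReduced B] [Module.Finite ℤ B]
    (tf : ∀ (n : ℤ) (x : B), n ≠ 0 → n • x = 0 → x = 0) (r a : ℕ)
    (A : Matrix (Fin (r + 1)) (Fin (r + 1)) B) (n N : ℤ) (hn : n ≠ 0) (hN : N ≠ 0)
    (hnN : IsCoprime n N) (x1 y1 x2 y2 : B) (h1 : x1 * y1 = (n : B) ^ a)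
    (h2 : x2 * y2 = (N : B) ^ a) (hA : (n : B) ^ (r + 1) * x2 = x1 * A.det),
    ∃ (c c1 : ℤ) (j b : ℕ) (E E' H H' : Matrix (Fin (r + 1)) (Fin (r + 1)) B), c ≠ 0 ∧ c1 ≠ 0 ∧
      IsCoprime c N ∧ IsCoprime c1 N ∧ E * E' = (c1 : Matrix (Fin (r + 1)) (Fin (r + 1)) B) ∧
      E' * E = (c1 : Matrix (Fin (r + 1)) (Fin (r + 1)) B) ∧
      H * H' = ((N ^ b : ℤ) : Matrix (Fin (r + 1)) (Fin (r + 1)) B) ∧
      H' * H = ((N ^ b : ℤ) : Matrix (Fin (r + 1)) (Fin (r + 1)) B) ∧
      (c * N ^ j) • A = n • (E * H)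

/-- **FPat** (from FMat).  The patching lemma.
Proof.  `r = 0`: `n P = α (β P) = 0`, `P` is torsion free, so trivial.  `r ≥ 1`: `A` = matrix of `β α'`; FMat (matrices
as linear maps of `B^r`).  `n α' = α β α' = α A`, so `c N^j n α' = α (c N^j A) = n α E H`, `c N^j α' = α E H`
(`P` torsion free), `c N^j α' H' = N^b α E`.  `u c + v N^b = 1`; `Φ = u α E + v N^j α' H'`: `c Φ = α E`,
`N^b Φ = N^j α' H'`.  `c Φ E' β = α E E' β = c1 n`, and `N^b Φ H β' = N^j α' H' H β' = N^(j+b) N`, so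
`Φ (H β') = N^(j+1)`; `c1 n` and `N^(j+1)` are coprime: `Φ` is onto.  `E' β (c Φ) = E' β α E = n c1 ≠ 0` on the torsion
free module `B^r`: `Φ` is injective. -/
def S_FPat : Prop :=
  ∀ (B : Type) [CommRing B] [IsReduced B] [Module.Finite ℤ B]
    (tf : ∀ (n : ℤ) (x : B), n ≠ 0 → n • x = 0 → x = 0) (r a : ℕ) (P : Type) [AddCommGroup P]
    [Module B P] (tfP : ∀ (n : ℤ) (x : P), n ≠ 0 → n • x = 0 → x = 0)
    (α α' : (Fin r → B) →ₗ[B] P) (β β' : P →ₗ[B] (Fin r → B)) (n N : ℤ) (hn : n ≠ 0) (hN : N ≠ 0)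
    (hnN : IsCoprime n N) (h1 : ∀ x, β (α x) = n • x) (h1' : ∀ x, α (β x) = n • x)
    (h2 : ∀ x, β' (α' x) = N • x) (h2' : ∀ x, α' (β' x) = N • x) (x1 y1 x2 y2 : B)
    (hx1 : x1 * y1 = (n : B) ^ a) (hx2 : x2 * y2 = (N : B) ^ a)
    (hA : (n : B) ^ r * x2 = x1 * LinearMap.det (β ∘ₗ α')),
    Nonempty (P ≃ₗ[B] (Fin r → B))

/-! ## E. The core -/

/-- **ERk** (from AMin).  The rank of `P` is `r` everywhere.
Proof.  Let `𝔪` be a prime of `S`, `𝔭0 ≤ 𝔪` with `s ∉ 𝔭0` (AMin).  In `S_𝔭0` the element `s` is a unit, so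
`s^k + ν`, `s^k + ν'` (localized) are invertible (unit plus commuting nilpotent), `X` and `Y` localized are
isomorphisms: `P_𝔭0 ≃ (S_𝔭0)^r`, rank `r` (`Module.rankAtStalk` at `𝔭0`); `Module.rankAtStalk_eq_of_le_of_finite_of_flat`. -/
def S_ERk : Prop :=
  ∀ (S : Type) [CommRing S] (s : S) (hs : ∀ x, s * x = 0 → x = 0) (P : Type) [AddCommGroup P]
    [Module S P] [Module.Finite S P] [Module.Projective S P] (k r : ℕ)
    (X : P →ₗ[S] (Fin r → S)) (Y : (Fin r → S) →ₗ[S] P) (ν : Module.End S P) (hν : IsNilpotent ν)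
    (hYX : ∀ x, Y (X x) = s ^ k • x + ν x) (ν' : Module.End S (Fin r → S)) (hν' : IsNilpotent ν')
    (hXY : ∀ x, X (Y x) = s ^ k • x + ν' x) (p : PrimeSpectrum S),
    Module.rankAtStalk (R := S) P p = r

/-- **ERd.** Reductions modulo `s`.
Proof.  Existence: `B ⊗[S] U` (`Algebra S B` from `φ`) or `U ⧸ s U` with the `B`-module structure; `c u = 1 ⊗ u`.
The kernel of `U → B ⊗ U` is `s U` (`B = S / s S`).  Uniqueness and functoriality: for `f : U → U'` the map
`c u ↦ c' (f u)` is well defined and `B`-linear.  If `U` is f.g. projective then so is `Ub` (`Ub ≃ B ⊗[S] U`), and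
`rankAtStalk Ub p = rankAtStalk U (comap φ p)` (`Module.rankAtStalk_baseChange`).  `Fin r → S`, `Fin r → B`. -/
def S_ERd : Prop :=
  ∀ (S B : Type) [CommRing S] [CommRing B] (s : S) (φ : S →+* B) (hs : Function.Surjective φ)
    (hk : ∀ x, φ x = 0 ↔ ∃ y, x = s * y),
    (∀ (U : Type) [AddCommGroup U] [Module S U] [Module.Finite S U] [Module.Projective S U],
      ∃ Ub : FPr B, Nonempty (Rd φ s U Ub.M)) ∧
    (∀ (U Ub : Type) [AddCommGroup U] [Module S U] [AddCommGroup Ub] [Module B Ub]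
      [Module.Finite S U] [Module.Projective S U] (b : Rd φ s U Ub),
      Module.Finite B Ub ∧ Module.Projective B Ub ∧
      ∀ p : PrimeSpectrum B, Module.rankAtStalk (R := B) Ub p =
        Module.rankAtStalk (R := S) U (PrimeSpectrum.comap φ p)) ∧
    (∀ (U Ub U' Ub' : Type) [AddCommGroup U] [Module S U] [AddCommGroup Ub] [Module B Ub]
      [AddCommGroup U'] [Module S U'] [AddCommGroup Ub'] [Module B Ub'] (b : Rd φ s U Ub)
      (b' : Rd φ s U' Ub'),
      (∀ f : U →ₗ[S] U', ∃ F : Ub →ₗ[B] Ub', ∀ u, F (b.c u) = b'.c (f u)) ∧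
      (∀ e : U ≃ₗ[S] U', Nonempty (Ub ≃ₗ[B] Ub')) ∧
      (Module.Projective S U → ∀ F : Ub →ₗ[B] Ub', ∃ f : U →ₗ[S] U', ∀ u, F (b.c u) = b'.c (f u)) ∧
      ∃ b2 : Rd φ s (U × U') (Ub × Ub'), ∀ u, b2.c u = (b.c u.1, b'.c u.2)) ∧
    ∀ r : ℕ, ∃ b : Rd φ s (Fin r → S) (Fin r → B), ∀ u i, b.c u i = φ (u i)

/-- **EBas.** Maps `B^r → P` which are isomorphisms up to an integer `n ≡ 1` modulo `m`.
Proof.  `B / m` is a finite ring (`B` is a f.g. abelian group, `m ≠ 0`), so it has finitely many maximal ideals;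
`(B/m) ⊗ P` is f.g. projective of rank `r` at all of them (`Module.rankAtStalk_baseChange`), so it has a basis with
`r` elements (`Module.nonempty_basis_of_flat_of_finrank_eq`; `finrank (R/P) (R/P ⊗ M)` is the rank at the stalk).
Lift it to `e_i ∈ P` (`P → (B/m) ⊗ P` is onto with kernel `m P`), `α : B^r → P`: (i) `P = α (B^r) + m P`,
(ii) `α y ∈ m P` implies `y ∈ m B^r`.  `C = P / α (B^r)` is a f.g. abelian group with `C = m C`; Nakayama over `ℤ`
(`Submodule.exists_sub_one_mem_and_smul_eq_zero_of_fg_of_le_smul`): `n ≡ 1` mod `m`, `n P ≤ α (B^r)`; `n ≠ 0` as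
`m ≥ 2`.  `ker α = m ker α` by (ii) and torsion freeness of `P`, so some `n' ≡ 1` mod `m` kills the f.g. torsion free
group `ker α`: `α` is injective.  So there is `β : P → B^r` with `α (β x) = n x` (linear by injectivity), and
`β (α x) = n x`. -/
def S_EBas : Prop :=
  ∀ (B : Type) [CommRing B] [Module.Finite ℤ B]
    (tf : ∀ (n : ℤ) (x : B), n ≠ 0 → n • x = 0 → x = 0) (P : Type) [AddCommGroup P] [Module B P]
    [Module.Finite B P] [Module.Projective B P] (r : ℕ)
    (hr : ∀ p : PrimeSpectrum B, Module.rankAtStalk (R := B) P p = r) (m : ℤ) (hm : 2 ≤ m),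
    (∀ (n : ℤ) (x : P), n ≠ 0 → n • x = 0 → x = 0) ∧
    ∃ (n : ℤ) (α : (Fin r → B) →ₗ[B] P) (β : P →ₗ[B] (Fin r → B)), n ≠ 0 ∧ m ∣ n - 1 ∧
      (∀ x, β (α x) = n • x) ∧ ∀ x, α (β x) = n • x

/-- **EVal** (from ALoc, BPair, LzE, LzQ, LzP).  The determinants at `𝔭`.
Proof.  `A = Lq φ q`, a discrete valuation ring with uniformizer `s` (ALoc).  `P_A = LocalizedModule`, `A^r` (LzP), the
localized maps `X_A`, `Y_A`, `α_A`, `β_A`, `ν_A` (LzE); the determinant of the localization of an endomorphism of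
`S^r` is the image of its determinant (matrices).  `length (A^r / range X_A) = ρ` (LzQ, LzE).
`det (β α) = n^r` modulo `s` (`β α = n + s γ`), a unit of `A` as `n` is a unit and `s` is in the maximal ideal.
`α_A β_A = n + s γ'` on the f.g. module `P_A`: onto by Nakayama, so `α_A` is onto.  BPair. -/
def S_EVal : Prop :=
  ∀ (S B : Type) [CommRing S] [CommRing B] (s : S) (φ : S →+* B) (hg : Good s φ) (q : Ideal B)
    [q.IsPrime] (hq : q ∈ minimalPrimes B) (P : Type) [AddCommGroup P] [Module S P]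
    [Module.Finite S P] (k r ρ : ℕ) (X : P →ₗ[S] (Fin r → S))
    (Y : (Fin r → S) →ₗ[S] P) (ν : Module.End S P) (hν : IsNilpotent ν)
    (hYX : ∀ x, Y (X x) = s ^ k • x + ν x)
    (hρ : Module.length (Lq φ q) (Mq φ q ((Fin r → S) ⧸ LinearMap.range X)) = ρ)
    (n : ℤ) (hn : n ≠ 0) (α : (Fin r → S) →ₗ[S] P) (β : P →ₗ[S] (Fin r → S))
    (h1 : ∀ x, ∃ y, β (α x) = n • x + s • y) (h2 : ∀ x, ∃ y, α (β x) = n • x + s • y),
    IsUnit (algebraMap S (Lq φ q) (LinearMap.det (β ∘ₗ α))) ∧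
    Associated (algebraMap S (Lq φ q) (LinearMap.det (X ∘ₗ α))) (algebraMap S (Lq φ q) s ^ ρ) ∧
    algebraMap S (Lq φ q) (LinearMap.det (X ∘ₗ α) * LinearMap.det (β ∘ₗ Y)) =
      algebraMap S (Lq φ q) (LinearMap.det (β ∘ₗ α) * s ^ (k * r)) ∧
    ∀ α2 : (Fin r → S) →ₗ[S] P,
      algebraMap S (Lq φ q) (LinearMap.det (β ∘ₗ α) * LinearMap.det (X ∘ₗ α2)) =
        algebraMap S (Lq φ q) (LinearMap.det (X ∘ₗ α) * LinearMap.det (β ∘ₗ α2))

/-- **EDiv** (from ADvd).  Division by `s^ρ` (Hartogs).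
Proof.  `s^ρ ∣ x` in all `S_𝔭`, so `x = s^ρ x'` (ADvd), `x'` is a unit in all `S_𝔭`.  `x y = f s^m` in all `S_𝔭`, so in `S`
(ADvd).  In `S_𝔭`: `s^ρ x' y = f s^m` with `x'`, `f` units gives `ρ ≤ m` (if there is a `q`) and `s^(m-ρ) ∣ y`; so
`y = s^(m-ρ) y'`, `x' y' = f` (`s` is a non zero divisor).  If there is no minimal prime, `B` is trivial and the
claim is trivial.  The same for `x2`.  `f x2 = x g` in `S`, so `f x2' = x' g`.  Apply `φ`. -/
def S_EDiv : Prop :=
  ∀ (S B : Type) [CommRing S] [CommRing B] (s : S) (φ : S →+* B) (hg : Good s φ) (m ρ : ℕ)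
    (x y f x2 y2 f2 g : S)
    (h : ∀ (q : Ideal B) [q.IsPrime], q ∈ minimalPrimes B →
      IsUnit (algebraMap S (Lq φ q) f) ∧ IsUnit (algebraMap S (Lq φ q) f2) ∧
      Associated (algebraMap S (Lq φ q) x) (algebraMap S (Lq φ q) s ^ ρ) ∧
      Associated (algebraMap S (Lq φ q) x2) (algebraMap S (Lq φ q) s ^ ρ) ∧
      algebraMap S (Lq φ q) (x * y) = algebraMap S (Lq φ q) (f * s ^ m) ∧
      algebraMap S (Lq φ q) (x2 * y2) = algebraMap S (Lq φ q) (f2 * s ^ m) ∧
      algebraMap S (Lq φ q) (f * x2) = algebraMap S (Lq φ q) (x * g)),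
    ∃ a b a2 b2 : B, a * b = φ f ∧ a2 * b2 = φ f2 ∧ φ f * a2 = a * φ g

/-- **ECore** (from ERk, ERd, EBas, EVal, EDiv, FPat).  The core of Theorem H.
Proof.  `Pb` is f.g. projective over `B` of rank `r` everywhere (ERk, ERd).  EBas with `m = 2`: `(N, αb', βb')`, `N`
odd; EBas with `m = 2 |N|`: `(n, αb, βb)`, `n ≡ 1` mod `N`, so `n`, `N` coprime.  Lift all four maps (ERd: `P` and `S^r`
are projective): `β α = n + s γ` etc.  EVal for `(n, α, β)` (with `α2 = α'`) and for `(N, α', β')`; EDiv with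
`f = det (β α)`, `f2 = det (β' α')`, `g = det (β α')`, `m = k r`: `φ f = n^r`, `φ f2 = N^r`, `φ g = det (βb αb')`.
FPat with `a = r`. -/
def S_ECore : Prop :=
  ∀ (S B : Type) [CommRing S] [CommRing B] (s : S) (φ : S →+* B) (hg : Good s φ) (P : Type)
    [AddCommGroup P] [Module S P] [Module.Finite S P] [Module.Projective S P] (k r ρ : ℕ)
    (X : P →ₗ[S] (Fin r → S)) (Y : (Fin r → S) →ₗ[S] P) (ν : Module.End S P) (hν : IsNilpotent ν)
    (hYX : ∀ x, Y (X x) = s ^ k • x + ν x) (ν' : Module.End S (Fin r → S)) (hν' : IsNilpotent ν')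
    (hXY : ∀ x, X (Y x) = s ^ k • x + ν' x)
    (hρ : ∀ (q : Ideal B) [q.IsPrime], q ∈ minimalPrimes B →
      Module.length (Lq φ q) (Mq φ q ((Fin r → S) ⧸ LinearMap.range X)) = ρ)
    (Pb : Type) [AddCommGroup Pb] [Module B Pb] (b : Rd φ s P Pb),
    Nonempty (Pb ≃ₗ[B] (Fin r → B))

/-! ## G. Theorem H for complexes indexed by `ℕ` -/

/-- **GRk.** Compensation of the ranks.
Proof.  Call a function `F` of `q` (minimal primes) with values in `ℤ` good if there are `V : FPr S` and `c : ℤ` with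
`F q + rq φ q V = c` for all `q`.  `rq` of a module `W`: good (`exists_compl`; `rq (W × W') = rq W + rq W'`,
`rq (Fin n → S) = n`); `- rq W`: good (`V = W`, `c = 0`); sums of good functions are good.  `zz q i` is an integral
combination of the functions `rq U_l` (induction on `i`), so `∑ zz q (2 j)` is good; and `c ≥ 0` if there is a `q`
(if there is none, the claim is trivial). -/
def S_GRk : Prop :=
  ∀ (S B : Type) [CommRing S] [CommRing B] (φ : S →+* B) (U : ℕ → Type) [∀ i, AddCommGroup (U i)]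
    [∀ i, Module S (U i)] [∀ i, Module.Finite S (U i)] [∀ i, Module.Projective S (U i)] (K : ℕ)
    (zz : ∀ q : Ideal B, ℕ → ℕ)
    (hz0 : ∀ (q : Ideal B) [q.IsPrime], q ∈ minimalPrimes B → zz q 0 = rq φ q (U 0))
    (hz : ∀ (q : Ideal B) [q.IsPrime], q ∈ minimalPrimes B → ∀ i,
      zz q (i + 1) + zz q i = rq φ q (U (i + 1))),
    ∃ (V : FPr S) (c : ℕ), ∀ (q : Ideal B) [q.IsPrime], q ∈ minimalPrimes B →
      ∑ j ∈ Finset.range K, zz q (2 * j) + rq φ q V.M = c

/-- **GLen** (from ALoc, BOrd, LzE, LzQ).  The length of `(V / s^k V)_𝔭`; `V_𝔭` is f.g. free.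
Proof: `V_𝔭` is f.g. projective over the local ring `A`, so free; `(V / s^k V)_𝔭 = V_𝔭 / s^k V_𝔭` (LzQ); BOrd. -/
def S_GLen : Prop :=
  ∀ (S B : Type) [CommRing S] [CommRing B] (s : S) (φ : S →+* B) (hg : Good s φ) (q : Ideal B)
    [q.IsPrime] (hq : q ∈ minimalPrimes B) (V : Type) [AddCommGroup V] [Module S V]
    [Module.Finite S V] [Module.Projective S V],
    Module.Finite (Lq φ q) (Mq φ q V) ∧ Module.Free (Lq φ q) (Mq φ q V) ∧
    ∀ k : ℕ, Module.length (Lq φ q) (Mq φ q (V ⧸ LinearMap.range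
      (s ^ k • (LinearMap.id : V →ₗ[S] V)))) = (k * rq φ q V : ℕ)

/-- **GLoc** (from ALoc, LCx, CFin, CZR, GLen).  The length of `(coker (D + h))_𝔭`.
Proof.  LCx for `T = (φ⁻¹ q).primeCompl`; CFin for the complex `V_i = (U_i)_𝔭` over the discrete valuation ring `A`,
`ϖ = s`. `zz i = finrank (Zc D' i)` exists by CZR. -/
def S_GLoc : Prop :=
  ∀ (S B : Type) [CommRing S] [CommRing B] (s : S) (φ : S →+* B) (hg : Good s φ) (q : Ideal B)
    [q.IsPrime] (hq : q ∈ minimalPrimes B) (U : ℕ → Type) [∀ i, AddCommGroup (U i)]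
    [∀ i, Module S (U i)] [∀ i, Module.Finite S (U i)] [∀ i, Module.Projective S (U i)] (k K : ℕ)
    (hK : ∀ i, 2 * K ≤ i → Subsingleton (U i)) (D : ∀ i, U (i + 1) →ₗ[S] U i)
    (h : ∀ i, U i →ₗ[S] U (i + 1)) (hc : Ctr (s ^ k) D h) (hh : ℕ → ℕ)
    (hH : ∀ i, Module.length (Lq φ q) (Mq φ q (Hc D i)) = hh i)
    (hE : ∑ j ∈ Finset.range K, hh (2 * j) = ∑ j ∈ Finset.range K, hh (2 * j + 1)),
    ∃ zz : ℕ → ℕ, zz 0 = rq φ q (U 0) ∧ (∀ i, zz (i + 1) + zz i = rq φ q (U (i + 1))) ∧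
      Module.length (Lq φ q) (Mq φ q (Od U ⧸ LinearMap.range (XX D h))) =
        (k * ∑ j ∈ Finset.range K, zz (2 * j) : ℕ)

/-- **GMain** (from DGh, CYX, CFn, GLoc, GRk, GLen, LCk, ERd, ECore).  Theorem H for complexes indexed
by `ℕ`.
Proof.  DGh: `Ctr (s^k) D h`, `k = 2 K`.  `zz q` from GLoc, `V`, `c` from GRk.  `V2` a complement:
`Od U × V × V2 ≃ S^r` (`exists_compl`).  `P = Ev U × (V × V2)`, `X = XX D h ⊕ (s^k ⊕ 1)`,
`Y = YY D h ⊕ (1 ⊕ s^k)` (composed with the isomorphism onto `S^r`); `Y X - s^k`, `X Y - s^k` are nilpotent (CYX for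
`h' = h`); `length coker X_𝔭 = k ∑ zz q (2j) + k rq V = k c` (LCk, GLen).  ECore: the reduction of `P` is free, so
`cl (Ev Ub) + cl Vb + cl V2b = 0` (ERd: reductions of products; `Ev`, `Od` as finite products, CFn); and
`cl (Od Ub) + cl Vb + cl V2b = 0` since `S^r` reduces to `B^r`.  Hence `cl (Ev Ub) = cl (Od Ub)`. -/
def S_GMain : Prop :=
  ∀ (S B : Type) [CommRing S] [CommRing B] (s : S) (φ : S →+* B) (hg : Good s φ) (U Ub : ℕ → Type)
    [∀ i, AddCommGroup (U i)] [∀ i, Module S (U i)] [∀ i, Module.Finite S (U i)]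
    [∀ i, Module.Projective S (U i)] [∀ i, AddCommGroup (Ub i)] [∀ i, Module B (Ub i)]
    [∀ i, Module.Finite B (Ub i)] [∀ i, Module.Projective B (Ub i)] (K : ℕ)
    (hK : ∀ i, 2 * K ≤ i → Subsingleton (U i)) (b : ∀ i, Rd φ s (U i) (Ub i))
    (D : ∀ i, U (i + 1) →ₗ[S] U i) (dd : ∀ i x, D i (D (i + 1) x) = 0)
    (hs : ∀ i, ∀ x ∈ Zc D i, ∃ y, D i y = s • x)
    (hχ : ∀ (q : Ideal B) [q.IsPrime], q ∈ minimalPrimes B → ∃ hh : ℕ → ℕ,
      (∀ i, Module.length (Lq φ q) (Mq φ q (Hc D i)) = hh i) ∧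
      ∑ j ∈ Finset.range K, hh (2 * j) = ∑ j ∈ Finset.range K, hh (2 * j + 1)),
    cl B (∀ j : Fin K, Ub (2 * (j : ℕ))) = cl B (∀ j : Fin K, Ub (2 * (j : ℕ) + 1))

end HHx
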